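import Mathlib

/-!
The order of vanishing of the minors of a matrix along a curve with given orders of contact.
-/

set_option autoImplicit false
set_option linter.unusedSectionVars false

namespace Pool.Agent.H432.RC

open Polynomial

/-- one step: constant column operations make `e` columns vanish at `y0` -/
theorem step {E : Type} [Field E] {M p : ℕ} (B : Fin M → Fin p → E[X]) (y0 : E) :
    ∃ (U : Matrix (Fin p) (Fin p) E) (ε : Fin p → ℕ) (B' : Fin M → Fin p → E[X]),
      U.det ≠ 0 ∧ (∀ c, ε c ≤ 1) ∧
      ∑ c, ε c + Module.finrank E (Submodule.span E (Set.range fun c : Fin p =>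
        fun l => (B l c).eval y0)) = p ∧
      ∀ l c, ∑ c', B l c' * C (U c' c) = (X - C y0) ^ ε c * B' l c := by
  classical
  let Λ : (Fin p → E) →ₗ[E] (Fin M → E) := LinearMap.pi fun l =>
    ∑ c', ((B l c').eval y0) • LinearMap.proj c'
  have hΛ : ∀ w l, Λ w l = ∑ c', (B l c').eval y0 * w c' := by
    intro w l
    simp only [Λ, LinearMap.pi_apply, LinearMap.sum_apply, LinearMap.smul_apply,
      LinearMap.proj_apply, smul_eq_mul]
  have hrange : LinearMap.range Λ = Submodule.span E (Set.range fun c : Fin p =>
        fun l => (B l c).eval y0) := by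
    apply le_antisymm
    · rintro _ ⟨w, rfl⟩
      have h1 : Λ w = ∑ c', w c' • (fun l => (B l c').eval y0) := by
        funext l
        rw [hΛ, Finset.sum_apply]
        exact Finset.sum_congr rfl fun c' _ => mul_comm _ _
      rw [h1]
      exact Submodule.sum_mem _ fun c' _ => Submodule.smul_mem _ _
        (Submodule.subset_span ⟨c', rfl⟩)
    · rw [Submodule.span_le]
      rintro _ ⟨c, rfl⟩
      refine ⟨Pi.single c 1, ?_⟩
      funext l
      rw [hΛ, Finset.sum_eq_single c]
      · simp
      · intro c' _ hc
        rw [Pi.single_eq_of_ne hc, mul_zero]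
      · intro h
        exact absurd (Finset.mem_univ _) h
  set K0 := LinearMap.ker Λ with hK0
  obtain ⟨K1, hK1⟩ := K0.exists_isCompl
  let B0 := (Module.finBasis E K0).prod (Module.finBasis E K1)
  let Bs := B0.map (Submodule.prodEquivOfIsCompl K0 K1 hK1)
  have hcard : Fintype.card (Fin (Module.finrank E K0) ⊕ Fin (Module.finrank E K1)) =
      Fintype.card (Fin p) := by
    rw [← Module.finrank_eq_card_basis Bs, Module.finrank_fin_fun, Fintype.card_fin]
  let e : Fin (Module.finrank E K0) ⊕ Fin (Module.finrank E K1) ≃ Fin p :=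
    Fintype.equivOfCardEq hcard
  let B' := Bs.reindex e
  set U : Matrix (Fin p) (Fin p) E := Matrix.of fun x c => B' c x with hU
  have hUdet : U.det ≠ 0 := by
    have h1 : U = (Pi.basisFun E (Fin p)).toMatrix B' := by
      ext x c
      rw [Module.Basis.toMatrix_apply]
      simp [hU]
    rw [h1]
    have h2 := (Pi.basisFun E (Fin p)).isUnit_det B'
    rw [Module.Basis.det_apply] at h2
    exact h2.ne_zero
  have hB0 : ∀ i, Bs (Sum.inl i) ∈ K0 := by
    intro i
    have h1 : Bs (Sum.inl i) = (Submodule.prodEquivOfIsCompl K0 K1 hK1) (B0 (Sum.inl i)) := rfl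
    rw [h1, Submodule.coe_prodEquivOfIsCompl']
    rw [show (B0 (Sum.inl i)).1 = _ from Module.Basis.prod_apply_inl_fst _ _ i,
      show (B0 (Sum.inl i)).2 = 0 from Module.Basis.prod_apply_inl_snd _ _ i]
    rw [Submodule.coe_zero, add_zero]
    exact Subtype.mem _
  have hker : ∀ (i : Fin (Module.finrank E K0)) (x : Fin M),
      ∑ c, (B x c).eval y0 * Bs (Sum.inl i) c = 0 := by
    intro i x
    have h1 : Λ (Bs (Sum.inl i)) = 0 := LinearMap.mem_ker.1 (hB0 i)
    have h2 := congrFun h1 x
    rw [hΛ] at h2
    exact h2
  set ε : Fin p → ℕ := fun c => Sum.elim (fun _ => 1) (fun _ => 0) (e.symm c) with hε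
  have hdvd : ∀ (x : Fin M) (c : Fin p), ∃ w : E[X], ∑ c', B x c' * C (U c' c) =
      (X - C y0) ^ ε c * w := by
    intro x c
    obtain ⟨i | i, hi⟩ : ∃ s, e.symm c = s := ⟨_, rfl⟩
    · have h0 : ε c = 1 := by
        rw [hε]
        simp only
        rw [hi, Sum.elim_inl]
      rw [h0, pow_one]
      have h2 : (∑ c', B x c' * C (U c' c)).IsRoot y0 := by
        rw [Polynomial.IsRoot.def, Polynomial.eval_finsetSum]
        have h3 : B' c = Bs (Sum.inl i) := by
          rw [← hi]
          exact Module.Basis.reindex_apply _ _ _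
        rw [← hker i x]
        refine Finset.sum_congr rfl fun l _ => ?_
        rw [Polynomial.eval_mul, Polynomial.eval_C, hU, Matrix.of_apply, h3]
      exact Polynomial.dvd_iff_isRoot.2 h2
    · have h0 : ε c = 0 := by
        rw [hε]
        simp only
        rw [hi, Sum.elim_inr]
      rw [h0, pow_zero]
      exact ⟨_, (one_mul _).symm⟩
  choose W hW using hdvd
  refine ⟨U, ε, W, hUdet, ?_, ?_, hW⟩
  · intro c
    rw [hε]
    simp only
    rcases e.symm c with i | i
    · exact le_refl 1
    · exact Nat.zero_le 1
  · have h1 : ∑ c, ε c = Module.finrank E K0 := by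
      rw [hε]
      rw [Equiv.sum_comp e.symm (fun s => Sum.elim (fun _ => 1) (fun _ => 0) s)]
      rw [Fintype.sum_sum_type]
      simp
    have h2 := LinearMap.finrank_range_add_finrank_ker Λ
    rw [Module.finrank_fin_fun, hrange, ← hK0] at h2
    rw [h1, add_comm]
    exact h2

/-- **divisibility of the minors** -/
theorem dvn {E : Type} [Field E] {M p q : ℕ} {κ : Type} (Gr : κ → Fin M → E[X])
    (R : Fin q → Fin M → E[X]) (y0 : E) (I0 : Finset (Fin q))
    (hdim : ∀ I : Finset (Fin q), I ⊆ I0 → ∀ W : Submodule E (Fin M → E),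
      (∀ v ∈ W, (∀ s, ∑ l, (Gr s l).eval y0 * v l = 0) ∧
        ∀ i ∈ I, ∑ l, (R i l).eval y0 * v l = 0) → Module.finrank E W + I.card ≤ p) :
    ∀ (N : ℕ) (m : Fin q → ℕ), (∀ i, m i ≤ N) → (∀ i, m i ≠ 0 → i ∈ I0) →
      ∀ B : Fin M → Fin p → E[X], (∀ s c, ∑ l, Gr s l * B l c = 0) →
      (∀ i c, (X - C y0) ^ m i ∣ ∑ l, R i l * B l c) → ∀ J : Fin p → Fin M,
      (X - C y0) ^ (∑ i, m i) ∣ (Matrix.of fun x c => B (J x) c).det := by
  classical
  intro N
  induction N with
  | zero =>
    intro m hm _ B _ _ J
    have h1 : ∑ i, m i = 0 := Finset.sum_eq_zero fun i _ => Nat.le_zero.1 (hm i)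
    rw [h1, pow_zero]
    exact one_dvd _
  | succ N ih =>
    intro m hm hI B hG hR J
    set T : E[X] := X - C y0 with hT
    have hT0 : T ≠ 0 := X_sub_C_ne_zero y0
    set I : Finset (Fin q) := Finset.univ.filter fun i => m i ≠ 0 with hIdef
    have hII0 : I ⊆ I0 := fun i hi => hI i (Finset.mem_filter.1 hi).2
    obtain ⟨U, ε, B', hU, hε1, hε, hB'⟩ := step B y0
    have hW := hdim I hII0 (Submodule.span E (Set.range fun c : Fin p =>
        fun l => (B l c).eval y0)) (by
      intro v hv
      induction hv using Submodule.span_induction with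
      | mem v hv =>
        obtain ⟨c, rfl⟩ := hv
        constructor
        · intro s
          have h1 := congrArg (Polynomial.eval y0) (hG s c)
          rw [Polynomial.eval_finsetSum, Polynomial.eval_zero] at h1
          rw [← h1]
          exact Finset.sum_congr rfl fun l _ => (Polynomial.eval_mul).symm
        · intro i hi
          obtain ⟨w, hw⟩ := hR i c
          have h1 := congrArg (Polynomial.eval y0) hw
          rw [Polynomial.eval_finsetSum, Polynomial.eval_mul, Polynomial.eval_pow, hT,
            Polynomial.eval_sub, Polynomial.eval_X, Polynomial.eval_C, sub_self,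
            zero_pow (Finset.mem_filter.1 hi).2, zero_mul] at h1
          rw [← h1]
          exact Finset.sum_congr rfl fun l _ => (Polynomial.eval_mul).symm
      | zero => simp
      | add v w _ _ hv hw =>
        refine ⟨fun s => ?_, fun i hi => ?_⟩
        · simp only [Pi.add_apply, mul_add, Finset.sum_add_distrib, hv.1 s, hw.1 s, add_zero]
        · simp only [Pi.add_apply, mul_add, Finset.sum_add_distrib, hv.2 i hi, hw.2 i hi,
            add_zero]
      | smul a v _ hv =>
        refine ⟨fun s => ?_, fun i hi => ?_⟩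
        · have h1 : ∀ l, (Gr s l).eval y0 * (a • v) l = a * ((Gr s l).eval y0 * v l) := by
            intro l
            rw [Pi.smul_apply, smul_eq_mul]
            ring
          rw [Finset.sum_congr rfl fun l _ => h1 l, ← Finset.mul_sum, hv.1 s, mul_zero]
        · have h1 : ∀ l, (R i l).eval y0 * (a • v) l = a * ((R i l).eval y0 * v l) := by
            intro l
            rw [Pi.smul_apply, smul_eq_mul]
            ring
          rw [Finset.sum_congr rfl fun l _ => h1 l, ← Finset.mul_sum, hv.2 i hi, mul_zero])
    have hcard : I.card ≤ ∑ c, ε c := by omega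
    -- the new data
    set m' : Fin q → ℕ := fun i => m i - 1 with hm'
    have hsum : ∑ i, m i = ∑ i, m' i + I.card := by
      rw [Finset.card_eq_sum_ones, hIdef, Finset.sum_filter, ← Finset.sum_add_distrib]
      refine Finset.sum_congr rfl fun i _ => ?_
      rw [hm']
      simp only
      split_ifs with h
      · omega
      · push Not at h
        omega
    have hcomb : ∀ (r : Fin M → E[X]) (c : Fin p),
        T ^ ε c * ∑ l, r l * B' l c = ∑ c', C (U c' c) * ∑ l, r l * B l c' := by
      intro r c
      rw [Finset.mul_sum]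
      have h1 : ∀ l, T ^ ε c * (r l * B' l c) = ∑ c', C (U c' c) * (r l * B l c') := by
        intro l
        have h2 := hB' l c
        calc T ^ ε c * (r l * B' l c) = r l * (T ^ ε c * B' l c) := by ring
          _ = r l * ∑ c', B l c' * C (U c' c) := by rw [h2]
          _ = ∑ c', C (U c' c) * (r l * B l c') := by
            rw [Finset.mul_sum]
            exact Finset.sum_congr rfl fun c' _ => by ring
      rw [Finset.sum_congr rfl fun l _ => h1 l, Finset.sum_comm]
      refine Finset.sum_congr rfl fun c' _ => ?_
      rw [Finset.mul_sum]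
    have hG' : ∀ s c, ∑ l, Gr s l * B' l c = 0 := by
      intro s c
      have h1 := hcomb (Gr s) c
      have h2 : ∑ c', C (U c' c) * ∑ l, Gr s l * B l c' = 0 :=
        Finset.sum_eq_zero fun c' _ => by rw [hG, mul_zero]
      rw [h2] at h1
      exact (mul_eq_zero.1 h1).resolve_left (pow_ne_zero _ hT0)
    have hR' : ∀ i c, T ^ m' i ∣ ∑ l, R i l * B' l c := by
      intro i c
      have h1 := hcomb (R i) c
      have h2 : T ^ m i ∣ T ^ ε c * ∑ l, R i l * B' l c := by
        rw [h1]
        exact Finset.dvd_sum fun c' _ => Dvd.dvd.mul_left (hR i c') _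
      by_cases h0 : m i = 0
      · have h3 : m' i = 0 := by
          rw [hm']
          simp only
          omega
        rw [h3, pow_zero]
        exact one_dvd _
      · have h3 : T ^ ε c * T ^ m' i ∣ T ^ m i := by
          rw [← pow_add]
          refine pow_dvd_pow _ ?_
          have := hε1 c
          rw [hm']
          simp only
          omega
        exact (mul_dvd_mul_iff_left (pow_ne_zero _ hT0)).1 (h3.trans h2)
    have hrec := ih m' (fun i => by have := hm i; rw [hm']; simp only; omega) (fun i hi => by
      refine hI i ?_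
      intro h
      apply hi
      rw [hm']
      simp only
      omega) B' hG' hR' J
    -- determinants
    have h1 : (Matrix.of fun x c => B (J x) c) * U.map C = Matrix.of fun x c =>
        T ^ ε c * (Matrix.of fun x c => B' (J x) c) x c := by
      ext1 x c
      rw [Matrix.mul_apply, Matrix.of_apply, Matrix.of_apply, ← hB']
      rfl
    have h2 := congrArg Matrix.det h1
    rw [Matrix.det_mul, Matrix.det_mul_row] at h2
    have h4 : (U.map (C : E →+* E[X])).det = C U.det := by
      have := RingHom.map_det (C : E →+* E[X]) U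
      rw [this]
      rfl
    have h5 : (U.map C).det = (U.map (C : E →+* E[X])).det := rfl
    rw [h5, h4, Finset.prod_pow_eq_pow_sum] at h2
    have h6 : (Matrix.of fun x c => B (J x) c).det =
        (Matrix.of fun x c => B (J x) c).det * C U.det * C (U.det)⁻¹ := by
      rw [mul_assoc, ← C_mul, mul_inv_cancel₀ hU, C_1, mul_one]
    rw [h6, h2, hsum, add_comm, pow_add]
    exact Dvd.dvd.mul_right (mul_dvd_mul (pow_dvd_pow _ hcard) hrec) _

end Pool.Agent.H432.RC
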