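import Mathlib
import Pool.Agent.H432.RC.Dvd
import Pool.Graph.R_pool_sql_team_seeded_63374d34.N750.Core

/-!
The Gauss map along a generic rational curve with given contacts.
-/

set_option autoImplicit false
set_option linter.unusedSectionVars false

namespace Pool.Agent.H432.RC

open MvPolynomial Pool.Agent.N750

section defs

variable {k : Type} [Field k] {M g q w : ℕ}

/-- normal crossings of the zero sets of the systems `F i` -/
def NCD (G : Fin g → MvPolynomial (Fin M) k) (F : Fin q → Fin w → MvPolynomial (Fin M) k) : Prop :=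
  ∀ (Ω : Type) [Field Ω] [Algebra k Ω] (z : Fin M → Ω),
    z ≠ 0 → (∀ i, aeval z (G i) = 0) → ∃ J : Fin q → Fin w, ∀ c : Fin q → Ω,
    (∀ i, c i ≠ 0 → ∀ j, aeval z (F i j) = 0) →
    (∀ v ∈ TS G z, ∑ i, c i * ∑ l, aeval z (pderiv l (F i (J i))) * v l = 0) → c = 0

/-- polynomial solutions of the system of the Gauss map along the curve `φ` -/
def GC {R : Type} [Field R] [Algebra k R] {n' : ℕ} (G : Fin g → MvPolynomial (Fin M) k)
    (φ : Fin M → Polynomial R) (D : ℕ) (Γ : (Fin (n' + 2) → Fin M) → Polynomial R) : Prop :=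
  (∃ J, Γ J ≠ 0) ∧ (∀ J, (Γ J).natDegree ≤ D) ∧
    (∀ J (i j : Fin (n' + 2)), i ≠ j → Γ (J ∘ Equiv.swap i j) = -Γ J) ∧
    ∀ i (J : Fin (n' + 2) → Fin M),
      ∑ l, aeval φ (pderiv l (G i)) * Γ (Function.update J 0 l) = 0

end defs

/-- the rank at a point of normal crossings -/
theorem rank_nc {Ω : Type} [Field Ω] {M n q : ℕ} (TSz : Submodule Ω (Fin M → Ω))
    (hdim : Module.finrank Ω TSz = n + 1) (r : Fin q → Fin M → Ω) (I0 : Finset (Fin q))
    (hind : ∀ c : Fin q → Ω, (∀ i, c i ≠ 0 → i ∈ I0) →
      (∀ v ∈ TSz, ∑ i, c i * ∑ l, r i l * v l = 0) → c = 0)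
    (I : Finset (Fin q)) (hI : I ⊆ I0) (W : Submodule Ω (Fin M → Ω))
    (hW : ∀ v ∈ W, v ∈ TSz ∧ ∀ i ∈ I, ∑ l, r i l * v l = 0) :
    Module.finrank Ω W + I.card ≤ n + 1 := by
  classical
  let f : TSz →ₗ[Ω] (I → Ω) :=
    { toFun := fun v s => ∑ l, r s.1 l * v.1 l
      map_add' := fun v w => by
        funext s
        show ∑ l, r s.1 l * (v.1 + w.1) l = ∑ l, r s.1 l * v.1 l + ∑ l, r s.1 l * w.1 l
        rw [← Finset.sum_add_distrib]
        exact Finset.sum_congr rfl fun l _ => by rw [Pi.add_apply, mul_add]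
      map_smul' := fun c v => by
        funext s
        show ∑ l, r s.1 l * (c • v.1) l = c * ∑ l, r s.1 l * v.1 l
        rw [Finset.mul_sum]
        exact Finset.sum_congr rfl fun l _ => by rw [Pi.smul_apply, smul_eq_mul]; ring }
  have hsurj : LinearMap.range f = ⊤ := by
    by_contra hne
    obtain ⟨φ, hφ0, hφ⟩ := Submodule.exists_le_ker_of_lt_top _ (lt_top_iff_ne_top.2 hne)
    apply hφ0
    have h1 := hind (fun s => if hs : s ∈ I then φ (Pi.single ⟨s, hs⟩ 1) else 0) (by
      intro s hs
      apply hI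
      by_contra h
      rw [dif_neg h] at hs
      exact hs rfl) (by
      intro v hv
      have h2 : φ (f ⟨v, hv⟩) = 0 := hφ ⟨_, rfl⟩
      rw [LinearMap.pi_apply_eq_sum_univ φ] at h2
      rw [← Finset.sum_subset (Finset.subset_univ I) (fun s _ hs => by
        rw [dif_neg hs, zero_mul]), ← Finset.sum_coe_sort, ← h2]
      refine Finset.sum_congr rfl fun s _ => ?_
      rw [dif_pos s.2, smul_eq_mul, mul_comm]
      congr 2
      funext s'
      rw [Pi.single_apply]
      by_cases h : s = s'
      · rw [if_pos h, if_pos h.symm]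
      · rw [if_neg h, if_neg fun h' => h h'.symm])
    refine LinearMap.pi_ext' fun s => LinearMap.ext_ring ?_
    have h3 := congrFun h1 s.1
    rw [dif_pos s.2] at h3
    exact h3
  have h2 := LinearMap.finrank_range_add_finrank_ker f
  rw [hsurj, finrank_top, Module.finrank_pi, Fintype.card_coe, hdim] at h2
  have h3 : Module.finrank Ω W ≤ Module.finrank Ω (LinearMap.ker f) := by
    let ι : W →ₗ[Ω] LinearMap.ker f :=
      LinearMap.codRestrict _ (LinearMap.codRestrict TSz W.subtype fun v => (hW v.1 v.2).1)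
        (fun v => by
          rw [LinearMap.mem_ker]
          funext s
          exact (hW v.1 v.2).2 s.1 s.2)
    refine LinearMap.finrank_le_finrank_of_injective (f := ι) fun v w h => ?_
    have h4 := congrArg (fun x => x.1.1) h
    exact Subtype.ext h4
  omega

/-- the coefficientwise derivation -/
noncomputable def cw {k E : Type} [Field k] [Field E] [Algebra k E] (D : Derivation k E E) :
    Derivation k (Polynomial E) (Polynomial E) :=
  (PolynomialModule.equivPolynomialSelf (R := E)).toLinearMap.compDer D.mapCoeffs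

theorem cw_coeff {k E : Type} [Field k] [Field E] [Algebra k E] (D : Derivation k E E)
    (p : Polynomial E) (m : ℕ) : (cw D p).coeff m = D (p.coeff m) := rfl

theorem cw_X {k E : Type} [Field k] [Field E] [Algebra k E] (D : Derivation k E E) :
    cw D (Polynomial.X : Polynomial E) = 0 := by
  ext m
  rw [cw_coeff, Polynomial.coeff_X, Polynomial.coeff_zero]
  split_ifs
  · exact D.map_one_eq_zero
  · exact map_zero D

theorem cw_C {k E : Type} [Field k] [Field E] [Algebra k E] (D : Derivation k E E) (a : E) :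
    cw D (Polynomial.C a) = Polynomial.C (D a) := by
  ext m
  rw [cw_coeff, Polynomial.coeff_C, Polynomial.coeff_C]
  split_ifs
  · rfl
  · exact map_zero D

theorem cw_deg {k E : Type} [Field k] [Field E] [Algebra k E] (D : Derivation k E E)
    (p : Polynomial E) {d : ℕ} (hp : p.natDegree ≤ d) : (cw D p).natDegree ≤ d := by
  rw [Polynomial.natDegree_le_iff_coeff_eq_zero] at hp ⊢
  intro N hN
  rw [cw_coeff, hp N hN, map_zero]

theorem cw_eval {k E : Type} [Field k] [Field E] [Algebra k E] (D : Derivation k E E)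
    (p : Polynomial E) (y : E) :
    D (p.eval y) = (cw D p).eval y + (Polynomial.derivative p).eval y * D y := by
  induction p using Polynomial.induction_on' with
  | add p q hp hq =>
    simp only [Polynomial.eval_add, map_add, hp, hq]
    ring
  | monomial m a =>
    have h1 : cw D (Polynomial.monomial m a) = Polynomial.monomial m (D a) := by
      ext r
      rw [cw_coeff, Polynomial.coeff_monomial, Polynomial.coeff_monomial]
      split_ifs
      · rfl
      · exact map_zero D
    rw [h1, Polynomial.eval_monomial, Polynomial.eval_monomial, Polynomial.derivative_monomial,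
      Polynomial.eval_monomial, Derivation.leibniz, Derivation.leibniz_pow]
    simp only [smul_eq_mul, nsmul_eq_mul]
    ring

/-- Euler's formula over a ring -/
theorem euler_ring {k R : Type} [Field k] [CommRing R] [Algebra k R] {M : ℕ}
    {P : MvPolynomial (Fin M) k} {e : ℕ} (hP : P.IsHomogeneous e) (z : Fin M → R) :
    ∑ j, aeval z (pderiv j P) * z j = e * aeval z P := by
  have h1 := hP.sum_X_mul_pderiv
  have h2 := congrArg (aeval z) h1
  rw [map_sum] at h2
  rw [nsmul_eq_mul, map_mul, map_natCast] at h2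
  rw [← h2]
  refine Finset.sum_congr rfl fun j _ => ?_
  rw [map_mul, aeval_X, mul_comm]

/-- derivations which preserve the powers of `T` -/
theorem der_pow_dvd {k R : Type} [Field k] [CommRing R] [Algebra k R] (D : Derivation k R R)
    (T : R) (hT : T ∣ D T) (m : ℕ) (p : R) (hp : T ^ m ∣ p) : T ^ m ∣ D p := by
  obtain ⟨r, rfl⟩ := hp
  rw [Derivation.leibniz, Derivation.leibniz_pow, smul_eq_mul, smul_eq_mul]
  refine dvd_add (dvd_mul_right _ _) ?_
  refine Dvd.dvd.mul_left ?_ _
  rcases m with _ | m
  · rw [pow_zero]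
    exact one_dvd _
  · obtain ⟨s, hs⟩ := hT
    rw [hs, Nat.add_sub_cancel, nsmul_eq_mul, smul_eq_mul]
    exact ⟨((m + 1 : ℕ) : R) * s, by ring⟩

theorem aeval_eval {k R : Type} [Field k] [CommRing R] [Algebra k R] {M : ℕ}
    (φ : Fin M → Polynomial R) (z : R) (P : MvPolynomial (Fin M) k) :
    (aeval φ P).eval z = aeval (fun l => (φ l).eval z) P := by
  have h1 := MvPolynomial.comp_aeval_apply φ
    ((Polynomial.aeval z : Polynomial R →ₐ[R] R).restrictScalars k) P
  have h2 : (fun l => ((Polynomial.aeval z : Polynomial R →ₐ[R] R).restrictScalars k) (φ l)) =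
      fun l => (φ l).eval z := by
    funext l
    show Polynomial.aeval z (φ l) = _
    rw [Polynomial.coe_aeval_eq_eval]
  rw [h2] at h1
  rw [← h1]
  show _ = Polynomial.aeval z (aeval φ P)
  rw [Polynomial.coe_aeval_eq_eval]

/-- homogeneity -/
theorem aeval_hom {k R : Type} [Field k] [CommRing R] [Algebra k R] {M : ℕ}
    {P : MvPolynomial (Fin M) k} {e : ℕ} (hP : P.IsHomogeneous e) (μ : R) (z : Fin M → R) :
    aeval (fun l => μ * z l) P = μ ^ e * aeval z P := by
  rw [aeval_def, aeval_def, eval₂_eq, eval₂_eq, Finset.mul_sum]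
  refine Finset.sum_congr rfl fun m hm => ?_
  simp only [mul_pow]
  rw [Finset.prod_mul_distrib, Finset.prod_pow_eq_pow_sum]
  have hdeg : ∑ i ∈ m.support, m i = e := by
    have h2 := hP (MvPolynomial.mem_support_iff.1 hm)
    rw [Finsupp.weight_apply, Finsupp.sum] at h2
    simpa using h2
  rw [hdeg]
  ring

end Pool.Agent.H432.RC
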