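import Mathlib
import Pool.Agent.H432.RC.Core

/-!
The Gauss map along a generic rational curve with given contacts: the main computation.
-/

set_option autoImplicit false
set_option linter.unusedSectionVars false

namespace Pool.Agent.H432.RC

open MvPolynomial Pool.Agent.N750

/-- the matrix of the columns -/
noncomputable def Bm {k E : Type} [Field k] [Field E] [Algebra k E] {M n' : ℕ}
    (φ : Fin M → Polynomial E) (D : Fin n' → Derivation k E E) :
    Fin M → Fin (n' + 2) → Polynomial E :=
  fun l => Fin.cons (φ l) (Fin.cons (Polynomial.derivative (φ l)) (fun i => cw (D i) (φ l)))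

/-- the degree of the minors -/
theorem Bm_deg {k E : Type} [Field k] [Field E] [CharZero E] [Algebra k E] {M n' d : ℕ}
    (φ : Fin M → Polynomial E) (D : Fin n' → Derivation k E E) (hd0 : 1 ≤ d)
    (hd : ∀ l, (φ l).natDegree ≤ d) (J : Fin (n' + 2) → Fin M) :
    (Matrix.of fun x c => Bm φ D (J x) c).det.natDegree ≤ (n' + 2) * d - 2 := by
  classical
  -- the modified matrix
  set B2 : Matrix (Fin (n' + 2)) (Fin (n' + 2)) (Polynomial E) := Matrix.of fun x c =>
    (Fin.cons ((d : Polynomial E) * φ (J x) - Polynomial.X * Polynomial.derivative (φ (J x)))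
      (Fin.cons (Polynomial.derivative (φ (J x))) (fun i => cw (D i) (φ (J x)))) :
      Fin (n' + 2) → Polynomial E) c with hB2
  have hdet : B2.det = (d : Polynomial E) * (Matrix.of fun x c => Bm φ D (J x) c).det := by
    have h1 : B2 = Matrix.updateCol (Matrix.of fun x c => Bm φ D (J x) c) 0
        ((d : Polynomial E) • (fun x => Bm φ D (J x) 0) + (-Polynomial.X : Polynomial E) •
          (fun x => Bm φ D (J x) 1)) := by
      ext1 x c
      refine Fin.cases ?_ (fun c => ?_) c
      · rw [Matrix.updateCol_self]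
        show (d : Polynomial E) * φ (J x) - Polynomial.X * Polynomial.derivative (φ (J x)) =
          (d : Polynomial E) * φ (J x) + (-Polynomial.X) * Polynomial.derivative (φ (J x))
        ring
      · rw [Matrix.updateCol_ne (Fin.succ_ne_zero c)]
        rfl
    rw [h1, Matrix.det_updateCol_add, Matrix.det_updateCol_smul, Matrix.det_updateCol_smul]
    have h2 : (Matrix.updateCol (Matrix.of fun x c => Bm φ D (J x) c) 0
        (fun x => Bm φ D (J x) 0)) = Matrix.of fun x c => Bm φ D (J x) c := by
      ext1 x c
      refine Fin.cases ?_ (fun c => ?_) c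
      · rw [Matrix.updateCol_self]
        rfl
      · rw [Matrix.updateCol_ne (Fin.succ_ne_zero c)]
    have h3 : (Matrix.updateCol (Matrix.of fun x c => Bm φ D (J x) c) 0
        (fun x => Bm φ D (J x) 1)).det = 0 := by
      refine Matrix.det_zero_of_column_eq (i := 0) (j := 1) ?_ fun x => ?_
      · exact Fin.zero_ne_one
      · rw [Matrix.updateCol_self, Matrix.updateCol_ne (Fin.zero_ne_one).symm]
        rfl
    rw [h2, h3, mul_zero, add_zero]
  have hdE : (d : Polynomial E) = Polynomial.C (d : E) := by simp
  have hd1 : (d : E) ≠ 0 := by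
    have : d ≠ 0 := by omega
    exact_mod_cast this
  have hdeg : B2.det.natDegree = (Matrix.of fun x c => Bm φ D (J x) c).det.natDegree := by
    rw [hdet, hdE, Polynomial.natDegree_C_mul hd1]
  rw [← hdeg, Matrix.det_apply]
  refine Polynomial.natDegree_sum_le_of_forall_le _ _ fun σ _ => ?_
  refine (Polynomial.natDegree_smul_le _ _).trans ?_
  refine (Polynomial.natDegree_prod_le _ _).trans ?_
  rw [Fin.sum_univ_succ, Fin.sum_univ_succ]
  have hder : ∀ l, (Polynomial.derivative (φ l)).natDegree ≤ d - 1 := fun l =>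
    (Polynomial.natDegree_derivative_le _).trans (Nat.sub_le_sub_right (hd l) 1)
  have h0 : (B2 (σ 0) 0).natDegree ≤ d - 1 := by
    show ((d : Polynomial E) * φ (J (σ 0)) -
      Polynomial.X * Polynomial.derivative (φ (J (σ 0)))).natDegree ≤ d - 1
    rw [Polynomial.natDegree_le_iff_coeff_eq_zero]
    intro N hN
    obtain ⟨N', rfl⟩ : ∃ N', N = N' + 1 := ⟨N - 1, by omega⟩
    rw [Polynomial.coeff_sub, hdE, Polynomial.coeff_C_mul, Polynomial.coeff_X_mul,
      Polynomial.coeff_derivative]
    by_cases h : N' + 1 = d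
    · rw [← h]
      push_cast
      ring
    · have h2 : (φ (J (σ 0))).coeff (N' + 1) = 0 :=
        Polynomial.coeff_eq_zero_of_natDegree_lt (lt_of_le_of_lt (hd _) (by omega))
      rw [h2]
      ring
  have h1 : (B2 (σ (Fin.succ 0)) (Fin.succ 0)).natDegree ≤ d - 1 := hder _
  have h2 : ∑ i : Fin n', (B2 (σ i.succ.succ) i.succ.succ).natDegree ≤ n' * d := by
    calc ∑ i : Fin n', (B2 (σ i.succ.succ) i.succ.succ).natDegree ≤ ∑ _i : Fin n', d := by
          refine Finset.sum_le_sum fun i _ => ?_
          exact cw_deg (D i) _ (hd _)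
      _ = n' * d := by simp
  have h3 : (n' + 2) * d = n' * d + 2 * d := by ring
  omega

/-- **the Gauss map along a generic rational curve with given contacts** -/
theorem core {k E : Type} [Field k] [Field E] [CharZero E] [Algebra k E] {M g q w n' ν d : ℕ}
    (G : Fin g → MvPolynomial (Fin M) k) (e : Fin g → ℕ) (hG : ∀ i, (G i).IsHomogeneous (e i))
    (hsm : Sm (n' + 1) G) (F : Fin q → Fin w → MvPolynomial (Fin M) k) (δ : Fin q → ℕ)
    (hF : ∀ i j, (F i j).IsHomogeneous (δ i)) (hnc : NCD G F)
    (φ : Fin M → Polynomial E) (hd0 : 1 ≤ d) (hd : ∀ l, (φ l).natDegree ≤ d) (y μ : E) (hμ : μ ≠ 0)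
    (hgen : ∀ P : MvPolynomial (Fin M) k, aeval (fun l => μ * (φ l).eval y) P = 0 →
      P ∈ Ideal.span (Set.range G))
    (hX : ∀ i, aeval φ (G i) = 0)
    (hind : LinearIndependent E ![fun l => (φ l).eval y,
      fun l => (Polynomial.derivative (φ l)).eval y])
    (β : Fin ν → E) (hβ : Function.Injective β) (hz : ∀ a, ∃ l, (φ l).eval (β a) ≠ 0)
    (m : Fin ν → Fin q → ℕ)
    (hm : ∀ a i j, (Polynomial.X - Polynomial.C (β a)) ^ (m a i) ∣ aeval φ (F i j)) :
    2 + ∑ a, (∑ i, m a i - 1) ≤ (n' + 2) * d ∧ ∃ Γ : (Fin (n' + 2) → Fin M) → Polynomial E,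
      GC G φ ((n' + 2) * d - 2 - ∑ a, (∑ i, m a i - 1)) Γ := by
  classical
  set a0 : Fin M → E := fun l => (φ l).eval y with ha0
  set b0 : Fin M → E := fun l => (Polynomial.derivative (φ l)).eval y with hb0
  have hXz : ∀ (z : E) i, aeval (fun l => (φ l).eval z) (G i) = 0 := by
    intro z i
    rw [← aeval_eval, hX, Polynomial.eval_zero]
  have ha00 : a0 ≠ 0 := hind.ne_zero 0
  -- the generic point
  set ξ : Fin M → E := fun l => μ * a0 l with hξ
  have hξ0 : ξ ≠ 0 := by
    intro h
    apply ha00
    funext l
    have := congrFun h l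
    exact (mul_eq_zero.1 this).resolve_left hμ
  have hξX : ∀ i, aeval ξ (G i) = 0 := by
    intro i
    rw [hξ, aeval_hom (hG i), hXz, mul_zero]
  have hTdim : Module.finrank E (TS G ξ) = n' + 2 := hsm E ξ hξ0 hξX
  let bas := (Module.finBasis E (TS G ξ)).reindex (finCongr hTdim)
  have hder : ∀ c : Fin (n' + 2), ∃ D : Derivation k E E, ∀ j, D (ξ j) = (bas c).1 j := by
    intro c
    refine exists_derivation ξ _ fun P hP => ?_
    exact (ideal_TS hξX (bas c).2 (hgen P hP)).2
  choose D hD using hder
  set u : Fin (n' + 2) → Fin M → E := fun c l => (cw (D c) (φ l)).eval y with hu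
  have hspan : TS G ξ ≤ Submodule.span E ({a0, b0} ∪ Set.range u : Set (Fin M → E)) := by
    have h1 : ∀ c, (bas c).1 ∈ Submodule.span E ({a0, b0} ∪ Set.range u : Set (Fin M → E)) := by
      intro c
      have h2 : (bas c).1 = (D c μ) • a0 + (μ * D c y) • b0 + μ • u c := by
        funext l
        rw [← hD c l]
        simp only [hξ, ha0, hb0, Derivation.leibniz, smul_eq_mul, Pi.add_apply, Pi.smul_apply, hu]
        rw [cw_eval]
        ring
      rw [h2]
      refine Submodule.add_mem _ (Submodule.add_mem _ ?_ ?_) ?_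
      · exact Submodule.smul_mem _ _ (Submodule.subset_span (Or.inl (Or.inl rfl)))
      · exact Submodule.smul_mem _ _ (Submodule.subset_span (Or.inl (Or.inr rfl)))
      · exact Submodule.smul_mem _ _ (Submodule.subset_span (Or.inr ⟨c, rfl⟩))
    intro v hv
    have h3 := bas.sum_repr ⟨v, hv⟩
    have h4 := congrArg Subtype.val h3
    rw [show v = _ from h4.symm, AddSubmonoidClass.coe_finsetSum]
    exact Submodule.sum_mem _ fun c _ => Submodule.smul_mem _ _ (h1 c)
  obtain ⟨κ, hκ⟩ := ext_pair a0 b0 hind u n' (hTdim.ge.trans (Submodule.finrank_mono hspan))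
  set B := Bm φ (fun i => D (κ i)) with hB
  set Om : (Fin (n' + 2) → Fin M) → Polynomial E := fun J =>
    (Matrix.of fun x c => B (J x) c).det with hOm
  have hOm0 : ∃ J, Om J ≠ 0 := by
    obtain ⟨J, hJ⟩ := exists_minor (fun l => (Fin.cons (a0 l) (Fin.cons (b0 l)
      (fun i => u (κ i) l)) : Fin (n' + 2) → E)) (by
        have h9 : (fun c : Fin (n' + 2) => fun l => (Fin.cons (a0 l) (Fin.cons (b0 l)
            (fun i => u (κ i) l)) : Fin (n' + 2) → E) c) =
            Fin.cons a0 (Fin.cons b0 (fun i => u (κ i))) := by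
          funext c l
          refine Fin.cases ?_ (fun c => ?_) c
          · rfl
          · refine Fin.cases ?_ (fun c => ?_) c
            · rfl
            · rfl
        rw [h9]
        exact hκ)
    refine ⟨J, fun h0 => hJ ?_⟩
    have h1 := congrArg (Polynomial.eval y) h0
    rw [Polynomial.eval_zero] at h1
    have h2 := RingHom.map_det (Polynomial.evalRingHom y) (Matrix.of fun x c => B (J x) c)
    rw [show (Polynomial.evalRingHom y) (Matrix.of fun x c => B (J x) c).det =
      Polynomial.eval y (Om J) from rfl, h1] at h2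
    rw [h2]
    congr 1
    ext x c
    refine Fin.cases ?_ (fun c => ?_) c
    · rfl
    · refine Fin.cases ?_ (fun c => ?_) c
      · rfl
      · rfl
  -- the contraction equations of the columns
  let dT : Derivation k (Polynomial E) (Polynomial E) :=
    (Polynomial.derivative' : Derivation E (Polynomial E) (Polynomial E)).restrictScalars k
  have hdT : ∀ p : Polynomial E, dT p = Polynomial.derivative p := fun p => rfl
  have hcol : ∀ (i : Fin g) (c : Fin (n' + 2)),
      ∑ l, aeval φ (pderiv l (G i)) * B l c = 0 := by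
    intro i c
    refine Fin.cases ?_ (fun c => ?_) c
    · show ∑ l, aeval φ (pderiv l (G i)) * φ l = 0
      rw [euler_ring (hG i), hX, mul_zero]
    · refine Fin.cases ?_ (fun c => ?_) c
      · show ∑ l, aeval φ (pderiv l (G i)) * Polynomial.derivative (φ l) = 0
        have h3 := der_aeval dT φ (G i)
        rw [hX, map_zero] at h3
        exact h3.symm
      · show ∑ l, aeval φ (pderiv l (G i)) * cw (D (κ c)) (φ l) = 0
        have h3 := der_aeval (cw (D (κ c))) φ (G i)
        rw [hX, map_zero] at h3
        exact h3.symm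
  -- the orders of vanishing
  have hdvd : ∀ J a, (Polynomial.X - Polynomial.C (β a)) ^ (∑ i, m a i - 1) ∣ Om J := by
    intro J a
    set T : Polynomial E := Polynomial.X - Polynomial.C (β a) with hT
    have hT0 : T ≠ 0 := Polynomial.X_sub_C_ne_zero _
    set z : Fin M → E := fun l => (φ l).eval (β a) with hzdef
    have hz0 : z ≠ 0 := by
      obtain ⟨l, hl⟩ := hz a
      exact fun h => hl (congrFun h l)
    obtain ⟨Jn, hJn⟩ := hnc E z hz0 (hXz (β a))
    set I0 : Finset (Fin q) := Finset.univ.filter fun i => ∀ j, aeval z (F i j) = 0 with hI0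
    -- the derivations which preserve `T`
    let 𝔇 : Fin n' → Derivation k (Polynomial E) (Polynomial E) := fun i =>
      cw (D (κ i)) + (Polynomial.C (D (κ i) (β a))) • dT
    have h𝔇 : ∀ i, T ∣ 𝔇 i T := by
      intro i
      have h1 : 𝔇 i T = 0 := by
        show cw (D (κ i)) T + (Polynomial.C (D (κ i) (β a))) • dT T = 0
        rw [hT, map_sub, cw_X, cw_C, hdT]
        simp
      rw [h1]
      exact dvd_zero _
    have h𝔇1 : T ∣ (T • dT) T := by
      show T ∣ T • dT T
      rw [smul_eq_mul]
      exact dvd_mul_right _ _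
    set B1 : Fin M → Fin (n' + 2) → Polynomial E := fun l => Fin.cons (φ l)
      (Fin.cons (T * Polynomial.derivative (φ l)) (fun i => 𝔇 i (φ l))) with hB1
    have hcol1 : ∀ (P : MvPolynomial (Fin M) k) (eP : ℕ), P.IsHomogeneous eP → ∀ r : ℕ,
        T ^ r ∣ aeval φ P → ∀ c, T ^ r ∣ ∑ l, aeval φ (pderiv l P) * B1 l c := by
      intro P eP hP r hr c
      refine Fin.cases ?_ (fun c => ?_) c
      · show T ^ r ∣ ∑ l, aeval φ (pderiv l P) * φ l
        rw [euler_ring hP]
        exact Dvd.dvd.mul_left hr _
      · refine Fin.cases ?_ (fun c => ?_) c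
        · have h3 := der_aeval (T • dT) φ P
          have h4 := der_pow_dvd (T • dT) T h𝔇1 r _ hr
          rw [h3] at h4
          exact h4
        · have h3 := der_aeval (𝔇 c) φ P
          have h4 := der_pow_dvd (𝔇 c) T (h𝔇 c) r _ hr
          rw [h3] at h4
          exact h4
    have hcolG : ∀ (i : Fin g) (c : Fin (n' + 2)),
        ∑ l, aeval φ (pderiv l (G i)) * B1 l c = 0 := by
      intro i c
      refine Fin.cases ?_ (fun c => ?_) c
      · exact hcol i 0
      · refine Fin.cases ?_ (fun c => ?_) c
        · have h3 := der_aeval (T • dT) φ (G i)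
          rw [hX, map_zero] at h3
          exact h3.symm
        · have h3 := der_aeval (𝔇 c) φ (G i)
          rw [hX, map_zero] at h3
          exact h3.symm
    have hTS : ∀ v : Fin M → E, v ∈ TS G z ↔
        ∀ s, ∑ l, (aeval φ (pderiv l (G s))).eval (β a) * v l = 0 := by
      intro v
      rw [mem_TS]
      refine forall_congr' fun s => ?_
      simp only [aeval_eval]
      exact Iff.rfl
    have hmain := dvn (p := n' + 2) (fun (s : Fin g) l => aeval φ (pderiv l (G s)))
      (fun (i : Fin q) l => aeval φ (pderiv l (F i (Jn i)))) (β a) I0 (by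
        intro I hI W hW
        have h1 := rank_nc (n := n' + 1) (TS G z) (hsm E z hz0 (hXz _))
          (fun i l => (aeval φ (pderiv l (F i (Jn i)))).eval (β a)) I0 (by
            intro c hc hc2
            refine hJn c (fun i hi => (Finset.mem_filter.1 (hc i hi)).2) fun v hv => ?_
            rw [← hc2 v hv]
            refine Finset.sum_congr rfl fun i _ => ?_
            congr 1
            exact Finset.sum_congr rfl fun l _ => by rw [aeval_eval]) I hI W (by
            intro v hv
            refine ⟨(hTS v).2 (hW v hv).1, (hW v hv).2⟩)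
        exact h1) (∑ i, m a i) (m a) (fun i => Finset.single_le_sum
          (f := fun i => m a i) (fun _ _ => Nat.zero_le _) (Finset.mem_univ i)) (by
        intro i hi
        rw [hI0, Finset.mem_filter]
        refine ⟨Finset.mem_univ _, fun j => ?_⟩
        obtain ⟨r, hr⟩ := hm a i j
        have h1 := congrArg (Polynomial.eval (β a)) hr
        rw [aeval_eval, Polynomial.eval_mul, Polynomial.eval_pow, Polynomial.eval_sub,
          Polynomial.eval_X, Polynomial.eval_C, sub_self, zero_pow hi, zero_mul] at h1
        exact h1) B1 hcolG (fun i c => hcol1 _ _ (hF i (Jn i)) _ (hm a i (Jn i)) c) J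
    -- comparison of the determinants
    have hcomp : (Matrix.of fun x c => B1 (J x) c).det = T * Om J := by
      -- the intermediate matrix
      set B3 : Matrix (Fin (n' + 2)) (Fin (n' + 2)) (Polynomial E) := Matrix.of fun x c =>
        (Fin.cons (φ (J x)) (Fin.cons (Polynomial.derivative (φ (J x)))
          (fun i => 𝔇 i (φ (J x)))) : Fin (n' + 2) → Polynomial E) c with hB3
      have e1 : (Matrix.of fun x c => B1 (J x) c).det = T * B3.det := by
        have e2 : (Matrix.of fun x c => B1 (J x) c) = Matrix.of fun x c =>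
            (if c = 1 then T else 1) * B3 x c := by
          ext1 x c
          refine Fin.cases ?_ (fun c => ?_) c
          · show φ (J x) = (if (0 : Fin (n' + 2)) = 1 then T else 1) * φ (J x)
            rw [if_neg Fin.zero_ne_one, one_mul]
          · refine Fin.cases ?_ (fun c => ?_) c
            · show T * Polynomial.derivative (φ (J x)) =
                (if (Fin.succ 0 : Fin (n' + 2)) = 1 then T else 1) *
                  Polynomial.derivative (φ (J x))
              rw [if_pos (by rfl)]
            · show 𝔇 c (φ (J x)) =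
                (if (c.succ.succ : Fin (n' + 2)) = 1 then T else 1) * 𝔇 c (φ (J x))
              rw [if_neg, one_mul]
              intro h
              have h1 := congrArg Fin.val h
              simp at h1
        rw [e2, Matrix.det_mul_row, Finset.prod_ite_eq' Finset.univ (1 : Fin (n' + 2))
          (fun _ => T), if_pos (Finset.mem_univ _)]
      have e3 : B3.det = Om J := by
        show B3.det = (Matrix.of fun x c => B (J x) c).det
        rw [← Matrix.det_transpose, ← Matrix.det_transpose (Matrix.of fun x c => B (J x) c)]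
        refine Matrix.det_eq_of_forall_row_eq_smul_add_const
          (Fin.cons 0 (Fin.cons 0 (fun i => Polynomial.C (D (κ i) (β a))))) 1 rfl ?_
        intro c x
        rw [Matrix.transpose_apply, Matrix.transpose_apply, Matrix.transpose_apply]
        refine Fin.cases ?_ (fun c => ?_) c
        · show φ (J x) = φ (J x) + 0 * Polynomial.derivative (φ (J x))
          rw [zero_mul, add_zero]
        · refine Fin.cases ?_ (fun c => ?_) c
          · show Polynomial.derivative (φ (J x)) = Polynomial.derivative (φ (J x)) +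
              0 * Polynomial.derivative (φ (J x))
            rw [zero_mul, add_zero]
          · rfl
      rw [e1, e3]
    rw [hcomp] at hmain
    rcases Nat.eq_zero_or_pos (∑ i, m a i) with h0 | h0
    · rw [h0, Nat.zero_sub, pow_zero]
      exact one_dvd _
    · obtain ⟨r, hr⟩ : ∃ r, ∑ i, m a i = r + 1 := ⟨∑ i, m a i - 1, by omega⟩
      rw [hr, pow_succ, mul_comm] at hmain
      rw [hr, Nat.add_sub_cancel]
      exact (mul_dvd_mul_iff_left hT0).1 hmain
  set Pi0 : Polynomial E := ∏ a, (Polynomial.X - Polynomial.C (β a)) ^ (∑ i, m a i - 1) with hPi0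
  have hPidvd : ∀ J, Pi0 ∣ Om J := by
    intro J
    refine Finset.prod_dvd_of_coprime ?_ fun a _ => hdvd J a
    intro a _ a' _ haa
    refine IsCoprime.pow ?_
    exact Polynomial.isCoprime_X_sub_C_of_isUnit_sub
      (Ne.isUnit (sub_ne_zero.2 fun h => haa (hβ h)))
  have hPimon : Pi0.Monic := Polynomial.monic_prod_of_monic _ _ fun c _ =>
    (Polynomial.monic_X_sub_C _).pow _
  have hPideg : Pi0.natDegree = ∑ a, (∑ i, m a i - 1) := by
    rw [hPi0, Polynomial.natDegree_prod_of_monic _ _ fun c _ =>
      (Polynomial.monic_X_sub_C _).pow _]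
    refine Finset.sum_congr rfl fun c _ => ?_
    rw [Polynomial.natDegree_pow, Polynomial.natDegree_X_sub_C, mul_one]
  choose Γ hΓ using hPidvd
  have hPi0' : Pi0 ≠ 0 := hPimon.ne_zero
  have hdeg : ∀ J, Γ J ≠ 0 → ∑ a, (∑ i, m a i - 1) + (Γ J).natDegree ≤ (n' + 2) * d - 2 := by
    intro J hJ
    have h1 := Bm_deg φ (fun i => D (κ i)) hd0 hd J
    have h2 : (Om J).natDegree = Pi0.natDegree + (Γ J).natDegree := by
      rw [hΓ J, Polynomial.natDegree_mul hPi0' hJ]
    rw [← hPideg, ← h2]
    exact h1
  obtain ⟨J0, hJ0⟩ := hOm0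
  have hΓ0 : Γ J0 ≠ 0 := by
    intro h
    apply hJ0
    rw [hΓ, h, mul_zero]
  have hdge : 2 ≤ (n' + 2) * d := by nlinarith
  refine ⟨by have := hdeg J0 hΓ0; omega, Γ, ⟨J0, hΓ0⟩, ?_, ?_, ?_⟩
  · intro J
    by_cases h : Γ J = 0
    · rw [h, Polynomial.natDegree_zero]
      exact Nat.zero_le _
    · have := hdeg J h
      omega
  · intro J i j hij
    have h1 : Om (J ∘ Equiv.swap i j) = -Om J := by
      have h2 := Matrix.det_permute (Equiv.swap i j) (Matrix.of fun x c => B (J x) c)
      rw [Equiv.Perm.sign_swap hij] at h2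
      have h3 : (Matrix.of fun x c => B (J x) c).submatrix (Equiv.swap i j) id =
          Matrix.of fun x c => B ((J ∘ Equiv.swap i j) x) c := rfl
      rw [h3] at h2
      show (Matrix.of fun x c => B ((J ∘ Equiv.swap i j) x) c).det = _
      rw [h2]
      simp [hOm]
    rw [hΓ, hΓ] at h1
    refine mul_left_cancel₀ hPi0' ?_
    rw [h1]
    ring
  · intro i J
    have h1 := det_row_zero B (fun l => aeval φ (pderiv l (G i))) (hcol i) J
    have h2 : ∀ l, (Matrix.of fun x c => B (Function.update J 0 l x) c).det =
        Pi0 * Γ (Function.update J 0 l) := fun l => hΓ _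
    simp only [h2] at h1
    have h3 : ∀ l, aeval φ (pderiv l (G i)) * (Pi0 * Γ (Function.update J 0 l)) =
        Pi0 * (aeval φ (pderiv l (G i)) * Γ (Function.update J 0 l)) := fun l => by ring
    rw [Finset.sum_congr rfl fun l _ => h3 l, ← Finset.mul_sum] at h1
    exact (mul_eq_zero.1 h1).resolve_left hPi0'

end Pool.Agent.H432.RC
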