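import Mathlib

/-!
Bezout identities for systems of polynomials without common zeros on the projective line.
-/

set_option autoImplicit false
set_option linter.unusedSectionVars false

namespace Pool.Agent.H432.RC

open Polynomial

theorem span_top_of_dvd {F : Type} [Field F] {w : ℕ} (P : Fin w → F[X])
    (h : ∀ p : F[X], (∀ j, p ∣ P j) → IsUnit p) : Ideal.span (Set.range P) = ⊤ := by
  obtain ⟨p, hp⟩ := (IsPrincipalIdealRing.principal (Ideal.span (Set.range P))).principal
  have h1 : ∀ j, p ∣ P j := by
    intro j
    have h2 : P j ∈ Ideal.span (Set.range P) := Ideal.subset_span ⟨j, rfl⟩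
    rw [hp] at h2
    exact Ideal.mem_span_singleton.1 h2
  rw [hp]
  exact Ideal.span_singleton_eq_top.2 (h p h1)

theorem exists_bezout {F : Type} [Field F] {w : ℕ} (P : Fin w → F[X])
    (h : Ideal.span (Set.range P) = ⊤) : ∃ a : Fin w → F[X], ∑ j, a j * P j = 1 := by
  have h1 : (1 : F[X]) ∈ Ideal.span (Set.range P) := by
    rw [h]
    exact Submodule.mem_top
  obtain ⟨a, ha⟩ := (Submodule.mem_span_range_iff_exists_fun F[X]).1 h1
  exact ⟨a, by simpa using ha⟩

/-- **Bezout identities** -/
theorem bez {F : Type} [Field F] {w : ℕ} (P : Fin w → F[X]) (D : ℕ)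
    (hD : ∀ j, (P j).natDegree ≤ D) (htop : Ideal.span (Set.range P) = ⊤)
    (hlead : ∃ j, (P j).coeff D ≠ 0) :
    ∃ (N : ℕ) (a b : Fin w → F[X]), D ≤ N ∧ (∀ j, (a j).natDegree ≤ N - D) ∧
      (∀ j, (b j).natDegree ≤ N - D) ∧ ∑ j, a j * P j = 1 ∧ ∑ j, b j * P j = X ^ N := by
  classical
  obtain ⟨a, ha⟩ := exists_bezout P htop
  obtain ⟨j0, hj0⟩ := hlead
  have hr0 : (reflect D (P j0)).coeff 0 ≠ 0 := by
    rw [coeff_reflect, revAt_le (Nat.zero_le _), Nat.sub_zero]
    exact hj0
  have htop2 : Ideal.span (Set.range fun j => reflect D (P j)) = ⊤ := by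
    refine span_top_of_dvd _ fun p hp => ?_
    have hp0 : p ≠ 0 := by
      rintro rfl
      have h1 : reflect D (P j0) = 0 := zero_dvd_iff.1 (hp j0)
      rw [h1] at hr0
      exact hr0 (coeff_zero _)
    choose r hr using hp
    have hpc : p.coeff 0 ≠ 0 := by
      intro h
      apply hr0
      rw [hr j0, mul_coeff_zero, h, zero_mul]
    have hpD : p.natDegree ≤ D := by
      have h1 : reflect D (P j0) ≠ 0 := fun h => hr0 (by rw [h, coeff_zero])
      have h2 : (reflect D (P j0)).natDegree ≤ D := by
        have := natDegree_reflect_le (N := D) (p := P j0)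
        have h3 := hD j0
        omega
      have h4 := natDegree_le_of_dvd (Dvd.intro _ (hr j0).symm) h1
      omega
    have hrdeg : ∀ j, (r j).natDegree ≤ D - p.natDegree := by
      intro j
      by_cases h0 : r j = 0
      · rw [h0, natDegree_zero]
        exact Nat.zero_le _
      · have h1 : (reflect D (P j)).natDegree ≤ D := by
          have := natDegree_reflect_le (N := D) (p := P j)
          have h3 := hD j
          omega
        have h2 := natDegree_mul hp0 h0
        rw [← hr j] at h2
        omega
    have hdvd : ∀ j, p.reverse ∣ P j := by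
      intro j
      have h1 : P j = reflect D (reflect D (P j)) := (reflect_reflect).symm
      rw [hr j] at h1
      have h2 : D = p.natDegree + (D - p.natDegree) := by omega
      rw [h2] at h1
      rw [reflect_mul p (r j) le_rfl (hrdeg j)] at h1
      rw [h1]
      exact dvd_mul_right _ _
    have hunit : IsUnit p.reverse := by
      have h1 : p.reverse ∣ 1 := by
        rw [← ha]
        exact Finset.dvd_sum fun j _ => Dvd.dvd.mul_left (hdvd j) _
      exact isUnit_of_dvd_one h1
    have h3 : p.reverse.natDegree = p.natDegree := by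
      rw [reverse_natDegree, natTrailingDegree_eq_zero.2 (Or.inr hpc), Nat.sub_zero]
    rw [natDegree_eq_zero_of_isUnit hunit] at h3
    exact isUnit_iff_degree_eq_zero.2 (by
      rw [degree_eq_natDegree hp0, ← h3]
      rfl)
  obtain ⟨b', hb'⟩ := exists_bezout _ htop2
  set N : ℕ := D + ∑ j, ((a j).natDegree + (b' j).natDegree) with hN
  have hle : ∀ j, (a j).natDegree + (b' j).natDegree ≤ N - D := by
    intro j
    have h1 := Finset.single_le_sum (f := fun j => (a j).natDegree + (b' j).natDegree)
      (fun _ _ => Nat.zero_le _) (Finset.mem_univ j)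
    have h2 : (a j).natDegree + (b' j).natDegree ≤
      ∑ j, ((a j).natDegree + (b' j).natDegree) := h1
    omega
  refine ⟨N, a, fun j => reflect (N - D) (b' j), by omega, fun j => ?_, fun j => ?_, ha, ?_⟩
  · have := hle j
    omega
  · have h1 := natDegree_reflect_le (N := N - D) (p := b' j)
    have h2 := hle j
    show (reflect (N - D) (b' j)).natDegree ≤ N - D
    omega
  · have h1 := congrArg (reflect N) hb'
    rw [reflect_one] at h1
    rw [← h1]
    have h2 : ∀ s : Finset (Fin w), reflect N (∑ j ∈ s, b' j * reflect D (P j)) =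
        ∑ j ∈ s, reflect (N - D) (b' j) * P j := by
      intro s
      induction s using Finset.induction_on with
      | empty => rw [Finset.sum_empty, Finset.sum_empty, reflect_zero]
      | insert j s hj ih =>
        rw [Finset.sum_insert hj, Finset.sum_insert hj, reflect_add, ih]
        congr 1
        have h3 : N = (N - D) + D := by omega
        conv_lhs => rw [h3]
        rw [reflect_mul (F := N - D) (G := D) _ _ (by have := hle j; omega) (by
          have := natDegree_reflect_le (N := D) (p := P j)
          have h4 := hD j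
          omega), reflect_reflect]
    exact (h2 Finset.univ).symm

end Pool.Agent.H432.RC
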