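import Mathlib
import Pool.Agent.H432.RC.Bez
import Pool.Graph.R_pool_sql_team_seeded_63374d34.N750.Wir
import Pool.Graph.R_pool_sql_team_seeded_63374d34.N750.Triv

/-!
Slow bounds: functions of the places which are bounded by the local norms of slow families.
-/

set_option autoImplicit false
set_option linter.unusedSectionVars false

open Filter Topology

namespace Pool.Agent.H432.RC

open NumberField IsDedekindDomain Height Module Pool.Agent.N750
open Pool.Agent.W180.OP (Pl av wt nrm le_nrm nrm_pos wt_nonneg exists_nrm nrm_nonneg)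

variable {K α : Type} [Field K] [NumberField K] {𝓕 : Ultrafilter α} {H : α → ℝ}

/-- slow bounds -/
def SB (𝓕 : Filter α) (H : α → ℝ) (f : Pl K → α → ℝ) : Prop :=
  ∃ (n : ℕ) (s : Fin n → α → K) (B : ℝ) (i0 : Fin n), 1 ≤ B ∧ (∀ t, s i0 t = 1) ∧
    (∀ i, Slow 𝓕 H (s i)) ∧ ∀ᶠ t in 𝓕, ∀ p, f p t ≤ cst B p * nrm (av p) (fun i => s i t)

theorem SB.mono {f g : Pl K → α → ℝ} (hg : SB (𝓕 : Filter α) H g)
    (h : ∀ᶠ t in (𝓕 : Filter α), ∀ p, f p t ≤ g p t) : SB (𝓕 : Filter α) H f := by
  obtain ⟨n, s, B, i0, hB, h0, hs, hb⟩ := hg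
  refine ⟨n, s, B, i0, hB, h0, hs, ?_⟩
  filter_upwards [h, hb] with t h1 h2 p
  exact (h1 p).trans (h2 p)

theorem nrm_ge_one {n : ℕ} (p : Pl K) (x : Fin n → K) (i0 : Fin n) (h : x i0 = 1) :
    1 ≤ nrm (av p) x := by
  have h1 := le_nrm (av p) x i0
  rwa [h, map_one] at h1

/-- the norm of the family of products -/
theorem nrm_mul_le {m n : ℕ} (p : Pl K) (x : Fin m → K) (y : Fin n → K) (hm : 0 < m)
    (hn : 0 < n) :
    nrm (av p) x * nrm (av p) y ≤
      nrm (av p) (fun r : Fin (m * n) => x (finProdFinEquiv.symm r).1 *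
        y (finProdFinEquiv.symm r).2) := by
  obtain ⟨i, hi⟩ := exists_nrm (av p) hm x
  obtain ⟨j, hj⟩ := exists_nrm (av p) hn y
  rw [← hi, ← hj, ← map_mul]
  have h1 := le_nrm (av p) (fun r : Fin (m * n) => x (finProdFinEquiv.symm r).1 *
        y (finProdFinEquiv.symm r).2) (finProdFinEquiv (i, j))
  simp only [Equiv.symm_apply_apply] at h1
  exact h1

theorem SB.mul {f g : Pl K → α → ℝ} (hf : SB (𝓕 : Filter α) H f) (hg : SB (𝓕 : Filter α) H g)
    (hf0 : ∀ᶠ t in (𝓕 : Filter α), ∀ p, 0 ≤ f p t)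
    (hg0 : ∀ᶠ t in (𝓕 : Filter α), ∀ p, 0 ≤ g p t) :
    SB (𝓕 : Filter α) H (fun p t => f p t * g p t) := by
  obtain ⟨n, s, B, i0, hB, h0, hs, hb⟩ := hf
  obtain ⟨n', s', B', i0', hB', h0', hs', hb'⟩ := hg
  refine ⟨n * n', fun r t => s (finProdFinEquiv.symm r).1 t * s' (finProdFinEquiv.symm r).2 t,
    B * B', finProdFinEquiv (i0, i0'), by nlinarith, ?_, ?_, ?_⟩
  · intro t
    simp only [Equiv.symm_apply_apply]
    rw [h0, h0', one_mul]
  · intro r
    exact (hs _).mul (hs' _)
  · filter_upwards [hb, hb', hf0, hg0] with t h1 h2 h3 h4 p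
    have h5 := mul_le_mul (h1 p) (h2 p) (h4 p) ((h3 p).trans (h1 p))
    refine h5.trans ?_
    rw [← cst_mul]
    have h6 := nrm_mul_le p (fun i => s i t) (fun i => s' i t) i0.pos i0'.pos
    have h7 := mul_le_mul_of_nonneg_left h6
      (mul_pos (cst_pos (by linarith : (0 : ℝ) < B) p) (cst_pos (by linarith : (0 : ℝ) < B') p)).le
    calc cst B p * nrm (av p) (fun i => s i t) * (cst B' p * nrm (av p) fun i => s' i t)
        = cst B p * cst B' p * (nrm (av p) (fun i => s i t) * nrm (av p) fun i => s' i t) := by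
          ring
      _ ≤ _ := h7

theorem SB_const (hH : Tendsto H 𝓕 atTop) {C : ℝ} (hC : 1 ≤ C) :
    SB (K := K) (𝓕 : Filter α) H (fun p _ => cst C p) := by
  refine ⟨1, fun _ _ => 1, C, 0, hC, fun _ => rfl, fun _ => slow_const hH 1,
    Eventually.of_forall fun t p => ?_⟩
  have h1 := nrm_ge_one p (fun _ : Fin 1 => (1 : K)) 0 rfl
  have h2 := cst_pos (by linarith : (0 : ℝ) < C) p
  nlinarith

theorem SB.pow (hH : Tendsto H 𝓕 atTop) {f : Pl K → α → ℝ} (hf : SB (𝓕 : Filter α) H f)
    (hf0 : ∀ᶠ t in (𝓕 : Filter α), ∀ p, 0 ≤ f p t) (m : ℕ) :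
    SB (𝓕 : Filter α) H (fun p t => f p t ^ m) := by
  induction m with
  | zero =>
    refine (SB_const (K := K) hH le_rfl).mono (Eventually.of_forall fun t p => ?_)
    rw [pow_zero]
    exact one_le_cst le_rfl p
  | succ m ih =>
    have h1 := ih.mul hf (hf0.mono fun t h p => pow_nonneg (h p) m) hf0
    refine h1.mono (Eventually.of_forall fun t p => ?_)
    rw [pow_succ]

/-- a uniform bound for a finite family -/
theorem SB.unif (hH : Tendsto H 𝓕 atTop) {ι : Type} (I : Finset ι) {f : ι → Pl K → α → ℝ}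
    (hf : ∀ i ∈ I, SB (𝓕 : Filter α) H (f i)) :
    ∃ g : Pl K → α → ℝ, SB (𝓕 : Filter α) H g ∧ (∀ p t, 1 ≤ g p t) ∧
      ∀ᶠ t in (𝓕 : Filter α), ∀ i ∈ I, ∀ p, f i p t ≤ g p t := by
  classical
  induction I using Finset.induction_on with
  | empty =>
    refine ⟨fun p _ => cst 1 p, SB_const hH le_rfl, fun p _ => one_le_cst le_rfl p,
      Eventually.of_forall fun t i hi => absurd hi (Finset.notMem_empty i)⟩
  | insert i I hi ih =>
    obtain ⟨g, hg, hg1, hgf⟩ := ih fun j hj => hf j (Finset.mem_insert_of_mem hj)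
    obtain ⟨n, s, B, i0, hB, h0, hs, hb⟩ := hf i (Finset.mem_insert_self _ _)
    set g' : Pl K → α → ℝ := fun p t => cst B p * nrm (av p) (fun i => s i t) with hg'
    have hg'1 : ∀ p t, 1 ≤ g' p t := by
      intro p t
      have h1 := nrm_ge_one p (fun i => s i t) i0 (h0 t)
      have h2 := one_le_cst hB p
      rw [hg']
      simp only
      nlinarith
    have hg'SB : SB (𝓕 : Filter α) H g' :=
      ⟨n, s, B, i0, hB, h0, hs, Eventually.of_forall fun t p => le_rfl⟩
    refine ⟨fun p t => g p t * g' p t, hg.mul hg'SB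
      (Eventually.of_forall fun t p => zero_le_one.trans (hg1 p t))
      (Eventually.of_forall fun t p => zero_le_one.trans (hg'1 p t)), ?_, ?_⟩
    · intro p t
      have h1 := hg1 p t
      have h2 := hg'1 p t
      nlinarith
    · filter_upwards [hgf, hb] with t h1 h2 j hj p
      have h3 := hg1 p t
      have h4 := hg'1 p t
      rcases Finset.mem_insert.1 hj with rfl | hj
      · have h5 : f j p t ≤ g' p t := h2 p
        nlinarith
      · have h5 := h1 j hj p
        nlinarith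

/-- the absolute value of a slow germ -/
theorem SB_slow (hH : Tendsto H 𝓕 atTop) {a : α → K} (ha : Slow 𝓕 H a) :
    SB (𝓕 : Filter α) H (fun p t => av p (a t)) := by
  refine ⟨2, fun i t => ![1, a t] i, 1, 0, le_rfl, fun t => rfl, fun i => ?_,
    Eventually.of_forall fun t p => ?_⟩
  · fin_cases i
    · exact slow_const hH 1
    · exact ha
  · have h1 := le_nrm (av p) (fun i => ![1, a t] i) 1
    have h2 := one_le_cst (le_refl (1 : ℝ)) p
    have h3 : av p (a t) ≤ nrm (av p) (fun i => ![1, a t] i) := h1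
    have h4 := nrm_nonneg (av p) (fun i => ![1, a t] i)
    nlinarith

/-- local consequences -/
theorem SB.loc (hH : Tendsto H 𝓕 atTop) {f : Pl K → α → ℝ} (hf : SB (𝓕 : Filter α) H f)
    (hf0 : ∀ᶠ t in (𝓕 : Filter α), ∀ p, 0 < f p t) (p : Pl K) (ε : ℝ) (hε : 0 < ε) :
    ∀ᶠ t in (𝓕 : Filter α), wt p * Real.log (f p t) ≤ ε * H t := by
  obtain ⟨n, s, B, i0, hB, h0, hs, hb⟩ := hf
  filter_upwards [hb, hf0, slow_nrm i0.pos hs p (show 0 < ε / 2 by linarith),
    hH.eventually_ge_atTop ((wt p * Real.log (cst B p)) / (ε / 2))] with t h1 h2 h3 h4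
  rw [div_le_iff₀ (by linarith)] at h4
  have h5 := Real.log_le_log (h2 p) (h1 p)
  have h6 : 0 < nrm (av p) (fun i => s i t) :=
    lt_of_lt_of_le zero_lt_one (nrm_ge_one p (fun i => s i t) i0 (h0 t))
  rw [Real.log_mul (cst_pos (by linarith) p).ne' h6.ne'] at h5
  have h7 := mul_le_mul_of_nonneg_left h5 (wt_nonneg p)
  have h8 := (abs_le.1 h3).2
  linarith

/-- **comparison of heights** -/
theorem SB.ht (hH : Tendsto H 𝓕 atTop) {m n : ℕ} (y : α → Fin m → K) (z : α → Fin n → K)
    (hy : ∀ᶠ t in (𝓕 : Filter α), y t ≠ 0) (hz : ∀ᶠ t in (𝓕 : Filter α), z t ≠ 0) (D D' : ℕ)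
    (h : SB (𝓕 : Filter α) H (fun p t => nrm (av p) (y t) ^ D / nrm (av p) (z t) ^ D'))
    (ε : ℝ) (hε : 0 < ε) :
    ∀ᶠ t in (𝓕 : Filter α), D * logHeight (y t) ≤ D' * logHeight (z t) + ε * H t := by
  obtain ⟨n', s, B, i0, hB, h0, hs, hb⟩ := h
  filter_upwards [hb, hy, hz, slow_vec hH hs (show 0 < ε / 2 by linarith),
    hH.eventually_ge_atTop ((finrank ℚ K * Real.log B) / (ε / 2))] with t h1 h2 h3 h4 h5
  rw [div_le_iff₀ (by linarith)] at h5
  have hs0 : (fun i => s i t) ≠ 0 := by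
    intro h
    have h6 := congrFun h i0
    simp only [h0, Pi.zero_apply] at h6
    exact one_ne_zero h6
  have h6 := ht_gen (K := K) (ι := Fin 3) Finset.univ (fun i => ![m, n, n'] i)
    (fun i => match i with
      | 0 => y t
      | 1 => z t
      | 2 => (fun i => s i t)) (fun i => match i with
      | 0 => -(D : ℝ)
      | 1 => (D' : ℝ)
      | 2 => 1) (by
        intro i _
        match i with
        | 0 => exact h2
        | 1 => exact h3
        | 2 => exact hs0) B (by
        intro p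
        rw [Fin.sum_univ_three]
        show 0 ≤ -(D : ℝ) * Real.log (nrm (av p) (y t)) + (D' : ℝ) * Real.log (nrm (av p) (z t)) +
          1 * Real.log (nrm (av p) (fun i => s i t)) + Real.log (cst B p)
        have e1 := nrm_pos (av p) h2
        have e2 := nrm_pos (av p) h3
        have e3 := nrm_pos (av p) hs0
        have e4 := cst_pos (by linarith : (0 : ℝ) < B) p
        have e5 := Real.log_le_log (by positivity) (h1 p)
        rw [Real.log_div (by positivity) (by positivity), Real.log_pow, Real.log_pow,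
          Real.log_mul e4.ne' e3.ne'] at e5
        linarith)
  rw [Fin.sum_univ_three] at h6
  have h7 : 0 ≤ -(D : ℝ) * logHeight (y t) + (D' : ℝ) * logHeight (z t) +
      1 * logHeight (fun i => s i t) + finrank ℚ K * Real.log B := h6
  linarith

end Pool.Agent.H432.RC
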