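import Mathlib
import Pool.Agent.H432.RC.SB

/-!
The values of polynomials with slow coefficients.
-/

set_option autoImplicit false
set_option linter.unusedSectionVars false

open Filter Topology

namespace Pool.Agent.H432.RC

open NumberField IsDedekindDomain Height Module Pool.Agent.N750
open Pool.Agent.W180.OP (Pl av wt nrm le_nrm nrm_pos wt_nonneg exists_nrm nrm_nonneg)

variable {K α : Type} [Field K] [NumberField K] {𝓕 : Ultrafilter α} {H : α → ℝ}
  {𝕊 : Type} [Field 𝕊] [Algebra 𝕊 (Gm 𝓕 K)]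

/-- the values at `τ` of a polynomial over the slow field -/
noncomputable def ep (rp : 𝕊 → α → K) (τ : α → K) (P : Polynomial 𝕊) (t : α) : K :=
  ∑ m ∈ Finset.range (P.natDegree + 1), rp (P.coeff m) t * τ t ^ m

theorem mk_ep (rp : 𝕊 → α → K) (hr2 : ∀ s, mk 𝓕 (rp s) = algebraMap 𝕊 (Gm 𝓕 K) s) (τ : α → K)
    (P : Polynomial 𝕊) : mk 𝓕 (ep rp τ P) = Polynomial.aeval (mk 𝓕 τ) P := by
  rw [Polynomial.aeval_eq_sum_range]
  have h1 : ep rp τ P = ∑ m ∈ Finset.range (P.natDegree + 1), (rp (P.coeff m) * τ ^ m) := by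
    funext t
    unfold ep
    rw [Finset.sum_apply]
    rfl
  rw [h1, map_sum]
  refine Finset.sum_congr rfl fun m _ => ?_
  rw [map_mul, hr2, map_pow, Algebra.smul_def]

theorem ep_congr (rp : 𝕊 → α → K) (hr2 : ∀ s, mk 𝓕 (rp s) = algebraMap 𝕊 (Gm 𝓕 K) s)
    (τ : α → K) {P : Polynomial 𝕊} {f : α → K} (h : Polynomial.aeval (mk 𝓕 τ) P = mk 𝓕 f) :
    ∀ᶠ t in (𝓕 : Filter α), ep rp τ P t = f t := by
  rw [← mk_ep rp hr2] at h
  exact mk_eq.1 h

theorem ep_sum_mul (rp : 𝕊 → α → K) (hr2 : ∀ s, mk 𝓕 (rp s) = algebraMap 𝕊 (Gm 𝓕 K) s)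
    (τ : α → K) {w : ℕ} (a P : Fin w → Polynomial 𝕊) :
    ∀ᶠ t in (𝓕 : Filter α), ep rp τ (∑ j, a j * P j) t =
      ∑ j, ep rp τ (a j) t * ep rp τ (P j) t := by
  refine ep_congr rp hr2 τ ?_
  rw [mk_sum_mul, map_sum]
  refine Finset.sum_congr rfl fun j _ => ?_
  rw [map_mul, mk_ep rp hr2, mk_ep rp hr2]

theorem ep_mul (rp : 𝕊 → α → K) (hr2 : ∀ s, mk 𝓕 (rp s) = algebraMap 𝕊 (Gm 𝓕 K) s)
    (τ : α → K) (P Q : Polynomial 𝕊) :
    ∀ᶠ t in (𝓕 : Filter α), ep rp τ (P * Q) t = ep rp τ P t * ep rp τ Q t := by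
  refine ep_congr rp hr2 τ ?_
  have h1 : (fun t => ep rp τ P t * ep rp τ Q t) = ep rp τ P * ep rp τ Q := rfl
  rw [h1, map_mul, map_mul, mk_ep rp hr2, mk_ep rp hr2]

theorem nrm2_pos (p : Pl K) (x : K) : 1 ≤ nrm (av p) ![1, x] := nrm_ge_one p _ 0 rfl

theorem nrm2_ge (p : Pl K) (x : K) : av p x ≤ nrm (av p) ![1, x] := le_nrm (av p) ![1, x] 1

theorem nrm2_le (p : Pl K) (x : K) {b : ℝ} (h1 : 1 ≤ b) (h2 : av p x ≤ b) :
    nrm (av p) ![1, x] ≤ b := by
  obtain ⟨i, hi⟩ := exists_nrm (av p) (n := 2) (by norm_num) ![1, x]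
  rw [← hi]
  match i with
  | 0 =>
    show av p 1 ≤ b
    rw [map_one]
    exact h1
  | 1 => exact h2

/-- the upper bound -/
theorem SB_ep (hH : Tendsto H 𝓕 atTop) (rp : 𝕊 → α → K) (hr1 : ∀ s, Slow 𝓕 H (rp s))
    (τ : α → K) (P : Polynomial 𝕊) (D : ℕ) (hD : P.natDegree ≤ D) :
    SB (𝓕 : Filter α) H (fun p t => av p (ep rp τ P t) / nrm (av p) ![1, τ t] ^ D) := by
  refine ⟨P.natDegree + 2, Fin.cons (fun _ => 1) (fun m : Fin (P.natDegree + 1) =>
    rp (P.coeff m)), P.natDegree + 1, 0, by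
      have : (0 : ℝ) ≤ P.natDegree := Nat.cast_nonneg _
      linarith, fun t => rfl, fun i => ?_,
      Eventually.of_forall fun t p => ?_⟩
  · refine Fin.cases ?_ (fun i => ?_) i
    · exact slow_const hH 1
    · exact hr1 _
  · have h1 := nrm2_pos p (τ t)
    rw [div_le_iff₀ (by positivity)]
    have h2 : ∀ m ∈ Finset.range (P.natDegree + 1), av p (rp (P.coeff m) t * τ t ^ m) ≤
        nrm (av p) (fun i => (Fin.cons (fun _ => 1) (fun m : Fin (P.natDegree + 1) =>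
          rp (P.coeff m)) : Fin (P.natDegree + 2) → α → K) i t) *
          nrm (av p) ![1, τ t] ^ D := by
      intro m hm
      rw [map_mul, map_pow]
      have e1 := le_nrm (av p) (fun i => (Fin.cons (fun _ => 1) (fun m : Fin (P.natDegree + 1) =>
          rp (P.coeff m)) : Fin (P.natDegree + 2) → α → K) i t)
          (Fin.succ ⟨m, Finset.mem_range.1 hm⟩)
      have e2 : av p (τ t) ^ m ≤ nrm (av p) ![1, τ t] ^ D :=
        calc av p (τ t) ^ m ≤ nrm (av p) ![1, τ t] ^ m :=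
              pow_le_pow_left₀ ((av p).nonneg _) (nrm2_ge p (τ t)) m
          _ ≤ nrm (av p) ![1, τ t] ^ D := pow_le_pow_right₀ h1 (by
              have := Finset.mem_range.1 hm
              omega)
      exact mul_le_mul e1 e2 (by positivity) (nrm_nonneg _ _)
    have h3 := av_sum p (Finset.range (P.natDegree + 1)) (fun m => rp (P.coeff m) t * τ t ^ m) _
      (mul_nonneg (nrm_nonneg _ _) (by positivity)) h2 (P.natDegree + 1) (by
        rw [Finset.card_range]
        push_cast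
        exact le_rfl)
    rw [mul_assoc]
    exact h3

theorem nrm_vec_le {n : ℕ} (p : Pl K) (x : Fin n → K) {b : ℝ} (hb : 0 ≤ b)
    (h : ∀ i, av p (x i) ≤ b) : nrm (av p) x ≤ b := by
  rcases Nat.eq_zero_or_pos n with rfl | hn
  · have : nrm (av p) x = 0 := by
      unfold Pool.Agent.W180.OP.nrm
      exact Real.iSup_of_isEmpty _
    rw [this]
    exact hb
  · obtain ⟨i, hi⟩ := exists_nrm (av p) hn x
    rw [← hi]
    exact h i

/-- the upper bound for families -/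
theorem SB_ep_vec (hH : Tendsto H 𝓕 atTop) (rp : 𝕊 → α → K) (hr1 : ∀ s, Slow 𝓕 H (rp s))
    (τ : α → K) {w : ℕ} (P : Fin w → Polynomial 𝕊) (D : ℕ) (hD : ∀ j, (P j).natDegree ≤ D) :
    SB (𝓕 : Filter α) H
      (fun p t => nrm (av p) (fun j => ep rp τ (P j) t) / nrm (av p) ![1, τ t] ^ D) := by
  obtain ⟨g, hg, hg1, hgf⟩ := SB.unif hH Finset.univ
    (fun (j : Fin w) _ => SB_ep hH rp hr1 τ (P j) D (hD j))
  refine hg.mono ?_
  filter_upwards [hgf] with t ht p
  have h1 := nrm2_pos p (τ t)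
  rw [div_le_iff₀ (by positivity)]
  refine nrm_vec_le p _ (by have := hg1 p t; positivity) fun j => ?_
  have h2 := ht j (Finset.mem_univ j) p
  rw [div_le_iff₀ (by positivity)] at h2
  exact h2

/-- families without common zeros do not vanish -/
theorem ep_vec_ne (rp : 𝕊 → α → K) (hr2 : ∀ s, mk 𝓕 (rp s) = algebraMap 𝕊 (Gm 𝓕 K) s)
    (τ : α → K) {w : ℕ} (P : Fin w → Polynomial 𝕊)
    (htop : Ideal.span (Set.range P) = ⊤) :
    ∀ᶠ t in (𝓕 : Filter α), (fun j => ep rp τ (P j) t) ≠ 0 := by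
  obtain ⟨a, ha⟩ := exists_bezout P htop
  have h1 := ep_sum_mul rp hr2 τ a P
  rw [ha] at h1
  have h2 : ∀ᶠ t in (𝓕 : Filter α), ep rp τ (1 : Polynomial 𝕊) t = 1 := by
    refine ep_congr rp hr2 τ (f := fun _ => 1) ?_
    rw [map_one]
    exact (map_one (mk 𝓕)).symm
  filter_upwards [h1, h2] with t e1 e2 h0
  rw [e2] at e1
  have e3 : ∑ j, ep rp τ (a j) t * ep rp τ (P j) t = 0 := by
    refine Finset.sum_eq_zero fun j _ => ?_
    rw [show ep rp τ (P j) t = 0 from congrFun h0 j, mul_zero]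
  rw [e3] at e1
  exact one_ne_zero e1

/-- **the lower bound** for families without common zeros on the projective line -/
theorem SB_lower (hH : Tendsto H 𝓕 atTop) (rp : 𝕊 → α → K) (hr1 : ∀ s, Slow 𝓕 H (rp s))
    (hr2 : ∀ s, mk 𝓕 (rp s) = algebraMap 𝕊 (Gm 𝓕 K) s)
    (τ : α → K) {w : ℕ} (P : Fin w → Polynomial 𝕊) (D : ℕ) (hD : ∀ j, (P j).natDegree ≤ D)
    (htop : Ideal.span (Set.range P) = ⊤) (hlead : ∃ j, (P j).coeff D ≠ 0) :
    SB (𝓕 : Filter α) H
      (fun p t => nrm (av p) ![1, τ t] ^ D / nrm (av p) (fun j => ep rp τ (P j) t)) := by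
  obtain ⟨N, a, b, hDN, ha, hb, ha1, hb1⟩ := bez P D hD htop hlead
  have e1 := ep_sum_mul rp hr2 τ a P
  have e2 := ep_sum_mul rp hr2 τ b P
  rw [ha1] at e1
  rw [hb1] at e2
  have e3 : ∀ᶠ t in (𝓕 : Filter α), ep rp τ (1 : Polynomial 𝕊) t = 1 := by
    refine ep_congr rp hr2 τ (f := fun _ => 1) ?_
    rw [map_one]
    exact (map_one (mk 𝓕)).symm
  have e4 : ∀ᶠ t in (𝓕 : Filter α), ep rp τ (Polynomial.X ^ N : Polynomial 𝕊) t = τ t ^ N := by
    refine ep_congr rp hr2 τ (f := fun t => τ t ^ N) ?_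
    rw [map_pow, Polynomial.aeval_X, ← map_pow]
    rfl
  obtain ⟨ga, hga, hga1, hgaf⟩ := SB.unif hH Finset.univ
    (fun (j : Fin w) _ => SB_ep hH rp hr1 τ (a j) (N - D) (ha j))
  obtain ⟨gb, hgb, hgb1, hgbf⟩ := SB.unif hH Finset.univ
    (fun (j : Fin w) _ => SB_ep hH rp hr1 τ (b j) (N - D) (hb j))
  have hw : (1 : ℝ) ≤ max 1 (w : ℝ) := le_max_left _ _
  have hc := SB_const (K := K) hH hw
  have hgg := hc.mul (hga.mul hgb (Eventually.of_forall fun t p => zero_le_one.trans (hga1 p t))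
    (Eventually.of_forall fun t p => zero_le_one.trans (hgb1 p t)))
    (Eventually.of_forall fun t p => (cst_pos (by linarith) p).le)
    (Eventually.of_forall fun t p => mul_nonneg (zero_le_one.trans (hga1 p t))
      (zero_le_one.trans (hgb1 p t)))
  refine hgg.mono ?_
  filter_upwards [e1, e2, e3, e4, hgaf, hgbf, ep_vec_ne rp hr2 τ P htop] with t f1 f2 f3 f4 f5 f6
    f7 p
  have h1 := nrm2_pos p (τ t)
  have hP := nrm_pos (av p) f7
  have g1 := hga1 p t
  have g2 := hgb1 p t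
  have g3 := cst_pos (by linarith : (0 : ℝ) < max 1 (w : ℝ)) p
  rw [div_le_iff₀ hP]
  set R := nrm (av p) ![1, τ t] with hR
  set Y := nrm (av p) (fun j => ep rp τ (P j) t) with hY
  have hcomb : ∀ (c : Fin w → Polynomial 𝕊) (g : ℝ), (∀ j, av p (ep rp τ (c j) t) / R ^ (N - D) ≤
      g) → 0 ≤ g → av p (∑ j, ep rp τ (c j) t * ep rp τ (P j) t) ≤
      cst (max 1 (w : ℝ)) p * (g * R ^ (N - D) * Y) := by
    intro c g hcg hg0
    refine av_sum p Finset.univ _ _ (by positivity) (fun j _ => ?_) _ (by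
      rw [Finset.card_univ, Fintype.card_fin]
      exact le_max_right _ _)
    rw [map_mul]
    have e5 := hcg j
    rw [div_le_iff₀ (by positivity)] at e5
    exact mul_le_mul e5 (le_nrm (av p) (fun j => ep rp τ (P j) t) j) ((av p).nonneg _)
      (by positivity)
  have h2 := hcomb a (ga p t) (fun j => f5 j (Finset.mem_univ j) p) (by positivity)
  have h3 := hcomb b (gb p t) (fun j => f6 j (Finset.mem_univ j) p) (by positivity)
  rw [← f1, f3, map_one] at h2
  rw [← f2, f4, map_pow] at h3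
  have hgab : ga p t ≤ ga p t * gb p t := by nlinarith
  have hgab' : gb p t ≤ ga p t * gb p t := by nlinarith
  have hX : (0 : ℝ) ≤ R ^ (N - D) * Y := by positivity
  have h4 : (1 : ℝ) ≤ cst (max 1 (w : ℝ)) p * (ga p t * gb p t * R ^ (N - D) * Y) := by
    refine h2.trans (mul_le_mul_of_nonneg_left ?_ g3.le)
    have := mul_le_mul_of_nonneg_right hgab hX
    linarith
  have h5 : av p (τ t) ^ N ≤ cst (max 1 (w : ℝ)) p * (ga p t * gb p t * R ^ (N - D) * Y) := by
    refine h3.trans (mul_le_mul_of_nonneg_left ?_ g3.le)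
    have := mul_le_mul_of_nonneg_right hgab' hX
    linarith
  have h6 : R ^ N ≤ cst (max 1 (w : ℝ)) p * (ga p t * gb p t * R ^ (N - D) * Y) := by
    obtain ⟨i, hi⟩ := exists_nrm (av p) (n := 2) (by norm_num) ![1, τ t]
    have hRi : R = av p (![1, τ t] i) := hi.symm
    match i, hRi with
    | 0, hRi =>
      have hR1 : R = 1 := by
        rw [hRi]
        exact map_one _
      calc R ^ N = 1 := by rw [hR1, one_pow]
        _ ≤ _ := h4
    | 1, hRi =>
      have hR1 : R = av p (τ t) := hRi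
      calc R ^ N = av p (τ t) ^ N := by rw [hR1]
        _ ≤ _ := h5
  have h7 : R ^ N = R ^ D * R ^ (N - D) := by
    rw [← pow_add]
    congr 1
    omega
  rw [h7] at h6
  have h8 : 0 < R ^ (N - D) := by positivity
  have h9 : R ^ D * R ^ (N - D) ≤ (cst (max 1 (w : ℝ)) p * (ga p t * gb p t) * Y) *
      R ^ (N - D) := by
    calc R ^ D * R ^ (N - D) ≤ _ := h6
      _ = _ := by ring
  exact le_of_mul_le_mul_right h9 h8

end Pool.Agent.H432.RC
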