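import Mathlib
import Pool.Agent.H432.RC.Core2
import Pool.Graph.R_pool_sql_team_seeded_63374d34.N750.Geo

/-!
The linear system of the Gauss map along a rational curve, and its descent.
-/

set_option autoImplicit false
set_option linter.unusedSectionVars false

namespace Pool.Agent.H432.RC

open MvPolynomial Pool.Agent.N750

theorem aeval_mapP {k R R' : Type} [Field k] [CommRing R] [CommRing R'] [Algebra k R]
    [Algebra k R'] (ψ : R →ₐ[k] R') {M : ℕ} (φ : Fin M → Polynomial R)
    (P : MvPolynomial (Fin M) k) :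
    (aeval φ P).map (ψ : R →+* R') = aeval (fun l => (φ l).map (ψ : R →+* R')) P :=
  MvPolynomial.comp_aeval_apply φ (Polynomial.mapAlgHom ψ) P

theorem aeval_mapA {k R R' : Type} [Field k] [Field R] [Field R'] [Algebra k R]
    [Algebra k R'] [Algebra R R'] [IsScalarTower k R R'] {M : ℕ} (φ : Fin M → Polynomial R)
    (P : MvPolynomial (Fin M) k) :
    (aeval φ P).map (algebraMap R R') = aeval (fun l => (φ l).map (algebraMap R R')) P :=
  aeval_mapP (IsScalarTower.toAlgHom k R R') φ P

section defs

variable {k R : Type} [Field k] [Field R] [Algebra k R] {M g n' : ℕ}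

/-- the index set of the equations -/
abbrev YC (M g n' D : ℕ) : Type :=
  ((Fin (n' + 2) → Fin M) × Fin (n' + 2) × Fin (n' + 2) × Fin (D + 1)) ⊕
    (Fin g × (Fin (n' + 2) → Fin M) × ℕ)

/-- the equations -/
noncomputable def rowC (G : Fin g → MvPolynomial (Fin M) k) (φ : Fin M → Polynomial R) (D : ℕ) :
    YC M g n' D → XI M n' D → R
  | Sum.inl (J, i, j, m) => fun x => if i = j then 0 else
      (if (J ∘ Equiv.swap i j, m) = x then 1 else 0) + (if (J, m) = x then 1 else 0)
  | Sum.inr (i, J, r) => fun x =>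
      ∑ l, if Function.update J 0 l = x.1 then
        (aeval φ (pderiv l (G i)) * Polynomial.X ^ x.2.1).coeff r else 0

theorem sumC_alt {D : ℕ} (G : Fin g → MvPolynomial (Fin M) k) (φ : Fin M → Polynomial R)
    (c : XI M n' D → R) (J : Fin (n' + 2) → Fin M) (i j : Fin (n' + 2)) (m : Fin (D + 1))
    (hij : i ≠ j) :
    ∑ x, rowC (n' := n') G φ D (Sum.inl (J, i, j, m)) x * c x =
      c (J ∘ Equiv.swap i j, m) + c (J, m) := by
  have h1 : ∀ x, rowC (n' := n') G φ D (Sum.inl (J, i, j, m)) x * c x =
      (if (J ∘ Equiv.swap i j, m) = x then c x else 0) + (if (J, m) = x then c x else 0) := by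
    intro x
    show (if i = j then 0 else
      ((if (J ∘ Equiv.swap i j, m) = x then 1 else 0) + (if (J, m) = x then 1 else 0) : R)) *
        c x = _
    rw [if_neg hij, add_mul]
    congr 1 <;> split_ifs <;> simp
  rw [Finset.sum_congr rfl fun x _ => h1 x, Finset.sum_add_distrib,
    Finset.sum_ite_eq Finset.univ, Finset.sum_ite_eq Finset.univ,
    if_pos (Finset.mem_univ _), if_pos (Finset.mem_univ _)]

theorem sumC_contr {D : ℕ} (G : Fin g → MvPolynomial (Fin M) k) (φ : Fin M → Polynomial R)
    (c : XI M n' D → R) (i : Fin g) (J : Fin (n' + 2) → Fin M) (r : ℕ) :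
    ∑ x, rowC (n' := n') G φ D (Sum.inr (i, J, r)) x * c x =
      (∑ l, aeval φ (pderiv l (G i)) * polyOf c (Function.update J 0 l)).coeff r := by
  rw [Polynomial.finsetSum_coeff, Fintype.sum_prod_type]
  have h1 : ∀ (J' : Fin (n' + 2) → Fin M) (m : Fin (D + 1)),
      rowC (n' := n') G φ D (Sum.inr (i, J, r)) (J', m) * c (J', m) =
      ∑ l, if Function.update J 0 l = J' then
        (aeval φ (pderiv l (G i)) * Polynomial.X ^ m.1).coeff r * c (J', m) else 0 := by
    intro J' m
    show (∑ l, if Function.update J 0 l = J' then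
        (aeval φ (pderiv l (G i)) * Polynomial.X ^ m.1).coeff r else 0) * c (J', m) = _
    rw [Finset.sum_mul]
    refine Finset.sum_congr rfl fun l _ => ?_
    split_ifs
    · rfl
    · exact zero_mul _
  simp_rw [h1]
  have h2 : ∀ J' : Fin (n' + 2) → Fin M, ∑ m : Fin (D + 1), ∑ l,
      (if Function.update J 0 l = J' then
        (aeval φ (pderiv l (G i)) * Polynomial.X ^ m.1).coeff r * c (J', m) else 0) =
      ∑ l, if Function.update J 0 l = J' then
        ∑ m : Fin (D + 1), (aeval φ (pderiv l (G i)) * Polynomial.X ^ m.1).coeff r * c (J', m)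
          else 0 := by
    intro J'
    rw [Finset.sum_comm]
    refine Finset.sum_congr rfl fun l _ => ?_
    split_ifs
    · rfl
    · exact Finset.sum_const_zero
  rw [Finset.sum_congr rfl fun J' _ => h2 J', Finset.sum_comm]
  refine Finset.sum_congr rfl fun l _ => ?_
  rw [Finset.sum_ite_eq Finset.univ, if_pos (Finset.mem_univ _)]
  unfold polyOf
  rw [Finset.mul_sum, Polynomial.finsetSum_coeff]
  refine Finset.sum_congr rfl fun m _ => ?_
  rw [mul_comm (Polynomial.C _), ← mul_assoc, Polynomial.coeff_mul_C]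

/-- solutions of the linear system give polynomial solutions -/
theorem GC_of_sys {D : ℕ} (G : Fin g → MvPolynomial (Fin M) k) (φ : Fin M → Polynomial R)
    (c : XI M n' D → R) (hc0 : c ≠ 0)
    (hc : ∀ y, ∑ x, rowC (n' := n') G φ D y x * c x = 0) : GC G φ D (polyOf c) := by
  classical
  refine ⟨?_, polyOf_deg c, ?_, ?_⟩
  · obtain ⟨⟨J, m⟩, hx⟩ := Function.ne_iff.1 hc0
    refine ⟨J, fun h => hx ?_⟩
    have h1 := polyOf_coeff c J m
    rw [h, Polynomial.coeff_zero] at h1
    exact h1.symm
  · intro J i j hij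
    have h1 : ∀ m, c (J ∘ Equiv.swap i j, m) = -c (J, m) := by
      intro m
      have h2 := hc (Sum.inl (J, i, j, m))
      rw [sumC_alt G φ c J i j m hij] at h2
      exact eq_neg_of_add_eq_zero_left h2
    unfold polyOf
    rw [← Finset.sum_neg_distrib]
    refine Finset.sum_congr rfl fun m _ => ?_
    rw [h1, Polynomial.C_neg, neg_mul]
  · intro i J
    ext r
    rw [← sumC_contr, hc, Polynomial.coeff_zero]

/-- polynomial solutions give solutions of the linear system -/
theorem sys_of_GC {D : ℕ} (G : Fin g → MvPolynomial (Fin M) k) (φ : Fin M → Polynomial R)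
    (Γ : (Fin (n' + 2) → Fin M) → Polynomial R) (h : GC G φ D Γ) :
    ∃ c : XI M n' D → R, c ≠ 0 ∧ ∀ y, ∑ x, rowC (n' := n') G φ D y x * c x = 0 := by
  classical
  obtain ⟨⟨J0, hJ0⟩, hdeg, halt, hcontr⟩ := h
  have hpoly : polyOf (fun x : XI M n' D => (Γ x.1).coeff x.2.1) = Γ := by
    funext J
    unfold polyOf
    simp only
    conv_rhs => rw [Polynomial.as_sum_range' (Γ J) (D + 1) (Nat.lt_succ_iff.2 (hdeg J))]
    rw [Finset.sum_range (fun m => Polynomial.monomial m ((Γ J).coeff m))]
    exact Finset.sum_congr rfl fun m _ => Polynomial.C_mul_X_pow_eq_monomial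
  refine ⟨fun x => (Γ x.1).coeff x.2.1, ?_, ?_⟩
  · intro h0
    apply hJ0
    rw [← hpoly]
    unfold polyOf
    refine Finset.sum_eq_zero fun m _ => ?_
    have h1 : (Γ J0).coeff m.1 = 0 := congrFun h0 (J0, m)
    show Polynomial.C ((Γ J0).coeff m.1) * _ = 0
    rw [h1, Polynomial.C_0, zero_mul]
  · rintro (⟨J, i, j, m⟩ | ⟨i, J, r⟩)
    · by_cases hij : i = j
      · refine Finset.sum_eq_zero fun x _ => ?_
        show (if i = j then 0 else
          ((if (J ∘ Equiv.swap i j, m) = x then 1 else 0) + (if (J, m) = x then 1 else 0) : R)) *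
            _ = 0
        rw [if_pos hij, zero_mul]
      · rw [sumC_alt G φ _ J i j m hij]
        simp only
        rw [halt J i j hij, Polynomial.coeff_neg, neg_add_cancel]
    · rw [sumC_contr, hpoly, hcontr, Polynomial.coeff_zero]

theorem rowC_map {R' : Type} [Field R'] [Algebra k R'] [Algebra R R'] [IsScalarTower k R R']
    {D : ℕ} (G : Fin g → MvPolynomial (Fin M) k) (φ : Fin M → Polynomial R) (y : YC M g n' D)
    (x : XI M n' D) :
    algebraMap R R' (rowC (n' := n') G φ D y x) =
      rowC (n' := n') G (fun l => (φ l).map (algebraMap R R')) D y x := by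
  rcases y with ⟨J, i, j, m⟩ | ⟨i, J, r⟩
  · show algebraMap R R' (if i = j then 0 else
      (if (J ∘ Equiv.swap i j, m) = x then 1 else 0) + (if (J, m) = x then 1 else 0)) =
      (if i = j then 0 else
      (if (J ∘ Equiv.swap i j, m) = x then 1 else 0) + (if (J, m) = x then 1 else 0))
    split_ifs <;> simp
  · show algebraMap R R' (∑ l, if Function.update J 0 l = x.1 then
        (aeval φ (pderiv l (G i)) * Polynomial.X ^ x.2.1).coeff r else 0) =
      (∑ l, if Function.update J 0 l = x.1 then
        (aeval (fun l => (φ l).map (algebraMap R R')) (pderiv l (G i)) *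
          Polynomial.X ^ x.2.1).coeff r else 0)
    rw [map_sum]
    refine Finset.sum_congr rfl fun l _ => ?_
    split_ifs
    · rw [← Polynomial.coeff_map, Polynomial.map_mul, Polynomial.map_pow, Polynomial.map_X,
        aeval_mapA]
    · rw [map_zero]

/-- descent of polynomial solutions -/
theorem GC_descend {R' : Type} [Field R'] [Algebra k R'] [Algebra R R'] [IsScalarTower k R R']
    {D : ℕ} (G : Fin g → MvPolynomial (Fin M) k) (φ : Fin M → Polynomial R)
    (Γ : (Fin (n' + 2) → Fin M) → Polynomial R')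
    (h : GC G (fun l => (φ l).map (algebraMap R R')) D Γ) :
    ∃ Γ' : (Fin (n' + 2) → Fin M) → Polynomial R, GC G φ D Γ' := by
  classical
  obtain ⟨c, hc0, hc⟩ := sys_of_GC G _ Γ h
  obtain ⟨c', hc'0, hc'⟩ := descend (R := R) (R' := R')
    (rowC (n' := n') G φ D) ⟨c, hc0, fun y => by
      rw [← hc y]
      exact Finset.sum_congr rfl fun x _ => by rw [rowC_map]⟩
  exact ⟨_, GC_of_sys G φ c' hc'0 hc'⟩

end defs

/-- genericity of the scaled point -/
theorem scaled_gen' {k 𝕂 : Type} [Field k] [Field 𝕂] [Algebra k 𝕂] {M g : ℕ}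
    (G : Fin g → MvPolynomial (Fin M) k) (φ : Fin M → Polynomial 𝕂)
    (hgen : ∀ (P : MvPolynomial (Fin M) k) (m : ℕ), P.IsHomogeneous m →
      P ∉ Ideal.span (Set.range G) → aeval φ P ≠ 0)
    (P : MvPolynomial (Fin M) k)
    (hP : aeval (fun l => algebraMap (Polynomial (FractionRing (Polynomial 𝕂)))
      (FractionRing (Polynomial (FractionRing (Polynomial 𝕂)))) Polynomial.X *
      algebraMap (FractionRing (Polynomial 𝕂)) _
          (algebraMap (Polynomial 𝕂) (FractionRing (Polynomial 𝕂)) (φ l))) P = 0) :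
    P ∈ Ideal.span (Set.range G) := by
  classical
  set E1 := FractionRing (Polynomial 𝕂) with hE1
  set E := FractionRing (Polynomial E1) with hE
  set ζ : Fin M → E1 := fun l => algebraMap (Polynomial 𝕂) E1 (φ l) with hζ
  -- the homogeneous components
  have hhom : ∀ m, aeval (fun l => (Polynomial.X : Polynomial E1) * Polynomial.C (ζ l))
      (homogeneousComponent m P) =
      Polynomial.C (aeval ζ (homogeneousComponent m P)) * Polynomial.X ^ m := by
    intro m
    have h1 := homogeneousComponent_isHomogeneous m P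
    rw [aeval_def, aeval_def, eval₂_eq, eval₂_eq, map_sum, Finset.sum_mul]
    refine Finset.sum_congr rfl fun s hs => ?_
    simp only [mul_pow]
    rw [Finset.prod_mul_distrib, Finset.prod_pow_eq_pow_sum]
    have hdeg : ∑ i ∈ s.support, s i = m := by
      have h2 := h1 (MvPolynomial.mem_support_iff.1 hs)
      rw [Finsupp.weight_apply, Finsupp.sum] at h2
      simpa using h2
    rw [hdeg, Polynomial.C_mul, map_prod]
    simp only [map_pow]
    rw [Polynomial.algebraMap_apply]
    ring
  have h1 : aeval (fun l => (Polynomial.X : Polynomial E1) * Polynomial.C (ζ l)) P = 0 := by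
    apply IsFractionRing.injective (Polynomial E1) E
    rw [map_zero, ← hP]
    have h2 := MvPolynomial.comp_aeval_apply (fun l => (Polynomial.X : Polynomial E1) *
      Polynomial.C (ζ l)) (IsScalarTower.toAlgHom k (Polynomial E1) E) P
    rw [IsScalarTower.coe_toAlgHom'] at h2
    rw [h2]
    congr 2
    funext l
    rw [map_mul]
    congr 1
  have h2 : ∑ m ∈ Finset.range (P.totalDegree + 1),
      Polynomial.C (aeval ζ (homogeneousComponent m P)) * (Polynomial.X : Polynomial E1) ^ m =
      0 := by
    rw [← h1]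
    conv_rhs => rw [← sum_homogeneousComponent P, map_sum]
    exact Finset.sum_congr rfl fun m _ => (hhom m).symm
  have h3 : ∀ m ∈ Finset.range (P.totalDegree + 1), aeval ζ (homogeneousComponent m P) = 0 := by
    intro m hm
    have h4 := congrArg (fun p => Polynomial.coeff p m) h2
    simp only [Polynomial.finsetSum_coeff, Polynomial.coeff_C_mul_X_pow,
      Polynomial.coeff_zero] at h4
    rw [Finset.sum_ite_eq (Finset.range (P.totalDegree + 1)) m, if_pos hm] at h4
    exact h4
  rw [← sum_homogeneousComponent P]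
  refine Ideal.sum_mem _ fun m hm => ?_
  by_contra hnot
  refine hgen _ m (homogeneousComponent_isHomogeneous m P) hnot ?_
  apply IsFractionRing.injective (Polynomial 𝕂) E1
  rw [map_zero, ← h3 m hm]
  have h5 := MvPolynomial.comp_aeval_apply φ
    (IsScalarTower.toAlgHom k (Polynomial 𝕂) E1) (homogeneousComponent m P)
  rw [IsScalarTower.coe_toAlgHom'] at h5
  exact h5

/-- **the Gauss map along a curve which is generic over `k`** -/
theorem core2 {k 𝕂 : Type} [Field k] [Field 𝕂] [CharZero 𝕂] [Algebra k 𝕂] {M g q w n' ν d : ℕ}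
    (G : Fin g → MvPolynomial (Fin M) k) (e : Fin g → ℕ) (hG : ∀ i, (G i).IsHomogeneous (e i))
    (hsm : Sm (n' + 1) G) (F : Fin q → Fin w → MvPolynomial (Fin M) k) (δ : Fin q → ℕ)
    (hF : ∀ i j, (F i j).IsHomogeneous (δ i)) (hnc : NCD G F)
    (φ : Fin M → Polynomial 𝕂) (hd0 : 1 ≤ d) (hd : ∀ l, (φ l).natDegree ≤ d)
    (hnon : ∃ l l', φ l * Polynomial.derivative (φ l') - φ l' * Polynomial.derivative (φ l) ≠ 0)
    (hgen : ∀ (P : MvPolynomial (Fin M) k) (m : ℕ), P.IsHomogeneous m →
      P ∉ Ideal.span (Set.range G) → aeval φ P ≠ 0)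
    (hX : ∀ i, aeval φ (G i) = 0)
    (β : Fin ν → 𝕂) (hβ : Function.Injective β) (hz : ∀ a, ∃ l, (φ l).eval (β a) ≠ 0)
    (m : Fin ν → Fin q → ℕ)
    (hm : ∀ a i j, (Polynomial.X - Polynomial.C (β a)) ^ (m a i) ∣ aeval φ (F i j)) :
    2 + ∑ a, (∑ i, m a i - 1) ≤ (n' + 2) * d ∧ ∃ Γ : (Fin (n' + 2) → Fin M) → Polynomial 𝕂,
      GC G φ ((n' + 2) * d - 2 - ∑ a, (∑ i, m a i - 1)) Γ := by
  classical
  let E1 := FractionRing (Polynomial 𝕂)
  let E := FractionRing (Polynomial E1)
  have hinj : Function.Injective (algebraMap 𝕂 E) := (algebraMap 𝕂 E).injective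
  have hchar : CharZero E := charZero_of_injective_algebraMap hinj
  set y : E := algebraMap E1 E (algebraMap (Polynomial 𝕂) E1 Polynomial.X) with hy
  have hyev : ∀ p : Polynomial 𝕂, (p.map (algebraMap 𝕂 E)).eval y =
      algebraMap E1 E (algebraMap (Polynomial 𝕂) E1 p) := by
    intro p
    rw [Polynomial.eval_map_algebraMap]
    induction p using Polynomial.induction_on' with
    | add p q hp hq => rw [map_add, hp, hq, map_add, map_add]
    | monomial m a =>
      rw [Polynomial.aeval_monomial, ← Polynomial.C_mul_X_pow_eq_monomial, map_mul, map_mul,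
        map_pow, map_pow, ← hy]
      congr 1
  have hinj2 : Function.Injective fun p : Polynomial 𝕂 =>
      algebraMap E1 E (algebraMap (Polynomial 𝕂) E1 p) :=
    (algebraMap E1 E).injective.comp (IsFractionRing.injective (Polynomial 𝕂) E1)
  have hμ : algebraMap (Polynomial E1) E Polynomial.X ≠ 0 :=
    (map_ne_zero_iff _ (IsFractionRing.injective (Polynomial E1) E)).2 Polynomial.X_ne_zero
  have hgen' := scaled_gen' G φ hgen
  obtain ⟨h1, Γ, h2⟩ := core (E := E) G e hG hsm F δ hF hnc
    (fun l => (φ l).map (algebraMap 𝕂 E)) hd0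
    (fun l => (Polynomial.natDegree_map_le).trans (hd l)) y
    (algebraMap (Polynomial E1) E Polynomial.X) hμ (by
      intro P hP
      refine hgen' P ?_
      rw [← hP]
      congr 2
      funext l
      rw [hyev]) (by
      intro i
      rw [← aeval_mapA, hX, Polynomial.map_zero]) (by
      obtain ⟨l, l', hll⟩ := hnon
      have h3 : (fun p : Polynomial 𝕂 => algebraMap E1 E (algebraMap (Polynomial 𝕂) E1 p))
          (φ l * Polynomial.derivative (φ l') - φ l' * Polynomial.derivative (φ l)) ≠ 0 := by
        intro h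
        apply hll
        apply hinj2
        rw [h]
        simp
      simp only [map_sub, map_mul] at h3
      rw [LinearIndependent.pair_iff]
      intro c c' hcc
      have e1 := congrFun hcc l
      have e2 := congrFun hcc l'
      simp only [Pi.add_apply, Pi.smul_apply, smul_eq_mul, Pi.zero_apply,
        Polynomial.derivative_map, hyev] at e1 e2
      constructor
      · refine (mul_eq_zero.1 ?_).resolve_right h3
        linear_combination (algebraMap E1 E (algebraMap (Polynomial 𝕂) E1
          (Polynomial.derivative (φ l')))) * e1 - (algebraMap E1 E (algebraMap (Polynomial 𝕂) E1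
          (Polynomial.derivative (φ l)))) * e2
      · refine (mul_eq_zero.1 ?_).resolve_right h3
        linear_combination (algebraMap E1 E (algebraMap (Polynomial 𝕂) E1 (φ l))) * e2 -
          (algebraMap E1 E (algebraMap (Polynomial 𝕂) E1 (φ l'))) * e1)
    (fun a => algebraMap 𝕂 E (β a)) (hinj.comp hβ) (by
      intro a
      obtain ⟨l, hl⟩ := hz a
      refine ⟨l, ?_⟩
      rw [Polynomial.eval_map_algebraMap, Polynomial.aeval_algebraMap_apply,
        Polynomial.coe_aeval_eq_eval]
      exact (map_ne_zero_iff _ hinj).2 hl) m (by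
      intro a i j
      have h3 := Polynomial.map_dvd (algebraMap 𝕂 E) (hm a i j)
      rw [Polynomial.map_pow, Polynomial.map_sub, Polynomial.map_X, Polynomial.map_C,
        aeval_mapA] at h3
      exact h3)
  exact ⟨h1, GC_descend G φ Γ h2⟩

end Pool.Agent.H432.RC
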