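import Mathlib
import Pool.Agent.H432.RC.Sys

/-!
The exceptional set for the Gauss map along rational curves with given contacts.
-/

set_option autoImplicit false
set_option linter.unusedSectionVars false

namespace Pool.Agent.H432.RC

open MvPolynomial Filter Pool.Agent.N750

section ultra

variable {α : Type} {𝓕 : Ultrafilter α} {K : Type} [Field K]

/-- evaluation of a polynomial over the ring of functions -/
theorem map_mk_of_ev {P Q : Polynomial (α → K)}
    (h : ∀ᶠ t in (𝓕 : Filter α), P.map (Pi.evalRingHom (fun _ : α => K) t) =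
      Q.map (Pi.evalRingHom (fun _ : α => K) t)) : P.map (mk 𝓕) = Q.map (mk 𝓕) := by
  ext m
  rw [Polynomial.coeff_map, Polynomial.coeff_map, mk_eq]
  filter_upwards [h] with t ht
  have h1 := congrArg (fun p => Polynomial.coeff p m) ht
  simp only [Polynomial.coeff_map] at h1
  exact h1

theorem ev_of_map_mk {P Q : Polynomial (α → K)} (h : P.map (mk 𝓕) = Q.map (mk 𝓕)) :
    ∀ᶠ t in (𝓕 : Filter α), P.map (Pi.evalRingHom (fun _ : α => K) t) =
      Q.map (Pi.evalRingHom (fun _ : α => K) t) := by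
  have h1 := poly_transfer (𝓕 := 𝓕) (P - Q) (by rw [Polynomial.map_sub, h, sub_self])
  filter_upwards [h1] with t ht
  rw [Polynomial.map_sub] at ht
  exact sub_eq_zero.1 ht

/-- the family of polynomials as a polynomial over the ring of functions -/
noncomputable def up (d : ℕ) (p : α → Polynomial K) : Polynomial (α → K) :=
  ∑ m ∈ Finset.range (d + 1), Polynomial.C (fun t => (p t).coeff m) * Polynomial.X ^ m

theorem up_ev {d : ℕ} {p : α → Polynomial K} {t : α} (h : (p t).natDegree ≤ d) :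
    (up d p).map (Pi.evalRingHom (fun _ : α => K) t) = p t := by
  unfold up
  rw [Polynomial.map_sum]
  conv_rhs => rw [Polynomial.as_sum_range' (p t) (d + 1) (Nat.lt_succ_iff.2 h)]
  refine Finset.sum_congr rfl fun m _ => ?_
  rw [Polynomial.map_mul, Polynomial.map_pow, Polynomial.map_X, Polynomial.map_C,
    ← Polynomial.C_mul_X_pow_eq_monomial]
  rfl

theorem up_coeff (d : ℕ) (p : α → Polynomial K) (m : ℕ) :
    (up d p).coeff m = if m < d + 1 then (fun t => (p t).coeff m) else 0 := by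
  unfold up
  rw [Polynomial.finsetSum_coeff]
  simp only [Polynomial.coeff_C_mul_X_pow]
  rw [Finset.sum_ite_eq (Finset.range (d + 1)) m]
  simp only [Finset.mem_range]

theorem up_deg (d : ℕ) (p : α → Polynomial K) : (up d p).natDegree ≤ d := by
  rw [Polynomial.natDegree_le_iff_coeff_eq_zero]
  intro N hN
  rw [up_coeff, if_neg (by omega)]

end ultra

/-- **the exceptional set for the Gauss map and the contacts along rational curves** -/
theorem geo {k K : Type} [Field k] [Field K] [CharZero K] [Algebra k K] {M g q w n' : ℕ}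
    (G : Fin g → MvPolynomial (Fin M) k) (e : Fin g → ℕ) (hG : ∀ i, (G i).IsHomogeneous (e i))
    (hI : (Ideal.span (Set.range G)).IsPrime) (hsm : Sm (n' + 1) G)
    (F : Fin q → Fin w → MvPolynomial (Fin M) k) (δ : Fin q → ℕ)
    (hF : ∀ i j, (F i j).IsHomogeneous (δ i)) (hnc : NCD G F) (d ν N : ℕ) (hd0 : 1 ≤ d) :
    ∃ (mΦ : ℕ) (Φ : MvPolynomial (Fin M) k), Φ.IsHomogeneous mΦ ∧
      Φ ∉ Ideal.span (Set.range G) ∧ ∀ φ : Fin M → Polynomial K,
      (∀ l, (φ l).natDegree ≤ d) →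
      (∃ l l', φ l * Polynomial.derivative (φ l') - φ l' * Polynomial.derivative (φ l) ≠ 0) →
      (∀ i, aeval φ (G i) = 0) → aeval φ Φ ≠ 0 →
      ∀ β : Fin ν → K, Function.Injective β → (∀ a, ∃ l, (φ l).eval (β a) ≠ 0) →
      ∀ m : Fin ν → Fin q → ℕ, (∀ a i, m a i ≤ N) →
      (∀ a i j, (Polynomial.X - Polynomial.C (β a)) ^ (m a i) ∣ aeval φ (F i j)) →
      2 + ∑ a, (∑ i, m a i - 1) ≤ (n' + 2) * d ∧ ∃ Γ : (Fin (n' + 2) → Fin M) → Polynomial K,
        GC G φ ((n' + 2) * d - 2 - ∑ a, (∑ i, m a i - 1)) Γ := by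
  classical
  by_contra hcon
  push Not at hcon
  let PP : Type := {P : MvPolynomial (Fin M) k // (∃ m, P.IsHomogeneous m) ∧
    P ∉ Ideal.span (Set.range G)}
  let α : Type := Finset PP
  have hprod : ∀ s : α, (∃ m, (∏ P ∈ s, P.1).IsHomogeneous m) ∧
      (∏ P ∈ s, P.1) ∉ Ideal.span (Set.range G) := by
    intro s
    constructor
    · choose m hm using fun P : PP => P.2.1
      exact ⟨_, MvPolynomial.IsHomogeneous.prod s (fun P => P.1) (fun P => m P) fun P _ => hm P⟩
    · intro h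
      rw [hI.prod_mem_iff] at h
      obtain ⟨P, -, hP⟩ := h
      exact P.2.2 hP
  have hviol : ∀ s : α, ∃ (φ : Fin M → Polynomial K) (β : Fin ν → K)
      (m : Fin ν → Fin q → Fin (N + 1)),
      (∀ l, (φ l).natDegree ≤ d) ∧
      (∃ l l', φ l * Polynomial.derivative (φ l') - φ l' * Polynomial.derivative (φ l) ≠ 0) ∧
      (∀ i, aeval φ (G i) = 0) ∧ aeval φ (∏ P ∈ s, P.1) ≠ 0 ∧
      Function.Injective β ∧ (∀ a, ∃ l, (φ l).eval (β a) ≠ 0) ∧
      (∀ a i j, (Polynomial.X - Polynomial.C (β a)) ^ ((m a i).1) ∣ aeval φ (F i j)) ∧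
      ¬ (2 + ∑ a, (∑ i, (m a i).1 - 1) ≤ (n' + 2) * d ∧
        ∃ Γ : (Fin (n' + 2) → Fin M) → Polynomial K,
        GC G φ ((n' + 2) * d - 2 - ∑ a, (∑ i, (m a i).1 - 1)) Γ) := by
    intro s
    obtain ⟨⟨mm, hmm⟩, hΦ⟩ := hprod s
    obtain ⟨φ, h1, h2, h3, h4, β, h5, h6, m, h7, h8, h9⟩ := hcon mm _ hmm hΦ
    refine ⟨φ, β, fun a i => ⟨m a i, Nat.lt_succ_of_le (h7 a i)⟩, h1, h2, h3, h4, h5, h6, h8, ?_⟩
    rintro ⟨h10, Γ, h11⟩
    exact h9 h10 Γ h11
  choose φ β m h1 h2 h3 h4 h5 h6 h7 h8 using hviol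
  obtain ⟨𝓕, h𝓕⟩ : ∃ 𝓕 : Ultrafilter α, (𝓕 : Filter α) ≤ atTop :=
    ⟨Ultrafilter.of atTop, Ultrafilter.of_le atTop⟩
  obtain ⟨m0, hm0⟩ := exists_val (𝓕 := 𝓕) m
  obtain ⟨⟨l0, l1⟩, hll⟩ : ∃ x : Fin M × Fin M, ∀ᶠ s in (𝓕 : Filter α),
      φ s x.1 * Polynomial.derivative (φ s x.2) - φ s x.2 * Polynomial.derivative (φ s x.1) ≠
        0 := by
    choose l0 l1 hl using h2
    obtain ⟨x, hx⟩ := exists_val (𝓕 := 𝓕) (fun s => (l0 s, l1 s))
    refine ⟨x, ?_⟩
    filter_upwards [hx] with s hs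
    have := hl s
    rw [← hs]
    exact this
  let 𝕂 := Gm 𝓕 K
  let _ : Algebra k 𝕂 := ((algebraMap K 𝕂).comp (algebraMap k K)).toAlgebra
  have htow : IsScalarTower k K 𝕂 := IsScalarTower.of_algebraMap_eq fun x => rfl
  have hchar : CharZero 𝕂 := charZero_of_injective_algebraMap (algebraMap K 𝕂).injective
  let mkA : (α → K) →ₐ[k] 𝕂 := { mk 𝓕 with commutes' := fun c => rfl }
  let evA : ∀ s : α, (α → K) →ₐ[k] K := fun s =>
    { Pi.evalRingHom (fun _ : α => K) s with commutes' := fun c => rfl }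
  set φu : Fin M → Polynomial (α → K) := fun l => up d (fun s => φ s l) with hφu
  set φ' : Fin M → Polynomial 𝕂 := fun l => (φu l).map (mk 𝓕) with hφ'
  have hφev : ∀ s l, (φu l).map (Pi.evalRingHom (fun _ : α => K) s) = φ s l :=
    fun s l => up_ev (h1 s l)
  have hmkp : ∀ P : MvPolynomial (Fin M) k, (aeval φu P).map (mk 𝓕) = aeval φ' P := fun P =>
    aeval_mapP mkA φu P
  have hevp : ∀ (P : MvPolynomial (Fin M) k) (s : α),
      (aeval φu P).map (Pi.evalRingHom (fun _ : α => K) s) = aeval (φ s) P := by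
    intro P s
    have e1 := aeval_mapP (evA s) φu P
    have e2 : (fun l => (φu l).map ((evA s : (α → K) →ₐ[k] K) : (α → K) →+* K)) = φ s := by
      funext l
      exact hφev s l
    rw [e2] at e1
    exact e1
  -- the curve is generic
  have hgen : ∀ (P : MvPolynomial (Fin M) k) (m : ℕ), P.IsHomogeneous m →
      P ∉ Ideal.span (Set.range G) → aeval φ' P ≠ 0 := by
    intro P m hPm hPI hzero
    rw [← hmkp] at hzero
    have e1 := poly_transfer _ hzero
    have e2 : ∀ᶠ s in (𝓕 : Filter α), ({⟨P, ⟨m, hPm⟩, hPI⟩} : Finset PP) ≤ s :=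
      h𝓕 (eventually_ge_atTop _)
    obtain ⟨s, hs1, hs2⟩ := (e1.and e2).exists
    rw [hevp] at hs1
    apply h4 s
    rw [map_prod]
    exact Finset.prod_eq_zero (hs2 (Finset.mem_singleton_self _)) hs1
  have hX' : ∀ i, aeval φ' (G i) = 0 := by
    intro i
    rw [← hmkp]
    have e1 : (aeval φu (G i)).map (mk 𝓕) = (0 : Polynomial (α → K)).map (mk 𝓕) := by
      refine map_mk_of_ev (Eventually.of_forall fun s => ?_)
      rw [hevp, h3, Polynomial.map_zero]
    rw [e1, Polynomial.map_zero]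
  have hdeg' : ∀ l, (φ' l).natDegree ≤ d := fun l =>
    (Polynomial.natDegree_map_le).trans (up_deg d _)
  have hnon' : ∃ l l', φ' l * Polynomial.derivative (φ' l') -
      φ' l' * Polynomial.derivative (φ' l) ≠ 0 := by
    refine ⟨l0, l1, fun h => ?_⟩
    have e1 : (φu l0 * Polynomial.derivative (φu l1) -
        φu l1 * Polynomial.derivative (φu l0)).map (mk 𝓕) = 0 := by
      rw [← h, Polynomial.map_sub, Polynomial.map_mul, Polynomial.map_mul,
        ← Polynomial.derivative_map, ← Polynomial.derivative_map]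
    obtain ⟨s, hs1, hs2⟩ := ((poly_transfer _ e1).and hll).exists
    apply hs2
    rw [Polynomial.map_sub, Polynomial.map_mul, Polynomial.map_mul,
        ← Polynomial.derivative_map, ← Polynomial.derivative_map, hφev, hφev] at hs1
    exact hs1
  -- the points
  set β' : Fin ν → 𝕂 := fun a => mk 𝓕 (fun s => β s a) with hβ'
  have hβinj : Function.Injective β' := by
    intro a a' h
    obtain ⟨s, hs⟩ := (mk_eq.1 h).exists
    exact h5 s hs
  have hevz : ∀ a l, (φ' l).eval (β' a) = mk 𝓕 (fun s => (φ s l).eval (β s a)) := by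
    intro a l
    have e1 : (φ' l).eval (β' a) = mk 𝓕 ((φu l).eval (fun s => β s a)) := by
      rw [hφ', hβ']
      simp only
      rw [Polynomial.eval_map, Polynomial.eval₂_at_apply]
    rw [e1]
    congr 1
    funext s
    have e2 : (φu l).eval (fun s => β s a) s =
        Pi.evalRingHom (fun _ : α => K) s ((φu l).eval (fun s => β s a)) := rfl
    rw [e2, ← Polynomial.eval₂_at_apply, ← Polynomial.eval_map, hφev]
    rfl
  have hz' : ∀ a, ∃ l, (φ' l).eval (β' a) ≠ 0 := by
    intro a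
    choose l hl using fun s => h6 s a
    obtain ⟨x, hx⟩ := exists_val (𝓕 := 𝓕) l
    refine ⟨x, ?_⟩
    rw [hevz]
    refine mk_ne_zero.2 ?_
    filter_upwards [hx] with s hs
    rw [← hs]
    exact hl s
  have hm' : ∀ a i j, (Polynomial.X - Polynomial.C (β' a)) ^ ((m0 a i).1) ∣
      aeval φ' (F i j) := by
    intro a i j
    choose Q hQ using fun s => h7 s a i j
    set D0 := (aeval φu (F i j)).natDegree with hD0
    have hQd : ∀ s, (Q s).natDegree ≤ D0 := by
      intro s
      by_cases hQ0 : Q s = 0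
      · rw [hQ0, Polynomial.natDegree_zero]
        exact Nat.zero_le _
      · have e1 : (aeval (φ s) (F i j)).natDegree ≤ D0 := by
          rw [← hevp]
          exact Polynomial.natDegree_map_le
        rw [hQ s, Polynomial.natDegree_mul (pow_ne_zero _ (Polynomial.X_sub_C_ne_zero _)) hQ0]
          at e1
        omega
    refine ⟨(up D0 Q).map (mk 𝓕), ?_⟩
    rw [← hmkp]
    have e1 : (aeval φu (F i j)).map (mk 𝓕) =
        ((Polynomial.X - Polynomial.C (fun s => β s a)) ^ ((m0 a i).1) * up D0 Q).map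
          (mk 𝓕) := by
      refine map_mk_of_ev ?_
      filter_upwards [hm0] with s hs
      rw [hevp, Polynomial.map_mul, Polynomial.map_pow, Polynomial.map_sub, Polynomial.map_X,
        Polynomial.map_C, up_ev (hQd s), ← hs]
      exact hQ s
    rw [e1, Polynomial.map_mul, Polynomial.map_pow, Polynomial.map_sub, Polynomial.map_X,
      Polynomial.map_C]
  obtain ⟨hTn, Γ, hΓ0, hΓd, hΓa, hΓc⟩ := core2 (𝕂 := 𝕂) G e hG hsm F δ hF hnc φ' hd0 hdeg' hnon'
    hgen hX' β' hβinj hz' (fun a i => (m0 a i).1) hm'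
  -- lifting the solution
  choose lift hlift using fun x : 𝕂 => mk_surj x
  set D1 : ℕ := (n' + 2) * d - 2 - ∑ a, (∑ i, (m0 a i).1 - 1) with hD1
  set Γ' : (Fin (n' + 2) → Fin M) → Polynomial (α → K) := fun J =>
    ∑ m ∈ Finset.range (D1 + 1), Polynomial.C (lift ((Γ J).coeff m)) *
      Polynomial.X ^ m with hΓ'
  have hΓ'mk : ∀ J, (Γ' J).map (mk 𝓕) = Γ J := by
    intro J
    conv_rhs => rw [Polynomial.as_sum_range' (Γ J) (D1 + 1)
      (Nat.lt_succ_iff.2 (hΓd J))]
    rw [hΓ']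
    simp only
    rw [Polynomial.map_sum]
    refine Finset.sum_congr rfl fun m _ => ?_
    rw [Polynomial.map_mul, Polynomial.map_pow, Polynomial.map_X, Polynomial.map_C, hlift,
      Polynomial.C_mul_X_pow_eq_monomial]
  obtain ⟨J0, hJ0⟩ : ∃ J, ∀ᶠ s in (𝓕 : Filter α),
      (Γ' J).map (Pi.evalRingHom (fun _ : α => K) s) ≠ 0 := by
    obtain ⟨J, hJ⟩ := hΓ0
    refine ⟨J, ?_⟩
    by_contra hne
    rw [Ultrafilter.eventually_not, not_not] at hne
    apply hJ
    rw [← hΓ'mk J]
    have e1 := map_mk_of_ev (𝓕 := 𝓕) (P := Γ' J) (Q := 0) (by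
      filter_upwards [hne] with s hs
      rw [hs, Polynomial.map_zero])
    rw [e1, Polynomial.map_zero]
  have halt : ∀ᶠ s in (𝓕 : Filter α), ∀ x : (Fin (n' + 2) → Fin M) × Fin (n' + 2) × Fin (n' + 2),
      x.2.1 ≠ x.2.2 → (Γ' (x.1 ∘ Equiv.swap x.2.1 x.2.2) + Γ' x.1).map
        (Pi.evalRingHom (fun _ : α => K) s) = 0 := by
    rw [Filter.eventually_all]
    rintro ⟨J, i, j⟩
    by_cases hij : i = j
    · exact Eventually.of_forall fun s h => absurd hij h
    · have e1 := poly_transfer (𝓕 := 𝓕) (Γ' (J ∘ Equiv.swap i j) + Γ' J) (by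
        rw [Polynomial.map_add, hΓ'mk, hΓ'mk, hΓa J i j hij, neg_add_cancel])
      filter_upwards [e1] with s hs _
      exact hs
  have hcontr : ∀ᶠ s in (𝓕 : Filter α), ∀ x : Fin g × (Fin (n' + 2) → Fin M),
      (∑ l, aeval φu (pderiv l (G x.1)) * Γ' (Function.update x.2 0 l)).map
        (Pi.evalRingHom (fun _ : α => K) s) = 0 := by
    rw [Filter.eventually_all]
    rintro ⟨i, J⟩
    refine poly_transfer _ ?_
    rw [Polynomial.map_sum, ← hΓc i J]
    refine Finset.sum_congr rfl fun l _ => ?_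
    rw [Polynomial.map_mul, hmkp, hΓ'mk]
  obtain ⟨s, hs1, hs2, hs3, hs4⟩ := (hm0.and (hJ0.and (halt.and hcontr))).exists
  apply h8 s
  have e0 : ∀ a i, (m s a i).1 = (m0 a i).1 := by
    intro a i
    rw [hs1]
  simp only [e0]
  refine ⟨hTn, fun J => (Γ' J).map (Pi.evalRingHom (fun _ : α => K) s), ⟨J0, hs2⟩, ?_, ?_, ?_⟩
  · intro J
    refine (Polynomial.natDegree_map_le).trans ?_
    rw [hΓ']
    refine Polynomial.natDegree_sum_le_of_forall_le _ _ fun m hm => ?_
    refine (Polynomial.natDegree_C_mul_X_pow_le _ _).trans ?_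
    exact Nat.lt_succ_iff.1 (Finset.mem_range.1 hm)
  · intro J i j hij
    have e3 := hs3 (J, i, j) hij
    rw [Polynomial.map_add] at e3
    exact eq_neg_of_add_eq_zero_left e3
  · intro i J
    have e3 := hs4 (i, J)
    rw [Polynomial.map_sum] at e3
    rw [← e3]
    refine Finset.sum_congr rfl fun l _ => ?_
    rw [Polynomial.map_mul, hevp]

end Pool.Agent.H432.RC
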