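import Mathlib
import Pool.Agent.H432.RC.Ep
import Pool.Agent.H432.RC.Geo
import Pool.Graph.R_pool_sql_team_seeded_63374d34.N750.HtC
import Pool.Graph.R_pool_sql_team_seeded_63374d34.N750.Glb
import Pool.Graph.R_pool_sql_team_seeded_63374d34.N750.Trf

/-!
The proximity function and the heights along a rational curve with slow coefficients.
-/

set_option autoImplicit false
set_option linter.unusedSectionVars false

open Filter Topology

namespace Pool.Agent.H432.RC

open NumberField IsDedekindDomain Height Module MvPolynomial Pool.Agent.N750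
open Pool.Agent.W180.OP (Pl av wt nrm le_nrm nrm_pos wt_nonneg exists_nrm nrm_nonneg)

section alg

variable {k : Type} [Field k] {M : ℕ}

/-- the degree of a form along a curve -/
theorem aeval_deg {R : Type} [CommRing R] [Algebra k R] {P : MvPolynomial (Fin M) k} {e d : ℕ}
    (hP : P.IsHomogeneous e) (φ : Fin M → Polynomial R) (hφ : ∀ l, (φ l).natDegree ≤ d) :
    (aeval φ P).natDegree ≤ e * d := by
  rw [aeval_def, eval₂_eq]
  refine Polynomial.natDegree_sum_le_of_forall_le _ _ fun m hm => ?_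
  refine (Polynomial.natDegree_mul_le).trans ?_
  have h1 : (algebraMap k (Polynomial R) (coeff m P)).natDegree = 0 := by
    rw [Polynomial.algebraMap_apply]
    exact Polynomial.natDegree_C _
  rw [h1, zero_add]
  refine (Polynomial.natDegree_prod_le _ _).trans ?_
  have hdeg : ∑ i ∈ m.support, m i = e := by
    have h2 := hP (MvPolynomial.mem_support_iff.1 hm)
    rw [Finsupp.weight_apply, Finsupp.sum] at h2
    simpa using h2
  rw [← hdeg, Finset.sum_mul]
  refine Finset.sum_le_sum fun i _ => ?_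
  exact (Polynomial.natDegree_pow_le).trans (Nat.mul_le_mul_left _ (hφ i))

end alg

variable {K α : Type} [Field K] [NumberField K] {𝓕 : Ultrafilter α} {H : α → ℝ}
  {𝕊 : Type} [Field 𝕊] [Algebra 𝕊 (Gm 𝓕 K)]

/-- germs of large height are transcendental over the slow field -/
theorem transc (hH : Tendsto H 𝓕 atTop) (rp : 𝕊 → α → K) (hr1 : ∀ s, Slow 𝓕 H (rp s))
    (hr2 : ∀ s, mk 𝓕 (rp s) = algebraMap 𝕊 (Gm 𝓕 K) s) (τ : α → K)
    (hτ : ∀ᶠ t in (𝓕 : Filter α), H t ≤ logHeight ![1, τ t]) (P : Polynomial 𝕊) (hP : P ≠ 0) :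
    Polynomial.aeval (mk 𝓕 τ) P ≠ 0 := by
  intro h0
  have h1 : ∀ᶠ t in (𝓕 : Filter α), ep rp τ P t = 0 := by
    refine ep_congr rp hr2 τ (f := fun _ => 0) ?_
    rw [h0]
    exact (map_zero (mk 𝓕)).symm
  have h2 : ∀ᶠ t in (𝓕 : Filter α), rp (P.coeff P.natDegree) t ≠ 0 := by
    refine mk_ne_zero.1 ?_
    rw [hr2]
    exact (map_ne_zero _).2 (Polynomial.leadingCoeff_ne_zero.2 hP)
  have h3 : ∀ᶠ t in (𝓕 : Filter α), logHeight (fun m : Fin (P.natDegree + 1) =>
      rp (P.coeff m.1) t) ≤ 1 / 4 * H t :=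
    slow_vec hH (a := fun (m : Fin (P.natDegree + 1)) => rp (P.coeff m.1))
      (fun m => hr1 _) (by norm_num)
  obtain ⟨t, e1, e2, e3, e4, e5, e6⟩ := (h1.and (h2.and (h3.and (hτ.and
    ((hH.eventually_ge_atTop ((finrank ℚ K * Real.log (P.natDegree + 1)) * 4)).and
      (hH.eventually_ge_atTop 1)))))).exists
  set R : Polynomial K := ∑ m ∈ Finset.range (P.natDegree + 1),
    Polynomial.C (rp (P.coeff m) t) * Polynomial.X ^ m with hR
  have hRc : ∀ m, m < P.natDegree + 1 → R.coeff m = rp (P.coeff m) t := by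
    intro m hm
    rw [hR, Polynomial.finsetSum_coeff]
    simp only [Polynomial.coeff_C_mul_X_pow]
    rw [Finset.sum_ite_eq (Finset.range (P.natDegree + 1)) m,
      if_pos (Finset.mem_range.2 hm)]
  have hR0 : R ≠ 0 := by
    intro h
    apply e2
    rw [← hRc _ (Nat.lt_succ_self _), h, Polynomial.coeff_zero]
  have hRd : R.natDegree ≤ P.natDegree := by
    rw [hR]
    refine Polynomial.natDegree_sum_le_of_forall_le _ _ fun m hm => ?_
    refine (Polynomial.natDegree_C_mul_X_pow_le _ _).trans ?_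
    exact Nat.lt_succ_iff.1 (Finset.mem_range.1 hm)
  have hRτ : Polynomial.aeval (τ t) R = 0 := by
    rw [hR, map_sum, ← e1]
    unfold ep
    refine Finset.sum_congr rfl fun m _ => ?_
    rw [map_mul, map_pow, Polynomial.aeval_C, Polynomial.aeval_X]
    rfl
  have h4 := root_ht P.natDegree R hR0 hRd (τ t) hRτ
  rw [Module.finrank_self, Nat.cast_one, one_mul] at h4
  have h5 : (fun m : Fin (P.natDegree + 1) => R.coeff m.1) =
      fun m : Fin (P.natDegree + 1) => rp (P.coeff m.1) t := by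
    funext m
    exact hRc m.1 m.2
  rw [h5] at h4
  linarith

/-- **the theorem of Roth with weights** -/
theorem roth (rp : 𝕊 → α → K) (τ : α → K)
    (hH : Tendsto (fun t => logHeight ![1, τ t]) 𝓕 atTop)
    (hr1 : ∀ s, Slow 𝓕 (fun t => logHeight ![1, τ t]) (rp s))
    (hr2 : ∀ s, mk 𝓕 (rp s) = algebraMap 𝕊 (Gm 𝓕 K) s) {ν : ℕ} (b : Fin ν → 𝕊)
    (hb : Function.Injective b) (μ : Fin ν → ℕ) (hμ : ∀ a, 1 ≤ μ a) (S : Finset (Pl K)) (ε : ℝ)
    (hε : 0 < ε) :
    ∀ᶠ t in (𝓕 : Filter α), ∑ p ∈ S, wt p * ∑ a, (μ a : ℝ) *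
      (Real.log (nrm (av p) ![1, τ t]) - Real.log (av p (τ t - rp (b a) t))) ≤
      (2 + ∑ a, ((μ a - 1 : ℕ) : ℝ) + ε) * logHeight ![1, τ t] := by
  classical
  have hne : ∀ a, ∀ᶠ t in (𝓕 : Filter α), τ t - rp (b a) t ≠ 0 := by
    intro a
    have h1 := transc hH rp hr1 hr2 τ (Eventually.of_forall fun t => le_rfl)
      (Polynomial.X - Polynomial.C (b a)) (Polynomial.X_sub_C_ne_zero _)
    have h2 : Polynomial.aeval (mk 𝓕 τ) (Polynomial.X - Polynomial.C (b a)) =
        mk 𝓕 (fun t => τ t - rp (b a) t) := by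
      rw [map_sub, Polynomial.aeval_X, Polynomial.aeval_C, ← hr2, ← map_sub]
      rfl
    rw [h2] at h1
    exact mk_ne_zero.1 h1
  set f : Fin 2 → α → K := fun j t => ![1, τ t] j with hf
  have hfv : ∀ t, (fun j => f j t) = ![1, τ t] := fun t => rfl
  have hbev : ∀ (a : Fin ν) t, bev 1 (fun j => f j t) 1 (-(rp (b a) t)) = τ t - rp (b a) t := by
    intro a t
    unfold bev
    rw [Fin.sum_univ_two]
    show 1 * ((1 : K) ^ 0 * (-(rp (b a) t)) ^ (1 - 0)) +
      τ t * ((1 : K) ^ 1 * (-(rp (b a) t)) ^ (1 - 1)) = τ t - rp (b a) t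
    norm_num
    ring
  have hE : ∀ a, ∀ᶠ t in (𝓕 : Filter α),
      bev 1 (fun j => f j t) ((fun _ _ => 1 : Fin ν → α → K) a t)
        ((fun a t => -(rp (b a) t) : Fin ν → α → K) a t) ≠ 0 := by
    intro a
    filter_upwards [hne a] with t ht
    have h1 := hbev a t
    show bev 1 (fun j => f j t) 1 (-(rp (b a) t)) ≠ 0
    rw [h1]
    exact ht
  have hht : ∀ ε : ℝ, 0 < ε → ∀ᶠ t in (𝓕 : Filter α), logHeight (fun j => f j t) ≤
      (1 + ε) * logHeight ![1, τ t] := by
    intro ε hε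
    refine Eventually.of_forall fun t => ?_
    rw [hfv]
    have := logHeight_nonneg ![1, τ t]
    nlinarith
  set B : ℝ := 1 + ∑ a, ((μ a - 1 : ℕ) : ℝ) with hB
  have hB0 : 0 < B := by
    have : (0 : ℝ) ≤ ∑ a, ((μ a - 1 : ℕ) : ℝ) := Finset.sum_nonneg fun _ _ => Nat.cast_nonneg _
    linarith
  have h1 := mov_wirsing hH 1 S (C := Fin ν) (fun _ _ => 1) (fun a t => -(rp (b a) t))
    (fun _ => slow_const hH 1) (fun a => (hr1 (b a)).neg)
    (fun a => Eventually.of_forall fun t => Or.inl one_ne_zero) (by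
      intro a a' haa
      have h2 : mk 𝓕 (rp (b a)) ≠ mk 𝓕 (rp (b a')) := by
        rw [hr2, hr2]
        exact fun h => haa (hb ((algebraMap 𝕊 (Gm 𝓕 K)).injective h))
      have h3 : ∀ᶠ t in (𝓕 : Filter α), rp (b a) t ≠ rp (b a') t := by
        rw [Ne, mk_eq, ← Ultrafilter.eventually_not] at h2
        exact h2
      filter_upwards [h3] with t ht h
      apply ht
      rw [one_mul, one_mul] at h
      exact (neg_injective h).symm) f hE hht (ε / 2) (by linarith)
  have h2 : ∀ a, ∀ᶠ t in (𝓕 : Filter α), ∑ p ∈ S, wt p *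
      (Real.log (nrm (av p) ![1, τ t]) - Real.log (av p (τ t - rp (b a) t))) ≤
      (1 + ε / (2 * B)) * logHeight ![1, τ t] := by
    intro a
    have h3 := wir_one hH 1 S (fun _ => 1) (fun t => -(rp (b a) t)) (slow_const hH 1)
      (hr1 (b a)).neg f (hE a) hht (ε / (2 * B)) (by positivity)
    filter_upwards [h3] with t ht
    simp only [hbev] at ht
    exact ht
  have h3 : ∀ᶠ t in (𝓕 : Filter α), ∀ a, ∑ p ∈ S, wt p *
      (Real.log (nrm (av p) ![1, τ t]) - Real.log (av p (τ t - rp (b a) t))) ≤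
      (1 + ε / (2 * B)) * logHeight ![1, τ t] := by
    rw [Filter.eventually_all]
    exact h2
  filter_upwards [h1, h3] with t e1 e2
  simp only [hbev] at e1
  have e3 : ∑ p ∈ S, wt p * ∑ a, (μ a : ℝ) *
      (Real.log (nrm (av p) ![1, τ t]) - Real.log (av p (τ t - rp (b a) t))) =
      ∑ p ∈ S, ∑ a, wt p * (Real.log (nrm (av p) ![1, τ t]) -
        Real.log (av p (τ t - rp (b a) t))) +
      ∑ a, ((μ a - 1 : ℕ) : ℝ) * ∑ p ∈ S, wt p * (Real.log (nrm (av p) ![1, τ t]) -
        Real.log (av p (τ t - rp (b a) t))) := by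
    simp_rw [Finset.mul_sum]
    conv_rhs => rw [Finset.sum_comm (s := Finset.univ) (t := S)]
    rw [← Finset.sum_add_distrib]
    refine Finset.sum_congr rfl fun p _ => ?_
    rw [← Finset.sum_add_distrib]
    refine Finset.sum_congr rfl fun a _ => ?_
    have e4 : (μ a : ℝ) = 1 + ((μ a - 1 : ℕ) : ℝ) := by
      rw [Nat.cast_sub (hμ a)]
      push_cast
      ring
    rw [e4]
    ring
  rw [e3]
  have e5 : ∑ a, ((μ a - 1 : ℕ) : ℝ) * ∑ p ∈ S, wt p * (Real.log (nrm (av p) ![1, τ t]) -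
        Real.log (av p (τ t - rp (b a) t))) ≤
      ∑ a, ((μ a - 1 : ℕ) : ℝ) * ((1 + ε / (2 * B)) * logHeight ![1, τ t]) :=
    Finset.sum_le_sum fun a _ => mul_le_mul_of_nonneg_left (e2 a) (Nat.cast_nonneg _)
  rw [← Finset.sum_mul] at e5
  have e6 : (∑ a, ((μ a - 1 : ℕ) : ℝ)) * (ε / (2 * B)) ≤ ε / 2 := by
    have e7 : (∑ a, ((μ a - 1 : ℕ) : ℝ)) ≤ B := by linarith
    calc (∑ a, ((μ a - 1 : ℕ) : ℝ)) * (ε / (2 * B)) ≤ B * (ε / (2 * B)) :=
          mul_le_mul_of_nonneg_right e7 (by positivity)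
      _ = ε / 2 := by
          field_simp
  have e8 := logHeight_nonneg ![1, τ t]
  have e9 : ∑ p ∈ S, ∑ a, wt p * (Real.log (nrm (av p) ![1, τ t]) -
        Real.log (av p (τ t - rp (b a) t))) ≤ (2 * (1 : ℕ) + ε / 2) * logHeight ![1, τ t] := e1
  push_cast at e9
  nlinarith

end Pool.Agent.H432.RC
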