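import Mathlib
import Pool.Agent.H432.RC.Loc

/-!
The estimate along a rational curve with slow coefficients.
-/

set_option autoImplicit false
set_option linter.unusedSectionVars false

open Filter Topology

namespace Pool.Agent.H432.RC

open NumberField IsDedekindDomain Height Module MvPolynomial Pool.Agent.N750
open Pool.Agent.W180.OP (Pl av wt nrm le_nrm nrm_pos wt_nonneg exists_nrm nrm_nonneg)

variable {k K α : Type} [Field k] [Field K] [NumberField K] [Algebra k K] {𝓕 : Ultrafilter α}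
  {𝕊 : Type} [Field 𝕊] [CharZero 𝕊] [Algebra k 𝕊] [Algebra K 𝕊] [IsScalarTower k K 𝕊]
  [Algebra 𝕊 (Gm 𝓕 K)] [Algebra k (Gm 𝓕 K)] [IsScalarTower k K (Gm 𝓕 K)]
  [IsScalarTower k 𝕊 (Gm 𝓕 K)] {M g q w n' ν d : ℕ}

/-- the values of forms along the curve -/
theorem ep_aeval (rp : 𝕊 → α → K) (hr2 : ∀ s, mk 𝓕 (rp s) = algebraMap 𝕊 (Gm 𝓕 K) s)
    (τ : α → K) (φ : Fin M → Polynomial 𝕊) (P : MvPolynomial (Fin M) k) :
    ∀ᶠ t in (𝓕 : Filter α), ep rp τ (aeval φ P) t =
      aeval (fun l => ep rp τ (φ l) t) P := by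
  refine ep_congr rp hr2 τ ?_
  have h1 : (fun t => aeval (fun l => ep rp τ (φ l) t) P) =
      fun t => aeval (fun l => (fun l t => ep rp τ (φ l) t) l t) P := rfl
  rw [h1, ← aeval_mk]
  have h2 : (fun l => mk 𝓕 ((fun l t => ep rp τ (φ l) t) l)) =
      fun l => Polynomial.aeval (mk 𝓕 τ) (φ l) := by
    funext l
    exact mk_ep rp hr2 τ (φ l)
  rw [h2]
  have h3 := MvPolynomial.comp_aeval_apply φ
    ((Polynomial.aeval (mk 𝓕 τ) : Polynomial 𝕊 →ₐ[𝕊] Gm 𝓕 K).restrictScalars k) P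
  exact h3

/-- **the local estimate of the proximity** -/
theorem prox_loc (rp : 𝕊 → α → K) (τ : α → K)
    (hH : Tendsto (fun t => logHeight ![1, τ t]) 𝓕 atTop)
    (hr1 : ∀ s, Slow 𝓕 (fun t => logHeight ![1, τ t]) (rp s))
    (hr2 : ∀ s, mk 𝓕 (rp s) = algebraMap 𝕊 (Gm 𝓕 K) s)
    (F : Fin w → MvPolynomial (Fin M) k) (δ : ℕ) (hF : ∀ j, (F j).IsHomogeneous δ)
    (φ : Fin M → Polynomial 𝕊) (hd : ∀ l, (φ l).natDegree ≤ d)
    (htop : Ideal.span (Set.range φ) = ⊤)
    (b : Fin ν → 𝕊) (m : Fin ν → ℕ) (Q : Fin w → Polynomial 𝕊)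
    (hFQ : ∀ j, aeval φ (F j) =
      (∏ a, (Polynomial.X - Polynomial.C (b a)) ^ m a) * Q j)
    (hQ : Ideal.span (Set.range Q) = ⊤)
    (hlead : ∃ j, (aeval φ (F j)).coeff (δ * d) ≠ 0) (x : α → Fin M → K)
    (hx : ∀ᶠ t in (𝓕 : Filter α), ∀ l, x t l = ep rp τ (φ l) t) (p : Pl K) (ε : ℝ)
    (hε : 0 < ε) :
    ∀ᶠ t in (𝓕 : Filter α), wt p * ((δ : ℝ) * Real.log (nrm (av p) (x t)) -
      Real.log (nrm (av p) (fun j => aeval (x t) (F j)))) ≤
      wt p * ∑ a, (m a : ℝ) * (Real.log (nrm (av p) ![1, τ t]) -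
        Real.log (av p (τ t - rp (b a) t))) + ε * logHeight ![1, τ t] := by
  classical
  set P : Polynomial 𝕊 := ∏ a, (Polynomial.X - Polynomial.C (b a)) ^ m a with hP
  have hPm : P.Monic := Polynomial.monic_prod_of_monic _ _ fun c _ =>
    (Polynomial.monic_X_sub_C _).pow _
  have hPd : P.natDegree = ∑ a, m a := by
    rw [hP, Polynomial.natDegree_prod_of_monic _ _ fun c _ =>
      (Polynomial.monic_X_sub_C _).pow _]
    refine Finset.sum_congr rfl fun c _ => ?_
    rw [Polynomial.natDegree_pow, Polynomial.natDegree_X_sub_C, mul_one]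
  obtain ⟨j0, hj0⟩ := hlead
  have hFd : ∀ j, (aeval φ (F j)).natDegree ≤ δ * d := fun j => aeval_deg (hF j) φ hd
  have hF0 : aeval φ (F j0) ≠ 0 := fun h => hj0 (by rw [h, Polynomial.coeff_zero])
  have hFj0 : (aeval φ (F j0)).natDegree = δ * d :=
    le_antisymm (hFd j0) (Polynomial.le_natDegree_of_ne_zero hj0)
  have hQ0 : Q j0 ≠ 0 := by
    intro h
    apply hF0
    rw [hFQ, h, mul_zero]
  have hdeg0 : (Q j0).natDegree = δ * d - ∑ a, m a ∧ ∑ a, m a ≤ δ * d := by
    have h1 := Polynomial.natDegree_mul hPm.ne_zero hQ0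
    rw [← hFQ, hFj0, hPd] at h1
    omega
  have hQd : ∀ j, (Q j).natDegree ≤ δ * d - ∑ a, m a := by
    intro j
    by_cases h : Q j = 0
    · rw [h, Polynomial.natDegree_zero]
      exact Nat.zero_le _
    · have h1 := Polynomial.natDegree_mul hPm.ne_zero h
      have h2 := hFd j
      rw [hFQ] at h2
      rw [h1, hPd] at h2
      omega
  have hlow := SB_lower hH rp hr1 hr2 τ Q (δ * d - ∑ a, m a) hQd hQ ⟨j0, by
    rw [← hdeg0.1]
    exact Polynomial.leadingCoeff_ne_zero.2 hQ0⟩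
  have hup := SB_ep_vec hH rp hr1 τ φ d hd
  have hQne := ep_vec_ne rp hr2 τ Q hQ
  have hφne := ep_vec_ne rp hr2 τ φ htop
  have l1 := hlow.loc hH (by
    filter_upwards [hQne] with t ht p
    have := nrm2_pos p (τ t)
    have := nrm_pos (av p) ht
    positivity) p (ε / 4) (by linarith)
  have l2 := hup.loc hH (by
    filter_upwards [hφne] with t ht p
    have := nrm2_pos p (τ t)
    have := nrm_pos (av p) ht
    positivity) p (ε / (4 * (δ + 1))) (by positivity)
  -- the factorisation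
  have hfac : ∀ᶠ t in (𝓕 : Filter α), ∀ j, aeval (x t) (F j) =
      (∏ a, (τ t - rp (b a) t) ^ m a) * ep rp τ (Q j) t := by
    rw [Filter.eventually_all]
    intro j
    have e1 : ∀ᶠ t in (𝓕 : Filter α), ep rp τ P t = ∏ a, (τ t - rp (b a) t) ^ m a := by
      refine ep_congr rp hr2 τ ?_
      rw [hP, map_prod]
      have e2 : (fun t => ∏ a, (τ t - rp (b a) t) ^ m a) =
          ∏ a, (τ - rp (b a)) ^ m a := by
        funext t
        rw [Finset.prod_apply]
        rfl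
      rw [e2, map_prod]
      refine Finset.prod_congr rfl fun a _ => ?_
      rw [map_pow, map_sub, Polynomial.aeval_X, Polynomial.aeval_C, map_pow, map_sub, hr2]
    filter_upwards [e1, ep_aeval rp hr2 τ φ (F j), hx, ep_mul rp hr2 τ P (Q j)] with t f1 f2 f3 f4
    have f5 : x t = fun l => ep rp τ (φ l) t := funext fun l => f3 l
    rw [f5, ← f2, hFQ, f4, f1]
  have hne : ∀ᶠ t in (𝓕 : Filter α), ∀ a, τ t - rp (b a) t ≠ 0 := by
    rw [Filter.eventually_all]
    intro a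
    have h1 := transc hH rp hr1 hr2 τ (Eventually.of_forall fun t => le_rfl)
      (Polynomial.X - Polynomial.C (b a)) (Polynomial.X_sub_C_ne_zero _)
    have h2 : Polynomial.aeval (mk 𝓕 τ) (Polynomial.X - Polynomial.C (b a)) =
        mk 𝓕 (fun t => τ t - rp (b a) t) := by
      rw [map_sub, Polynomial.aeval_X, Polynomial.aeval_C, ← hr2, ← map_sub]
      rfl
    rw [h2] at h1
    exact mk_ne_zero.1 h1
  filter_upwards [l1, l2, hfac, hne, hQne, hφne, hx] with t f1 f2 f3 f4 f5 f6 f7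
  have hxe : x t = fun l => ep rp τ (φ l) t := funext fun l => f7 l
  have hR := nrm2_pos p (τ t)
  set R := nrm (av p) ![1, τ t] with hRdef
  have hRl : 0 ≤ Real.log R := Real.log_nonneg hR
  have hnQ := nrm_pos (av p) f5
  have hnφ := nrm_pos (av p) f6
  rw [← hxe] at f2 hnφ
  -- the norm of the values
  have e1 : (fun j => aeval (x t) (F j)) =
      fun j => (∏ a, (τ t - rp (b a) t) ^ m a) * ep rp τ (Q j) t := funext f3
  have e2 : nrm (av p) (fun j => aeval (x t) (F j)) =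
      av p (∏ a, (τ t - rp (b a) t) ^ m a) * nrm (av p) (fun j => ep rp τ (Q j) t) := by
    rw [e1]
    exact nrm_smul _ _ _
  have e3 : Real.log (av p (∏ a, (τ t - rp (b a) t) ^ m a)) =
      ∑ a, (m a : ℝ) * Real.log (av p (τ t - rp (b a) t)) := by
    rw [map_prod, Real.log_prod (fun a _ => by
      rw [map_pow]
      exact pow_ne_zero _ ((av p).pos_iff.2 (f4 a)).ne')]
    refine Finset.sum_congr rfl fun a _ => ?_
    rw [map_pow, Real.log_pow]
  have e4 : av p (∏ a, (τ t - rp (b a) t) ^ m a) ≠ 0 :=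
    ((av p).pos_iff.2 (Finset.prod_ne_zero_iff.2 fun a _ => pow_ne_zero _ (f4 a))).ne'
  rw [e2, Real.log_mul e4 hnQ.ne', e3]
  rw [Real.log_div (by positivity) hnQ.ne', Real.log_pow] at f1
  rw [Real.log_div hnφ.ne' (by positivity), Real.log_pow] at f2
  have e5 : ((δ * d - ∑ a, m a : ℕ) : ℝ) = δ * d - ∑ a, (m a : ℝ) := by
    rw [Nat.cast_sub hdeg0.2]
    push_cast
    ring
  rw [e5] at f1
  have e6 : wt p * ∑ a, (m a : ℝ) * (Real.log R - Real.log (av p (τ t - rp (b a) t))) =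
      wt p * ((∑ a, (m a : ℝ)) * Real.log R - ∑ a, (m a : ℝ) *
        Real.log (av p (τ t - rp (b a) t))) := by
    congr 1
    rw [Finset.sum_mul, ← Finset.sum_sub_distrib]
    exact Finset.sum_congr rfl fun a _ => by ring
  rw [e6]
  have hδ : (0 : ℝ) ≤ δ := Nat.cast_nonneg _
  have hh := logHeight_nonneg ![1, τ t]
  have e7 := mul_le_mul_of_nonneg_left f2 hδ
  have e8 : (δ : ℝ) * (ε / (4 * (δ + 1)) * logHeight ![1, τ t]) ≤
      ε / 4 * logHeight ![1, τ t] := by
    have e9 : (δ : ℝ) * (ε / (4 * (δ + 1))) ≤ ε / 4 := by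
      rw [mul_div_assoc', div_le_div_iff₀ (by positivity) (by norm_num)]
      nlinarith
    calc (δ : ℝ) * (ε / (4 * (δ + 1)) * logHeight ![1, τ t]) =
        (δ : ℝ) * (ε / (4 * (δ + 1))) * logHeight ![1, τ t] := by ring
      _ ≤ _ := mul_le_mul_of_nonneg_right e9 hh
  have e10 : 0 ≤ ε * logHeight ![1, τ t] := by positivity
  have f1' : wt p * ((δ * d - ∑ a, (m a : ℝ)) * Real.log R - Real.log (nrm (av p) fun j =>
      ep rp τ (Q j) t)) ≤ ε / 4 * logHeight ![1, τ t] := f1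
  have e7' : (δ : ℝ) * (wt p * (Real.log (nrm (av p) (x t)) - d * Real.log R)) ≤
      ε / 4 * logHeight ![1, τ t] := e7.trans e8
  nlinarith

/-- **the height of the Gauss map along the curve** -/
theorem gauss_ht (rp : 𝕊 → α → K) (τ : α → K)
    (hH : Tendsto (fun t => logHeight ![1, τ t]) 𝓕 atTop)
    (hr1 : ∀ s, Slow 𝓕 (fun t => logHeight ![1, τ t]) (rp s))
    (hr2 : ∀ s, mk 𝓕 (rp s) = algebraMap 𝕊 (Gm 𝓕 K) s)
    (G : Fin g → MvPolynomial (Fin M) k) (hsm : Sm (n' + 1) G)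
    (φ : Fin M → Polynomial 𝕊) (D : ℕ) (Γ : (Fin (n' + 2) → Fin M) → Polynomial 𝕊)
    (hΓ : GC G φ D Γ) (x : α → Fin M → K) (hx0 : ∀ᶠ t in (𝓕 : Filter α), x t ≠ 0)
    (hxX : ∀ᶠ t in (𝓕 : Filter α), ∀ i, aeval (x t) (G i) = 0)
    (hx : ∀ᶠ t in (𝓕 : Filter α), ∀ l, x t l = ep rp τ (φ l) t)
    (A : α → Fin M → Fin (n' + 2) → K)
    (hA : ∀ᶠ t in (𝓕 : Filter α), IsTB G (x t) (A t)) (ε : ℝ) (hε : 0 < ε) :
    ∀ᶠ t in (𝓕 : Filter α), logHeight (mv (A t)) ≤ (D + ε) * logHeight ![1, τ t] := by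
  classical
  obtain ⟨⟨J0, hJ0⟩, hdeg, halt, hcontr⟩ := hΓ
  let e := Fintype.equivFin (Fin (n' + 2) → Fin M)
  set V : α → Fin (Fintype.card (Fin (n' + 2) → Fin M)) → K :=
    fun t i => ep rp τ (Γ (e.symm i)) t with hV
  -- nonvanishing
  have hV0 : ∀ᶠ t in (𝓕 : Filter α), ep rp τ (Γ J0) t ≠ 0 := by
    have h1 := transc hH rp hr1 hr2 τ (Eventually.of_forall fun t => le_rfl) (Γ J0) hJ0
    rw [← mk_ep rp hr2] at h1
    exact mk_ne_zero.1 h1
  have hVne : ∀ᶠ t in (𝓕 : Filter α), V t ≠ 0 := by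
    filter_upwards [hV0] with t ht h
    apply ht
    have h1 := congrFun h (e J0)
    rw [hV] at h1
    simp only [Equiv.symm_apply_apply] at h1
    exact h1
  have hsb := SB_ep_vec hH rp hr1 τ (fun i => Γ (e.symm i)) D (fun i => hdeg _)
  have hht := SB.ht hH V (fun t => ![1, τ t]) hVne (Eventually.of_forall fun t h => by
    have h1 := congrFun h 0
    exact one_ne_zero h1) 1 D (by
      refine hsb.mono (Eventually.of_forall fun t p => ?_)
      rw [pow_one]) ε hε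
  -- the relations
  have halt' : ∀ᶠ t in (𝓕 : Filter α), ∀ x : (Fin (n' + 2) → Fin M) × Fin (n' + 2) × Fin (n' + 2),
      x.2.1 ≠ x.2.2 → ep rp τ (Γ (x.1 ∘ Equiv.swap x.2.1 x.2.2)) t = -ep rp τ (Γ x.1) t := by
    rw [Filter.eventually_all]
    rintro ⟨J, i, j⟩
    by_cases hij : i = j
    · exact Eventually.of_forall fun t h => absurd hij h
    · have h1 : ∀ᶠ t in (𝓕 : Filter α), ep rp τ (Γ (J ∘ Equiv.swap i j)) t =
          (fun t => -ep rp τ (Γ J) t) t := by
        refine ep_congr rp hr2 τ ?_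
        rw [halt J i j hij, map_neg]
        have h2 : (fun t => -ep rp τ (Γ J) t) = -ep rp τ (Γ J) := rfl
        rw [h2, map_neg, mk_ep rp hr2]
      filter_upwards [h1] with t ht _
      exact ht
  have hcontr' : ∀ᶠ t in (𝓕 : Filter α), ∀ y : Fin g × (Fin (n' + 2) → Fin M),
      ∑ l, aeval (x t) (pderiv l (G y.1)) * ep rp τ (Γ (Function.update y.2 0 l)) t = 0 := by
    rw [Filter.eventually_all]
    rintro ⟨i, J⟩
    have h1 := ep_sum_mul rp hr2 τ (fun l => aeval φ (pderiv l (G i)))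
      (fun l => Γ (Function.update J 0 l))
    rw [hcontr] at h1
    have h2 : ∀ᶠ t in (𝓕 : Filter α), ep rp τ (0 : Polynomial 𝕊) t = 0 := by
      refine ep_congr rp hr2 τ (f := fun _ => 0) ?_
      rw [map_zero]
      exact (map_zero (mk 𝓕)).symm
    have h3 : ∀ᶠ t in (𝓕 : Filter α), ∀ l, ep rp τ (aeval φ (pderiv l (G i))) t =
        aeval (fun l => ep rp τ (φ l) t) (pderiv l (G i)) := by
      rw [Filter.eventually_all]
      exact fun l => ep_aeval rp hr2 τ φ _
    filter_upwards [h1, h2, h3, hx] with t e1 e2 e3 e4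
    have e5 : x t = fun l => ep rp τ (φ l) t := funext fun l => e4 l
    rw [e5, ← e2, e1]
    exact Finset.sum_congr rfl fun l _ => by rw [e3]
  filter_upwards [hht, hVne, hV0, halt', hcontr', hA, hx0, hxX] with t f1 f2 f3 f4 f5 f6 f7 f8
  have hdim : finrank K (TS G (x t)) = n' + 2 := hsm K (x t) f7 f8
  obtain ⟨c, hc⟩ := alt_unique (L := K) (A t) f6.1
    (fun i l => aeval (x t) (pderiv l (G i))) (fun v hv => span_TB f6 hdim v hv)
    (fun J => ep rp τ (Γ J) t) (fun J i j hij => f4 (J, i, j) hij) (fun i J => f5 (i, J))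
  have hc0 : c ≠ 0 := by
    rintro rfl
    apply f3
    have := hc J0
    rw [zero_mul] at this
    exact this
  -- the heights
  have e1 : V t = c • (fun i => mv (A t) (e.symm i)) := by
    funext i
    exact hc (e.symm i)
  have e2 : logHeight (V t) = logHeight (mv (A t)) := by
    rw [e1, logHeight_smul_eq_logHeight _ hc0]
    exact logHeight_comp_equiv e.symm (mv (A t))
  rw [e2] at f1
  push_cast at f1
  linarith

end Pool.Agent.H432.RC
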