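import Mathlib
import Pool.Agent.H432.RC.Main

/-!
The inequality of Vojta along a rational curve with slow coefficients.
-/

set_option autoImplicit false
set_option linter.unusedSectionVars false

open Filter Topology

namespace Pool.Agent.H432.RC

open NumberField IsDedekindDomain Height Module MvPolynomial Pool.Agent.N750
open Pool.Agent.W180.OP (Pl av wt nrm le_nrm nrm_pos wt_nonneg exists_nrm nrm_nonneg)

variable {k K α : Type} [Field k] [Field K] [NumberField K] [Algebra k K] {𝓕 : Ultrafilter α}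
  {𝕊 : Type} [Field 𝕊] [CharZero 𝕊] [Algebra k 𝕊] [Algebra K 𝕊] [IsScalarTower k K 𝕊]
  [Algebra 𝕊 (Gm 𝓕 K)] [Algebra k (Gm 𝓕 K)] [IsScalarTower k K (Gm 𝓕 K)]
  [IsScalarTower k 𝕊 (Gm 𝓕 K)] {M g q w n' ν d : ℕ}

/-- **the inequality along a rational curve with slow coefficients** -/
theorem curve_ineq (rp : 𝕊 → α → K) (τ : α → K)
    (hH : Tendsto (fun t => logHeight ![1, τ t]) 𝓕 atTop)
    (hr1 : ∀ s, Slow 𝓕 (fun t => logHeight ![1, τ t]) (rp s))
    (hr2 : ∀ s, mk 𝓕 (rp s) = algebraMap 𝕊 (Gm 𝓕 K) s)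
    (G : Fin g → MvPolynomial (Fin M) k) (hsm : Sm (n' + 1) G)
    (F : Fin q → Fin w → MvPolynomial (Fin M) k) (δ : Fin q → ℕ)
    (hF : ∀ i j, (F i j).IsHomogeneous (δ i))
    (φ : Fin M → Polynomial 𝕊) (hd : ∀ l, (φ l).natDegree ≤ d)
    (hX : ∀ i, aeval φ (G i) = 0)
    (htop : Ideal.span (Set.range φ) = ⊤) (hlead : ∃ l, (φ l).coeff d ≠ 0)
    (b : Fin ν → 𝕊) (hb : Function.Injective b) (m : Fin ν → Fin q → ℕ)
    (hm : ∀ a, 1 ≤ ∑ i, m a i) (Q : Fin q → Fin w → Polynomial 𝕊)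
    (hFQ : ∀ i j, aeval φ (F i j) =
      (∏ a, (Polynomial.X - Polynomial.C (b a)) ^ m a i) * Q i j)
    (hQ : ∀ i, Ideal.span (Set.range (Q i)) = ⊤)
    (hFlead : ∀ i, ∃ j, (aeval φ (F i j)).coeff (δ i * d) ≠ 0)
    (hle : 2 + ∑ a, (∑ i, m a i - 1) ≤ (n' + 2) * d)
    (Γ : (Fin (n' + 2) → Fin M) → Polynomial 𝕊)
    (hΓ : GC G φ ((n' + 2) * d - 2 - ∑ a, (∑ i, m a i - 1)) Γ) (x : α → Fin M → K)
    (hx : ∀ᶠ t in (𝓕 : Filter α), ∀ l, x t l = ep rp τ (φ l) t)
    (A : α → Fin M → Fin (n' + 2) → K)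
    (hA : ∀ᶠ t in (𝓕 : Filter α), IsTB G (x t) (A t)) (S : Finset (Pl K)) (ε : ℝ)
    (hε : 0 < ε) :
    ∀ᶠ t in (𝓕 : Filter α), (∑ p ∈ S, wt p * ∑ i, ((δ i : ℝ) * Real.log (nrm (av p) (x t)) -
      Real.log (nrm (av p) (fun j => aeval (x t) (F i j)))) + logHeight (mv (A t)) ≤
      (n' + 2) * logHeight (x t) + ε * logHeight ![1, τ t]) ∧
      d * logHeight ![1, τ t] ≤ logHeight (x t) + ε * logHeight ![1, τ t] := by
  classical
  have hφne := ep_vec_ne rp hr2 τ φ htop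
  have hxe : ∀ᶠ t in (𝓕 : Filter α), x t = fun l => ep rp τ (φ l) t := by
    filter_upwards [hx] with t ht
    exact funext fun l => ht l
  have hx0 : ∀ᶠ t in (𝓕 : Filter α), x t ≠ 0 := by
    filter_upwards [hφne, hxe] with t h1 h2
    rw [h2]
    exact h1
  have hxX : ∀ᶠ t in (𝓕 : Filter α), ∀ i, aeval (x t) (G i) = 0 := by
    rw [Filter.eventually_all]
    intro i
    have h2 : ∀ᶠ t in (𝓕 : Filter α), ep rp τ (0 : Polynomial 𝕊) t = 0 := by
      refine ep_congr rp hr2 τ (f := fun _ => 0) ?_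
      rw [map_zero]
      exact (map_zero (mk 𝓕)).symm
    filter_upwards [ep_aeval rp hr2 τ φ (G i), hxe, h2] with t e1 e2 e3
    rw [e2, ← e1, hX, e3]
  -- the heights of the points
  have hlow : ∀ ε : ℝ, 0 < ε → ∀ᶠ t in (𝓕 : Filter α),
      d * logHeight ![1, τ t] ≤ logHeight (x t) + ε * logHeight ![1, τ t] := by
    intro ε hε
    have h1 := SB_lower hH rp hr1 hr2 τ φ d hd htop hlead
    have h2 := SB.ht hH (fun t => ![1, τ t]) (fun t l => ep rp τ (φ l) t)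
      (Eventually.of_forall fun t h => one_ne_zero (congrFun h 0)) hφne d 1 (by
        refine h1.mono (Eventually.of_forall fun t p => ?_)
        rw [pow_one]) ε hε
    filter_upwards [h2, hxe] with t e1 e2
    rw [e2]
    push_cast at e1
    linarith
  -- the pieces
  set N1 : ℝ := (S.card : ℝ) * q + 1 with hN1
  have hN1p : 0 < N1 := by positivity
  have hprox : ∀ᶠ t in (𝓕 : Filter α), ∀ p ∈ S, ∀ i, wt p * ((δ i : ℝ) *
      Real.log (nrm (av p) (x t)) - Real.log (nrm (av p) (fun j => aeval (x t) (F i j)))) ≤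
      wt p * ∑ a, (m a i : ℝ) * (Real.log (nrm (av p) ![1, τ t]) -
        Real.log (av p (τ t - rp (b a) t))) + ε / (4 * N1) * logHeight ![1, τ t] := by
    rw [Filter.eventually_all_finset]
    intro p _
    rw [Filter.eventually_all]
    intro i
    exact prox_loc rp τ hH hr1 hr2 (F i) (δ i) (hF i) φ hd htop b (fun a => m a i) (Q i)
      (hFQ i) (hQ i) (hFlead i) x hx p (ε / (4 * N1)) (by positivity)
  have hroth := roth rp τ hH hr1 hr2 b hb (fun a => ∑ i, m a i) hm S (ε / 4) (by linarith)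
  have hgauss := gauss_ht rp τ hH hr1 hr2 G hsm φ _ Γ hΓ x hx0 hxX hx A hA (ε / 4) (by linarith)
  have hC : (0 : ℝ) < n' + 2 := by positivity
  filter_upwards [hprox, hroth, hgauss, hlow ε hε, hlow (ε / (4 * (n' + 2))) (by positivity)]
    with t f1 f2 f3 f4 f5
  refine ⟨?_, f4⟩
  set h := logHeight ![1, τ t] with hh
  have hh0 : 0 ≤ h := logHeight_nonneg _
  have e1 : ∑ p ∈ S, wt p * ∑ i, ((δ i : ℝ) * Real.log (nrm (av p) (x t)) -
      Real.log (nrm (av p) (fun j => aeval (x t) (F i j)))) ≤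
      ∑ p ∈ S, wt p * ∑ a, ((∑ i, m a i : ℕ) : ℝ) * (Real.log (nrm (av p) ![1, τ t]) -
        Real.log (av p (τ t - rp (b a) t))) + ε / 4 * h := by
    have e2 : ∑ p ∈ S, wt p * ∑ i, ((δ i : ℝ) * Real.log (nrm (av p) (x t)) -
        Real.log (nrm (av p) (fun j => aeval (x t) (F i j)))) ≤
        ∑ p ∈ S, ∑ i, (wt p * ∑ a, (m a i : ℝ) * (Real.log (nrm (av p) ![1, τ t]) -
        Real.log (av p (τ t - rp (b a) t))) + ε / (4 * N1) * h) := by
      refine Finset.sum_le_sum fun p hp => ?_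
      rw [Finset.mul_sum]
      exact Finset.sum_le_sum fun i _ => f1 p hp i
    refine e2.trans ?_
    have e3 : ∑ p ∈ S, ∑ i, (wt p * ∑ a, (m a i : ℝ) * (Real.log (nrm (av p) ![1, τ t]) -
        Real.log (av p (τ t - rp (b a) t))) + ε / (4 * N1) * h) =
        ∑ p ∈ S, wt p * ∑ a, ((∑ i, m a i : ℕ) : ℝ) * (Real.log (nrm (av p) ![1, τ t]) -
        Real.log (av p (τ t - rp (b a) t))) + S.card * (q * (ε / (4 * N1) * h)) := by
      have e4 : ∀ p ∈ S, ∑ i, (wt p * ∑ a, (m a i : ℝ) * (Real.log (nrm (av p) ![1, τ t]) -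
          Real.log (av p (τ t - rp (b a) t))) + ε / (4 * N1) * h) =
          wt p * ∑ a, ((∑ i, m a i : ℕ) : ℝ) * (Real.log (nrm (av p) ![1, τ t]) -
          Real.log (av p (τ t - rp (b a) t))) + q * (ε / (4 * N1) * h) := by
        intro p _
        rw [Finset.sum_add_distrib, Finset.sum_const, Finset.card_univ, Fintype.card_fin,
          nsmul_eq_mul, ← Finset.mul_sum, Finset.sum_comm]
        congr 2
        refine Finset.sum_congr rfl fun a _ => ?_
        rw [← Finset.sum_mul]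
        push_cast
        rfl
      rw [Finset.sum_congr rfl e4, Finset.sum_add_distrib, Finset.sum_const, nsmul_eq_mul]
    rw [e3]
    have e5 : (S.card : ℝ) * (q * (ε / (4 * N1) * h)) ≤ ε / 4 * h := by
      have e6 : (S.card : ℝ) * q * (ε / (4 * N1)) ≤ ε / 4 := by
        have e7 : (S.card : ℝ) * q ≤ N1 := by
          rw [hN1]
          linarith
        calc (S.card : ℝ) * q * (ε / (4 * N1)) ≤ N1 * (ε / (4 * N1)) :=
              mul_le_mul_of_nonneg_right e7 (by positivity)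
          _ = ε / 4 := by field_simp
      calc (S.card : ℝ) * (q * (ε / (4 * N1) * h)) = (S.card : ℝ) * q * (ε / (4 * N1)) * h := by
            ring
        _ ≤ _ := mul_le_mul_of_nonneg_right e6 hh0
    linarith
  have e8 : (((n' + 2) * d - 2 - ∑ a, (∑ i, m a i - 1) : ℕ) : ℝ) =
      (n' + 2) * d - 2 - ∑ a, ((∑ i, m a i - 1 : ℕ) : ℝ) := by
    rw [Nat.sub_sub, Nat.cast_sub hle]
    push_cast
    ring
  rw [e8] at f3
  have e9 : (n' + 2 : ℝ) * (d * h) ≤ (n' + 2) * logHeight (x t) + ε / 4 * h := by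
    have e10 := mul_le_mul_of_nonneg_left f5 hC.le
    have e11 : (n' + 2 : ℝ) * (ε / (4 * (n' + 2)) * h) = ε / 4 * h := by
      field_simp
    linarith
  have e12 : (2 + ∑ a, ((∑ i, m a i - 1 : ℕ) : ℝ) + ε / 4) * h +
      ((n' + 2) * d - 2 - ∑ a, ((∑ i, m a i - 1 : ℕ) : ℝ) + ε / 4) * h =
      (n' + 2) * (d * h) + ε / 2 * h := by ring
  have f2' : ∑ p ∈ S, wt p * ∑ a, ((∑ i, m a i : ℕ) : ℝ) * (Real.log (nrm (av p) ![1, τ t]) -
        Real.log (av p (τ t - rp (b a) t))) ≤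
        (2 + ∑ a, ((∑ i, m a i - 1 : ℕ) : ℝ) + ε / 4) * h := f2
  linarith

end Pool.Agent.H432.RC
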