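import Mathlib
import Pool.Agent.H432.RC.Fin

/-!
Rational curves given by binary forms and their affine parametrisations.
-/

set_option autoImplicit false
set_option linter.unusedSectionVars false

namespace Pool.Agent.H432.RC

open MvPolynomial Pool.Agent.N750

variable {M d : ℕ}

/-- the point of the curve with the coefficients `c` at `z` -/
def pc {R : Type} [CommRing R] (c : Fin M → Fin (d + 1) → R) (z : Fin 2 → R) : Fin M → R :=
  fun l => ∑ m, c l m * (z 0 ^ m.1 * z 1 ^ (d - m.1))

theorem pc_smul {R : Type} [CommRing R] (c : Fin M → Fin (d + 1) → R) (a : R) (z : Fin 2 → R) :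
    pc c (fun i => a * z i) = fun l => a ^ d * pc c z l := by
  funext l
  unfold pc
  rw [Finset.mul_sum]
  refine Finset.sum_congr rfl fun m _ => ?_
  have h1 : a ^ d = a ^ m.1 * a ^ (d - m.1) := by
    rw [← pow_add]
    congr 1
    have := m.2
    omega
  rw [h1, mul_pow, mul_pow]
  ring

theorem pc_csmul {R : Type} [CommRing R] (c : Fin M → Fin (d + 1) → R) (a : R) (z : Fin 2 → R) :
    pc (fun l m => a * c l m) z = fun l => a * pc c z l := by
  funext l
  unfold pc
  rw [Finset.mul_sum]
  exact Finset.sum_congr rfl fun m _ => by ring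

theorem pc_map {R R' : Type} [CommRing R] [CommRing R'] (ψ : R →+* R')
    (c : Fin M → Fin (d + 1) → R) (z : Fin 2 → R) :
    pc (fun l m => ψ (c l m)) (fun i => ψ (z i)) = fun l => ψ (pc c z l) := by
  funext l
  unfold pc
  rw [map_sum]
  refine Finset.sum_congr rfl fun m _ => ?_
  rw [map_mul, map_mul, map_pow, map_pow]

/-- the affine parametrisation with the point at infinity `(r, 1)` -/
noncomputable def cpol {R : Type} [CommRing R] (r : R) (c : Fin M → Fin (d + 1) → R) :
    Fin M → Polynomial R :=
  fun l => ∑ m, Polynomial.C (c l m) *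
    ((Polynomial.C r * Polynomial.X + 1) ^ m.1 * Polynomial.X ^ (d - m.1))

theorem cpol_deg {R : Type} [CommRing R] (r : R) (c : Fin M → Fin (d + 1) → R) (l : Fin M) :
    (cpol r c l).natDegree ≤ d := by
  unfold cpol
  refine Polynomial.natDegree_sum_le_of_forall_le _ _ fun m _ => ?_
  refine (Polynomial.natDegree_C_mul_le _ _).trans ?_
  refine (Polynomial.natDegree_mul_le).trans ?_
  have h1 : ((Polynomial.C r * Polynomial.X + 1 : Polynomial R) ^ m.1).natDegree ≤ m.1 := by
    refine (Polynomial.natDegree_pow_le).trans ?_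
    have h2 : (Polynomial.C r * Polynomial.X + 1 : Polynomial R).natDegree ≤ 1 := by
      refine (Polynomial.natDegree_add_le _ _).trans (max_le ?_ ?_)
      · exact (Polynomial.natDegree_C_mul_le _ _).trans Polynomial.natDegree_X_le
      · rw [Polynomial.natDegree_one]
        exact Nat.zero_le _
    calc m.1 * (Polynomial.C r * Polynomial.X + 1 : Polynomial R).natDegree ≤ m.1 * 1 :=
          Nat.mul_le_mul_left _ h2
      _ = m.1 := mul_one _
  have h3 : ((Polynomial.X : Polynomial R) ^ (d - m.1)).natDegree ≤ d - m.1 :=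
    Polynomial.natDegree_X_pow_le _
  have := m.2
  omega

theorem cpol_eval {R : Type} [CommRing R] (r : R) (c : Fin M → Fin (d + 1) → R) (z : R)
    (l : Fin M) : (cpol r c l).eval z = pc c ![r * z + 1, z] l := by
  unfold cpol pc
  rw [Polynomial.eval_finsetSum]
  refine Finset.sum_congr rfl fun m _ => ?_
  simp

theorem cpol_coeff {R : Type} [CommRing R] (r : R) (c : Fin M → Fin (d + 1) → R)
    (l : Fin M) : (cpol r c l).coeff d = pc c ![r, 1] l := by
  unfold cpol pc
  rw [Polynomial.finsetSum_coeff]
  refine Finset.sum_congr rfl fun m _ => ?_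
  rw [Polynomial.coeff_C_mul]
  congr 1
  have h1 : ∀ (p : Polynomial R), (p * Polynomial.X ^ (d - m.1)).coeff d = p.coeff m.1 := by
    intro p
    have h2 : d = m.1 + (d - m.1) := by
      have := m.2
      omega
    rw [Polynomial.coeff_mul_X_pow', if_pos (Nat.sub_le _ _)]
    congr 1
    have := m.2
    omega
  rw [h1]
  have h3 := Polynomial.coeff_pow_of_natDegree_le (p := (Polynomial.C r * Polynomial.X + 1 :
    Polynomial R)) (n := 1) (m := m.1) (by
      refine (Polynomial.natDegree_add_le _ _).trans (max_le ?_ ?_)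
      · exact (Polynomial.natDegree_C_mul_le _ _).trans Polynomial.natDegree_X_le
      · rw [Polynomial.natDegree_one]
        exact Nat.zero_le _)
  rw [mul_one] at h3
  rw [h3]
  simp [Polynomial.coeff_one]

theorem cpol_map {R R' : Type} [CommRing R] [CommRing R'] (ψ : R →+* R') (r : R)
    (c : Fin M → Fin (d + 1) → R) (l : Fin M) :
    (cpol r c l).map ψ = cpol (ψ r) (fun l m => ψ (c l m)) l := by
  unfold cpol
  rw [Polynomial.map_sum]
  refine Finset.sum_congr rfl fun m _ => ?_
  simp

/-- the leading coefficient of a form along a curve -/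
theorem aeval_top {k R : Type} [Field k] [CommRing R] [Algebra k R] {P : MvPolynomial (Fin M) k}
    {e : ℕ} (hP : P.IsHomogeneous e) (φ : Fin M → Polynomial R)
    (hφ : ∀ l, (φ l).natDegree ≤ d) :
    (aeval φ P).coeff (e * d) = aeval (fun l => (φ l).coeff d) P := by
  classical
  rw [aeval_def, aeval_def, eval₂_eq, eval₂_eq, Polynomial.finsetSum_coeff]
  refine Finset.sum_congr rfl fun m hm => ?_
  rw [Polynomial.algebraMap_apply, Polynomial.coeff_C_mul]
  congr 1
  have hdeg : ∑ i ∈ m.support, m i = e := by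
    have h2 := hP (MvPolynomial.mem_support_iff.1 hm)
    rw [Finsupp.weight_apply, Finsupp.sum] at h2
    simpa using h2
  rw [← hdeg, Finset.sum_mul]
  have h1 : ∀ s : Finset (Fin M), (∏ i ∈ s, φ i ^ m i).coeff (∑ i ∈ s, m i * d) =
      ∏ i ∈ s, (φ i).coeff d ^ m i ∧ (∏ i ∈ s, φ i ^ m i).natDegree ≤ ∑ i ∈ s, m i * d := by
    intro s
    induction s using Finset.induction_on with
    | empty => simp
    | insert i s hi ih =>
      rw [Finset.prod_insert hi, Finset.prod_insert hi, Finset.sum_insert hi]
      have h3 : (φ i ^ m i).natDegree ≤ m i * d :=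
        (Polynomial.natDegree_pow_le).trans (Nat.mul_le_mul_left _ (hφ i))
      refine ⟨?_, ?_⟩
      · rw [Polynomial.coeff_mul_add_eq_of_natDegree_le h3 ih.2, ih.1,
          Polynomial.coeff_pow_of_natDegree_le (hφ i)]
      · exact (Polynomial.natDegree_mul_le).trans (Nat.add_le_add h3 ih.2)
  exact (h1 m.support).1

/-- no common zeros: the polynomials generate the unit ideal -/
theorem span_top_of_nozero {L : Type} [Field L] {w : ℕ} (P : Fin w → Polynomial L)
    (h : ∀ (Ω : Type) [Field Ω] [Algebra L Ω] (z : Ω), ∃ j, Polynomial.aeval z (P j) ≠ 0) :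
    Ideal.span (Set.range P) = ⊤ := by
  refine span_top_of_dvd P fun p hp => ?_
  by_contra hunit
  by_cases hp0 : p = 0
  · obtain ⟨j, hj⟩ := h L 0
    apply hj
    have h1 := hp j
    rw [hp0, zero_dvd_iff] at h1
    rw [h1, map_zero]
  · obtain ⟨z, hz⟩ := IsAlgClosed.exists_aeval_eq_zero (AlgebraicClosure L) p (by
      intro hdeg
      exact hunit (Polynomial.isUnit_iff_degree_eq_zero.2 hdeg))
    obtain ⟨j, hj⟩ := h (AlgebraicClosure L) z
    apply hj
    obtain ⟨r, hr⟩ := hp j
    rw [hr, map_mul, hz, zero_mul]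

/-- a curve without common zeros of positive degree is not constant -/
theorem wronskian_ne {L : Type} [Field L] [CharZero L] (φ : Fin M → Polynomial L)
    (hd0 : 1 ≤ d) (hd : ∀ l, (φ l).natDegree ≤ d) (htop : Ideal.span (Set.range φ) = ⊤)
    (hlead : ∃ l, (φ l).coeff d ≠ 0) :
    ∃ l l', φ l * Polynomial.derivative (φ l') - φ l' * Polynomial.derivative (φ l) ≠ 0 := by
  by_contra hcon
  push Not at hcon
  obtain ⟨l0, hl0⟩ := hlead
  obtain ⟨a, ha⟩ := exists_bezout φ htop
  have h0 : φ l0 ≠ 0 := fun h => hl0 (by rw [h, Polynomial.coeff_zero])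
  have hdeg : (φ l0).natDegree = d :=
    le_antisymm (hd l0) (Polynomial.le_natDegree_of_ne_zero hl0)
  have h1 : φ l0 ∣ Polynomial.derivative (φ l0) := by
    have h2 : Polynomial.derivative (φ l0) =
        ∑ l, a l * (φ l * Polynomial.derivative (φ l0)) := by
      calc Polynomial.derivative (φ l0) = 1 * Polynomial.derivative (φ l0) := (one_mul _).symm
        _ = (∑ l, a l * φ l) * Polynomial.derivative (φ l0) := by rw [ha]
        _ = _ := by
          rw [Finset.sum_mul]
          exact Finset.sum_congr rfl fun l _ => by ring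
    rw [h2]
    refine Finset.dvd_sum fun l _ => Dvd.dvd.mul_left ?_ _
    rw [sub_eq_zero.1 (hcon l l0)]
    exact dvd_mul_right _ _
  have h2 : Polynomial.derivative (φ l0) = 0 := by
    refine Polynomial.eq_zero_of_dvd_of_natDegree_lt h1 ?_
    refine Polynomial.natDegree_derivative_lt ?_
    omega
  have h3 := Polynomial.derivative_eq_zero.1 h2
  omega

end Pool.Agent.H432.RC
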