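import Mathlib
import Pool.Agent.H432.RC.Bin

/-!
Transfer between polynomials over the slow field and their members.
-/

set_option autoImplicit false
set_option linter.unusedSectionVars false

open Filter Topology

namespace Pool.Agent.H432.RC

open NumberField IsDedekindDomain Height Module MvPolynomial Pool.Agent.N750
open Pool.Agent.W180.OP (Pl av wt nrm le_nrm nrm_pos wt_nonneg exists_nrm nrm_nonneg)

theorem logHeight_swap {K : Type} [Field K] [NumberField K] (y : K) :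
    logHeight ![1, y] = logHeight₁ y := by
  rw [logHeight₁_eq_logHeight]
  have h1 := logHeight_comp_equiv (Equiv.swap (0 : Fin 2) 1) ![y, 1]
  rw [← h1]
  congr 1
  funext i
  fin_cases i
  · rfl
  · rfl

/-- the roots of a monic polynomial all of whose roots are rational -/
theorem exists_roots {K : Type} [Field K] (R : Polynomial K) (hR : R.Monic)
    (h : ∀ (Ω : Type) [Field Ω] [Algebra K Ω] (z : Ω), Polynomial.aeval z R = 0 →
      ∃ y : K, algebraMap K Ω y = z) :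
    ∃ y : Fin R.natDegree → K, R = ∏ a, (Polynomial.X - Polynomial.C (y a)) := by
  have hs : R.Splits := by
    refine Polynomial.Splits.of_splits_map (algebraMap K (AlgebraicClosure K))
      (IsAlgClosed.splits _) fun z hz => ?_
    rw [Polynomial.mem_roots (Polynomial.map_ne_zero hR.ne_zero), Polynomial.IsRoot.def,
      Polynomial.eval_map_algebraMap] at hz
    obtain ⟨y, hy⟩ := h (AlgebraicClosure K) z hz
    exact ⟨y, hy⟩
  have h1 := hs.eq_prod_roots_of_monic hR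
  have h2 : R.roots.toList.length = R.natDegree := by
    rw [Multiset.length_toList, hs.natDegree_eq_card_roots]
  refine ⟨fun a => R.roots.toList.get (Fin.cast h2.symm a), ?_⟩
  conv_lhs => rw [h1]
  have h3 : (R.roots.map (fun x => Polynomial.X - Polynomial.C x)).prod =
      (R.roots.toList.map (fun x => Polynomial.X - Polynomial.C x)).prod := by
    conv_lhs => rw [← Multiset.coe_toList R.roots]
    rw [Multiset.map_coe, Multiset.prod_coe]
  have h4 : ∀ l : List K, (l.map (fun x => Polynomial.X - Polynomial.C x)).prod =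
      ∏ a, (Polynomial.X - Polynomial.C (l.get a)) := by
    intro l
    calc (l.map (fun x => Polynomial.X - Polynomial.C x)).prod =
          ((List.ofFn l.get).map (fun x => Polynomial.X - Polynomial.C x)).prod := by
          rw [List.ofFn_get]
      _ = _ := by
          rw [List.map_ofFn, List.prod_ofFn]
          rfl
  rw [h3, h4]
  exact (Equiv.prod_comp (finCongr h2.symm) (fun a => Polynomial.X -
    Polynomial.C (R.roots.toList.get a))).symm

variable {K α : Type} [Field K] [NumberField K] {𝓕 : Ultrafilter α} {H : α → ℝ}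
  {𝕊 : Type} [Field 𝕊] [Algebra 𝕊 (Gm 𝓕 K)]

/-- the lift of a polynomial over the slow field -/
noncomputable def pu (rp : 𝕊 → α → K) (P : Polynomial 𝕊) : Polynomial (α → K) :=
  ∑ m ∈ Finset.range (P.natDegree + 1), Polynomial.C (rp (P.coeff m)) * Polynomial.X ^ m

theorem pu_mk (rp : 𝕊 → α → K) (hr2 : ∀ s, mk 𝓕 (rp s) = algebraMap 𝕊 (Gm 𝓕 K) s)
    (P : Polynomial 𝕊) : (pu rp P).map (mk 𝓕) = P.map (algebraMap 𝕊 (Gm 𝓕 K)) := by
  unfold pu
  conv_rhs => rw [Polynomial.as_sum_range_C_mul_X_pow P]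
  rw [Polynomial.map_sum, Polynomial.map_sum]
  refine Finset.sum_congr rfl fun m _ => ?_
  rw [Polynomial.map_mul, Polynomial.map_mul, Polynomial.map_pow, Polynomial.map_pow,
    Polynomial.map_X, Polynomial.map_X, Polynomial.map_C, Polynomial.map_C, hr2]

/-- the members -/
noncomputable def pr (rp : 𝕊 → α → K) (P : Polynomial 𝕊) (t : α) : Polynomial K :=
  (pu rp P).map (Pi.evalRingHom (fun _ : α => K) t)

theorem pr_eq (rp : 𝕊 → α → K) (hr2 : ∀ s, mk 𝓕 (rp s) = algebraMap 𝕊 (Gm 𝓕 K) s)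
    (P : Polynomial 𝕊) (U : Polynomial (α → K))
    (h : U.map (mk 𝓕) = P.map (algebraMap 𝕊 (Gm 𝓕 K))) :
    ∀ᶠ t in (𝓕 : Filter α), pr rp P t = U.map (Pi.evalRingHom (fun _ : α => K) t) := by
  refine ev_of_map_mk ?_
  rw [pu_mk rp hr2, h]

theorem pr_mul (rp : 𝕊 → α → K) (hr2 : ∀ s, mk 𝓕 (rp s) = algebraMap 𝕊 (Gm 𝓕 K) s)
    (P Q : Polynomial 𝕊) :
    ∀ᶠ t in (𝓕 : Filter α), pr rp (P * Q) t = pr rp P t * pr rp Q t := by
  have h1 := pr_eq rp hr2 (P * Q) (pu rp P * pu rp Q) (by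
    rw [Polynomial.map_mul, Polynomial.map_mul, pu_mk rp hr2, pu_mk rp hr2])
  filter_upwards [h1] with t ht
  rw [ht, Polynomial.map_mul]
  rfl

theorem pr_pow (rp : 𝕊 → α → K) (hr2 : ∀ s, mk 𝓕 (rp s) = algebraMap 𝕊 (Gm 𝓕 K) s)
    (P : Polynomial 𝕊) (m : ℕ) :
    ∀ᶠ t in (𝓕 : Filter α), pr rp (P ^ m) t = pr rp P t ^ m := by
  have h1 := pr_eq rp hr2 (P ^ m) (pu rp P ^ m) (by
    rw [Polynomial.map_pow, Polynomial.map_pow, pu_mk rp hr2])
  filter_upwards [h1] with t ht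
  rw [ht, Polynomial.map_pow]
  rfl

theorem pr_XC (rp : 𝕊 → α → K) (hr2 : ∀ s, mk 𝓕 (rp s) = algebraMap 𝕊 (Gm 𝓕 K) s) (b : 𝕊) :
    ∀ᶠ t in (𝓕 : Filter α), pr rp (Polynomial.X - Polynomial.C b) t =
      Polynomial.X - Polynomial.C (rp b t) := by
  have h1 := pr_eq rp hr2 (Polynomial.X - Polynomial.C b)
    (Polynomial.X - Polynomial.C (rp b)) (by
    rw [Polynomial.map_sub, Polynomial.map_sub, Polynomial.map_X, Polynomial.map_X,
      Polynomial.map_C, Polynomial.map_C, hr2])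
  filter_upwards [h1] with t ht
  rw [ht, Polynomial.map_sub, Polynomial.map_X, Polynomial.map_C]
  rfl

theorem pr_sum_mul (rp : 𝕊 → α → K) (hr2 : ∀ s, mk 𝓕 (rp s) = algebraMap 𝕊 (Gm 𝓕 K) s)
    {w : ℕ} (a P : Fin w → Polynomial 𝕊) :
    ∀ᶠ t in (𝓕 : Filter α), pr rp (∑ j, a j * P j) t = ∑ j, pr rp (a j) t * pr rp (P j) t := by
  have h1 := pr_eq rp hr2 (∑ j, a j * P j) (∑ j, pu rp (a j) * pu rp (P j)) (by
    rw [Polynomial.map_sum, Polynomial.map_sum]
    refine Finset.sum_congr rfl fun j _ => ?_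
    rw [Polynomial.map_mul, Polynomial.map_mul, pu_mk rp hr2, pu_mk rp hr2])
  filter_upwards [h1] with t ht
  rw [ht, Polynomial.map_sum]
  refine Finset.sum_congr rfl fun j _ => ?_
  rw [Polynomial.map_mul]
  rfl

theorem pr_coeff (rp : 𝕊 → α → K) (P : Polynomial 𝕊) (t : α) (m : ℕ) (hm : m ≤ P.natDegree) :
    (pr rp P t).coeff m = rp (P.coeff m) t := by
  unfold pr pu
  rw [Polynomial.coeff_map, Polynomial.finsetSum_coeff]
  simp only [Polynomial.coeff_C_mul_X_pow]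
  rw [Finset.sum_ite_eq (Finset.range (P.natDegree + 1)) m,
    if_pos (Finset.mem_range.2 (Nat.lt_succ_of_le hm))]
  rfl

theorem pr_deg_le (rp : 𝕊 → α → K) (P : Polynomial 𝕊) (t : α) :
    (pr rp P t).natDegree ≤ P.natDegree := by
  unfold pr pu
  refine (Polynomial.natDegree_map_le).trans ?_
  refine Polynomial.natDegree_sum_le_of_forall_le _ _ fun m hm => ?_
  refine (Polynomial.natDegree_C_mul_X_pow_le _ _).trans ?_
  exact Nat.lt_succ_iff.1 (Finset.mem_range.1 hm)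

theorem pr_lead (rp : 𝕊 → α → K) (hr2 : ∀ s, mk 𝓕 (rp s) = algebraMap 𝕊 (Gm 𝓕 K) s)
    (P : Polynomial 𝕊) (hP : P ≠ 0) :
    ∀ᶠ t in (𝓕 : Filter α), pr rp P t ≠ 0 ∧ (pr rp P t).natDegree = P.natDegree := by
  have h2 : ∀ᶠ t in (𝓕 : Filter α), rp (P.coeff P.natDegree) t ≠ 0 := by
    refine mk_ne_zero.1 ?_
    rw [hr2]
    exact (map_ne_zero _).2 (Polynomial.leadingCoeff_ne_zero.2 hP)
  filter_upwards [h2] with t ht
  rw [← pr_coeff rp P t _ le_rfl] at ht
  exact ⟨fun h => ht (by rw [h, Polynomial.coeff_zero]),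
    le_antisymm (pr_deg_le rp P t) (Polynomial.le_natDegree_of_ne_zero ht)⟩

theorem pr_monic (rp : 𝕊 → α → K) (hr2 : ∀ s, mk 𝓕 (rp s) = algebraMap 𝕊 (Gm 𝓕 K) s)
    (P : Polynomial 𝕊) (hP : P.Monic) :
    ∀ᶠ t in (𝓕 : Filter α), (pr rp P t).Monic := by
  have h2 : ∀ᶠ t in (𝓕 : Filter α), rp (P.coeff P.natDegree) t = 1 := by
    have h3 : mk 𝓕 (rp (P.coeff P.natDegree)) = mk 𝓕 (fun _ => 1) := by
      rw [hr2, show P.coeff P.natDegree = 1 from hP, map_one]
      exact (map_one (mk 𝓕)).symm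
    exact mk_eq.1 h3
  filter_upwards [h2, pr_lead rp hr2 P hP.ne_zero] with t h3 h4
  unfold Polynomial.Monic Polynomial.leadingCoeff
  rw [h4.2, pr_coeff rp P t _ le_rfl, h3]

/-- roots of polynomials over the slow field are slow -/
theorem slow_root (hH : Tendsto H 𝓕 atTop) (rp : 𝕊 → α → K) (hr1 : ∀ s, Slow 𝓕 H (rp s))
    (hr2 : ∀ s, mk 𝓕 (rp s) = algebraMap 𝕊 (Gm 𝓕 K) s)
    (P : Polynomial 𝕊) (hP : P ≠ 0) (y : α → K)
    (hy : ∀ᶠ t in (𝓕 : Filter α), (pr rp P t).eval (y t) = 0) : Slow 𝓕 H y := by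
  intro ε hε
  have h3 : ∀ᶠ t in (𝓕 : Filter α), logHeight (fun m : Fin (P.natDegree + 1) =>
      rp (P.coeff m.1) t) ≤ ε / 2 * H t :=
    slow_vec hH (a := fun (m : Fin (P.natDegree + 1)) => rp (P.coeff m.1))
      (fun m => hr1 _) (by linarith)
  filter_upwards [hy, h3, pr_lead rp hr2 P hP, hH.eventually_ge_atTop
    ((finrank ℚ K * Real.log (P.natDegree + 1)) / (ε / 2))] with t e1 e2 e3 e4
  rw [div_le_iff₀ (by linarith)] at e4
  have h4 := root_ht P.natDegree (pr rp P t) e3.1 (pr_deg_le rp P t) (y t) (by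
    rw [Polynomial.coe_aeval_eq_eval]
    exact e1)
  rw [Module.finrank_self, Nat.cast_one, one_mul, logHeight_swap] at h4
  have h5 : (fun m : Fin (P.natDegree + 1) => (pr rp P t).coeff m.1) =
      fun m : Fin (P.natDegree + 1) => rp (P.coeff m.1) t := by
    funext m
    exact pr_coeff rp P t m.1 (Nat.lt_succ_iff.1 m.2)
  rw [h5] at h4
  linarith

/-- **splitting over the slow field** -/
theorem split_slow (hH : Tendsto H 𝓕 atTop) (rp : 𝕊 → α → K) (hr1 : ∀ s, Slow 𝓕 H (rp s))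
    (hr2 : ∀ s, mk 𝓕 (rp s) = algebraMap 𝕊 (Gm 𝓕 K) s)
    (hr3 : ∀ a, Slow 𝓕 H a → ∃ s : 𝕊, algebraMap 𝕊 (Gm 𝓕 K) s = mk 𝓕 a)
    (P : Polynomial 𝕊) (hP : P.Monic)
    (hs : ∀ᶠ t in (𝓕 : Filter α), ∀ (Ω : Type) [Field Ω] [Algebra K Ω] (z : Ω),
      Polynomial.aeval z (pr rp P t) = 0 → ∃ y : K, algebraMap K Ω y = z) :
    ∃ β : Fin P.natDegree → 𝕊, P = ∏ a, (Polynomial.X - Polynomial.C (β a)) := by
  classical
  have h1 : ∀ t, ∃ y : Fin P.natDegree → K, (pr rp P t).Monic →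
      (pr rp P t).natDegree = P.natDegree → (∀ (Ω : Type) [Field Ω] [Algebra K Ω] (z : Ω),
      Polynomial.aeval z (pr rp P t) = 0 → ∃ y : K, algebraMap K Ω y = z) →
      pr rp P t = ∏ a, (Polynomial.X - Polynomial.C (y a)) := by
    intro t
    by_cases h : (pr rp P t).Monic ∧ (pr rp P t).natDegree = P.natDegree ∧
        (∀ (Ω : Type) [Field Ω] [Algebra K Ω] (z : Ω),
      Polynomial.aeval z (pr rp P t) = 0 → ∃ y : K, algebraMap K Ω y = z)
    · obtain ⟨y, hy⟩ := exists_roots (pr rp P t) h.1 h.2.2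
      refine ⟨fun a => y (Fin.cast h.2.1.symm a), fun _ _ _ => ?_⟩
      conv_lhs => rw [hy]
      exact (Equiv.prod_comp (finCongr h.2.1.symm)
        (fun a => Polynomial.X - Polynomial.C (y a))).symm
    · refine ⟨fun _ => 0, fun e1 e2 e3 => ?_⟩
      exact absurd ⟨e1, e2, e3⟩ h
  choose y hy using h1
  have hprod : ∀ᶠ t in (𝓕 : Filter α), pr rp P t = ∏ a, (Polynomial.X -
      Polynomial.C (y t a)) := by
    filter_upwards [pr_monic rp hr2 P hP, pr_lead rp hr2 P hP.ne_zero, hs] with t e1 e2 e3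
    exact hy t e1 e2.2 e3
  have hslow : ∀ a, Slow 𝓕 H (fun t => y t a) := by
    intro a
    refine slow_root hH rp hr1 hr2 P hP.ne_zero _ ?_
    filter_upwards [hprod] with t ht
    rw [ht, Polynomial.eval_prod]
    refine Finset.prod_eq_zero (Finset.mem_univ a) ?_
    simp
  choose β hβ using fun a => hr3 _ (hslow a)
  refine ⟨β, ?_⟩
  apply Polynomial.map_injective _ (algebraMap 𝕊 (Gm 𝓕 K)).injective
  rw [← pu_mk rp hr2]
  have h2 : (∏ a, (Polynomial.X - Polynomial.C (β a))).map (algebraMap 𝕊 (Gm 𝓕 K)) =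
      (∏ a, (Polynomial.X - Polynomial.C (fun t => y t a))).map (mk 𝓕) := by
    rw [Polynomial.map_prod, Polynomial.map_prod]
    refine Finset.prod_congr rfl fun a _ => ?_
    rw [Polynomial.map_sub, Polynomial.map_sub, Polynomial.map_X, Polynomial.map_X,
      Polynomial.map_C, Polynomial.map_C, hβ]
  rw [h2]
  refine map_mk_of_ev ?_
  filter_upwards [hprod] with t ht
  have h3 : (pu rp P).map (Pi.evalRingHom (fun _ : α => K) t) = pr rp P t := rfl
  rw [h3, ht, Polynomial.map_prod]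
  refine Finset.prod_congr rfl fun a _ => ?_
  rw [Polynomial.map_sub, Polynomial.map_X, Polynomial.map_C]
  rfl

/-- the transfer of the absence of common zeros -/
theorem span_top_slow (rp : 𝕊 → α → K)
    (hr2 : ∀ s, mk 𝓕 (rp s) = algebraMap 𝕊 (Gm 𝓕 K) s) {w : ℕ} (P : Fin w → Polynomial 𝕊)
    (h : ∀ᶠ t in (𝓕 : Filter α), Ideal.span (Set.range fun j => pr rp (P j) t) = ⊤) :
    Ideal.span (Set.range P) = ⊤ := by
  refine span_top_of_dvd P fun p hp => ?_
  choose r hr using hp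
  have hp0 : p ≠ 0 := by
    rintro rfl
    have h1 : ∀ j, P j = 0 := fun j => by rw [hr, zero_mul]
    obtain ⟨t, ht⟩ := h.exists
    have h2 : ∀ j, pr rp (P j) t = pr rp 0 t := fun j => by rw [h1]
    obtain ⟨a, ha⟩ := exists_bezout _ ht
    have h3 : ∀ᶠ t in (𝓕 : Filter α), pr rp (0 : Polynomial 𝕊) t = 0 := by
      have h4 := pr_eq rp hr2 (0 : Polynomial 𝕊) 0 (by
        rw [Polynomial.map_zero, Polynomial.map_zero])
      filter_upwards [h4] with t ht
      rw [ht, Polynomial.map_zero]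
    obtain ⟨t, ht1, ht2⟩ := (h.and h3).exists
    obtain ⟨a, ha⟩ := exists_bezout _ ht1
    rw [Finset.sum_eq_zero (fun j _ => by rw [h1, ht2, mul_zero])] at ha
    exact zero_ne_one ha
  have h1 : ∀ᶠ t in (𝓕 : Filter α), ∀ j, pr rp (P j) t = pr rp p t * pr rp (r j) t := by
    rw [Filter.eventually_all]
    intro j
    have h2 := pr_mul rp hr2 p (r j)
    rw [← hr j] at h2
    exact h2
  obtain ⟨t, e1, e2, e3⟩ := (h.and (h1.and (pr_lead rp hr2 p hp0))).exists
  obtain ⟨a, ha⟩ := exists_bezout _ e1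
  have h4 : pr rp p t ∣ 1 := by
    rw [← ha]
    refine Finset.dvd_sum fun j _ => Dvd.dvd.mul_left ?_ _
    rw [e2]
    exact dvd_mul_right _ _
  have h5 := Polynomial.natDegree_eq_zero_of_isUnit (isUnit_of_dvd_one h4)
  rw [e3.2] at h5
  exact Polynomial.isUnit_iff_degree_eq_zero.2 (by
    rw [Polynomial.degree_eq_natDegree hp0, h5]
    rfl)

end Pool.Agent.H432.RC
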