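import Mathlib
import Pool.Agent.H432.RC.Tr

/-!
Preparations for the reduction.
-/

set_option autoImplicit false
set_option linter.unusedSectionVars false

namespace Pool.Agent.H432.RC

open MvPolynomial Pool.Agent.N750

variable {M d q w g : ℕ}

/-- a good choice of the point at infinity -/
theorem exists_r {k L : Type} [Field k] [Field L] [CharZero L] [Algebra k L]
    (c : Fin M → Fin (d + 1) → L) (s : Fin 2 → L) (hs : s ≠ 0)
    (F : Fin q → Fin w → MvPolynomial (Fin M) k) (δ : Fin q → ℕ)
    (hF : ∀ i j, (F i j).IsHomogeneous (δ i))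
    (hx : ∀ i, ∃ j, aeval (pc c s) (F i j) ≠ 0) :
    ∃ r : Fin (∑ i, δ i * d + 2), s 0 - (r.1 : L) * s 1 ≠ 0 ∧
      ∀ i, ∃ j, aeval (pc c ![(r.1 : L), 1]) (F i j) ≠ 0 := by
  classical
  choose j hj using hx
  set φ : Fin M → Polynomial L := fun l => ∑ m : Fin (d + 1), Polynomial.C (c l m) *
    Polynomial.X ^ m.1 with hφ
  have hφd : ∀ l, (φ l).natDegree ≤ d := by
    intro l
    refine Polynomial.natDegree_sum_le_of_forall_le _ _ fun m _ => ?_
    refine (Polynomial.natDegree_C_mul_X_pow_le _ _).trans ?_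
    exact Nat.lt_succ_iff.1 m.2
  have hφe : ∀ (T : L), (fun l => (φ l).eval T) = pc c ![T, 1] := by
    intro T
    funext l
    unfold pc
    rw [hφ]
    simp only
    rw [Polynomial.eval_finsetSum]
    refine Finset.sum_congr rfl fun m _ => ?_
    simp
  set Rr : Fin q → Polynomial L := fun i => aeval φ (F i (j i)) with hRr
  have hRe : ∀ i (T : L), (Rr i).eval T = aeval (pc c ![T, 1]) (F i (j i)) := by
    intro i T
    rw [hRr]
    simp only
    rw [aeval_eval, hφe]
  have hR0 : ∀ i, Rr i ≠ 0 := by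
    intro i h0
    have h1 : ∀ T : L, aeval (pc c ![T, 1]) (F i (j i)) = 0 := by
      intro T
      rw [← hRe, h0, Polynomial.eval_zero]
    by_cases hs1 : s 1 = 0
    · -- the point at infinity
      have hs0 : s 0 ≠ 0 := by
        intro h
        apply hs
        funext x
        fin_cases x
        · exact h
        · exact hs1
      set ψ : Fin M → Polynomial L := fun l => ∑ m : Fin (d + 1), Polynomial.C (c l m) *
        Polynomial.X ^ (d - m.1) with hψ
      have hψe : ∀ (U : L), (fun l => (ψ l).eval U) = pc c ![1, U] := by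
        intro U
        funext l
        unfold pc
        rw [hψ]
        simp only
        rw [Polynomial.eval_finsetSum]
        refine Finset.sum_congr rfl fun m _ => ?_
        simp
      have h2 : aeval ψ (F i (j i)) = 0 := by
        refine Polynomial.eq_zero_of_infinite_isRoot _ ?_
        refine Set.Infinite.mono (s := Set.range fun m : ℕ => ((m : L) + 1)) ?_
          (Set.infinite_range_of_injective fun a b hab => by
            simp only [add_left_inj] at hab
            exact_mod_cast hab)
        rintro _ ⟨m, rfl⟩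
        show Polynomial.eval ((m : L) + 1) _ = 0
        have hm : ((m : L) + 1) ≠ 0 := by exact_mod_cast Nat.succ_ne_zero m
        rw [aeval_eval, hψe]
        have h3 : pc c ![1, (m : L) + 1] =
            fun l => ((m : L) + 1) ^ d * pc c ![((m : L) + 1)⁻¹, 1] l := by
          rw [← pc_smul]
          congr 1
          funext x
          fin_cases x
          · simp [hm]
          · simp
        rw [h3, aeval_hom (hF i (j i)), h1, mul_zero]
      have h3 := congrArg (Polynomial.eval 0) h2
      rw [aeval_eval, hψe, Polynomial.eval_zero] at h3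
      apply hj i
      have h4 : pc c s = fun l => s 0 ^ d * pc c ![1, 0] l := by
        rw [← pc_smul]
        congr 1
        funext x
        fin_cases x
        · simp
        · simp [hs1]
      rw [h4, aeval_hom (hF i (j i)), h3, mul_zero]
    · apply hj i
      have h4 : pc c s = fun l => s 1 ^ d * pc c ![s 0 / s 1, 1] l := by
        rw [← pc_smul]
        congr 1
        funext x
        fin_cases x
        · show s 0 = s 1 * (s 0 / s 1)
          field_simp
        · simp
      rw [h4, aeval_hom (hF i (j i)), h1, mul_zero]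
  set Ls : Polynomial L := Polynomial.C (s 0) - Polynomial.X * Polynomial.C (s 1) with hLs
  have hL0 : Ls ≠ 0 := by
    intro h
    apply hs
    have h1 := congrArg (fun p => Polynomial.coeff p 0) h
    have h2 := congrArg (fun p => Polynomial.coeff p 1) h
    simp [hLs] at h1 h2
    funext x
    fin_cases x
    · exact h1
    · exact h2
  by_contra hcon
  push Not at hcon
  have hprod : Ls * ∏ i, Rr i ≠ 0 := mul_ne_zero hL0 (Finset.prod_ne_zero_iff.2 fun i _ => hR0 i)
  have hdeg : (Ls * ∏ i, Rr i).natDegree < ∑ i, δ i * d + 2 := by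
    have h1 : Ls.natDegree ≤ 1 := by
      rw [hLs]
      refine (Polynomial.natDegree_sub_le _ _).trans (max_le ?_ ?_)
      · rw [Polynomial.natDegree_C]
        exact Nat.zero_le _
      · exact (Polynomial.natDegree_mul_C_le _ _).trans Polynomial.natDegree_X_le
    have h2 : (∏ i, Rr i).natDegree ≤ ∑ i, δ i * d :=
      (Polynomial.natDegree_prod_le _ _).trans (Finset.sum_le_sum fun i _ =>
        aeval_deg (hF i (j i)) φ hφd)
    have h3 := Polynomial.natDegree_mul_le (p := Ls) (q := ∏ i, Rr i)
    omega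
  apply hprod
  refine Polynomial.eq_zero_of_natDegree_lt_card_of_eval_eq_zero _
    (f := fun r : Fin (∑ i, δ i * d + 2) => (r.1 : L)) (fun a b hab => Fin.ext (by
      have h1 : ((a.1 : ℕ) : L) = ((b.1 : ℕ) : L) := hab
      exact_mod_cast h1)) (fun r => ?_) (by
      rw [Fintype.card_fin]
      exact hdeg)
  by_cases h1 : s 0 - (r.1 : L) * s 1 = 0
  · have h2 : Ls.eval (r.1 : L) = 0 := by
      rw [hLs, ← h1]
      simp
      ring
    rw [Polynomial.eval_mul, h2, zero_mul]
  · obtain ⟨i, hi⟩ := hcon r h1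
    rw [Polynomial.eval_mul, Polynomial.eval_prod,
      Finset.prod_eq_zero (Finset.mem_univ i) (by rw [hRe]; exact hi (j i)), mul_zero]

/-- the property of the exceptional form -/
def GeoP {k : Type} [Field k] (K : Type) [Field K] [Algebra k K] (n' : ℕ)
    (G : Fin g → MvPolynomial (Fin M) k) (F : Fin q → Fin w → MvPolynomial (Fin M) k) (d V : ℕ)
    (Φ : MvPolynomial (Fin M) k) : Prop :=
  ∀ ν : ℕ, ν ≤ V → ∀ φ : Fin M → Polynomial K, (∀ l, (φ l).natDegree ≤ d) →
      (∃ l l', φ l * Polynomial.derivative (φ l') - φ l' * Polynomial.derivative (φ l) ≠ 0) →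
      (∀ i, aeval φ (G i) = 0) → aeval φ Φ ≠ 0 →
      ∀ β : Fin ν → K, Function.Injective β → (∀ a, ∃ l, (φ l).eval (β a) ≠ 0) →
      ∀ m : Fin ν → Fin q → ℕ, (∀ a i, m a i ≤ V) →
      (∀ a i j, (Polynomial.X - Polynomial.C (β a)) ^ (m a i) ∣ aeval φ (F i j)) →
      2 + ∑ a, (∑ i, m a i - 1) ≤ (n' + 2) * d ∧ ∃ Γ : (Fin (n' + 2) → Fin M) → Polynomial K,
        GC G φ ((n' + 2) * d - 2 - ∑ a, (∑ i, m a i - 1)) Γ

theorem exists_geoP {k K : Type} [Field k] [Field K] [CharZero K] [Algebra k K] {n' : ℕ}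
    (G : Fin g → MvPolynomial (Fin M) k) (e : Fin g → ℕ) (hG : ∀ i, (G i).IsHomogeneous (e i))
    (hI : (Ideal.span (Set.range G)).IsPrime) (hsm : Sm (n' + 1) G)
    (F : Fin q → Fin w → MvPolynomial (Fin M) k) (δ : Fin q → ℕ)
    (hF : ∀ i j, (F i j).IsHomogeneous (δ i)) (hnc : NCD G F) (d V : ℕ) (hd0 : 1 ≤ d) :
    ∃ (mΦ : ℕ) (Φ : MvPolynomial (Fin M) k), Φ.IsHomogeneous mΦ ∧
      Φ ∉ Ideal.span (Set.range G) ∧ GeoP K n' G F d V Φ := by
  choose m Φ h1 h2 h3 using fun ν => geo (K := K) G e hG hI hsm F δ hF hnc d ν V hd0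
  refine ⟨∑ ν ∈ Finset.range (V + 1), m ν, ∏ ν ∈ Finset.range (V + 1), Φ ν,
    MvPolynomial.IsHomogeneous.prod _ _ _ fun ν _ => h1 ν, ?_, ?_⟩
  · intro h
    rw [hI.prod_mem_iff] at h
    obtain ⟨ν, -, hν⟩ := h
    exact h2 ν hν
  · intro ν hν φ e1 e2 e3 e4 β e5 e6 mm e7 e8
    refine h3 ν φ e1 e2 e3 ?_ β e5 e6 mm e7 e8
    intro h
    apply e4
    rw [map_prod]
    exact Finset.prod_eq_zero (Finset.mem_range.2 (Nat.lt_succ_of_le hν)) h

/-- the property over a subfield -/
theorem GeoP.descend {k K L : Type} [Field k] [Field K] [Field L] [Algebra k K] [Algebra k L]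
    (ι : L →ₐ[k] K) {n' : ℕ} {G : Fin g → MvPolynomial (Fin M) k}
    {F : Fin q → Fin w → MvPolynomial (Fin M) k} {d V : ℕ} {Φ : MvPolynomial (Fin M) k}
    (h : GeoP K n' G F d V Φ) : GeoP L n' G F d V Φ := by
  intro ν hν φ e1 e2 e3 e4 β e5 e6 m e7 e8
  let _ : Algebra L K := ι.toRingHom.toAlgebra
  have htow : IsScalarTower k L K := IsScalarTower.of_algebraMap_eq fun x => (ι.commutes x).symm
  have hinj : Function.Injective (algebraMap L K) := (algebraMap L K).injective
  have hinjp : Function.Injective (Polynomial.map (algebraMap L K)) :=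
    Polynomial.map_injective _ hinj
  obtain ⟨h1, Γ, h2⟩ := h ν hν (fun l => (φ l).map (algebraMap L K))
    (fun l => (Polynomial.natDegree_map_le).trans (e1 l)) (by
      obtain ⟨l, l', hl⟩ := e2
      refine ⟨l, l', fun h0 => hl (hinjp ?_)⟩
      rw [Polynomial.map_zero, ← h0, Polynomial.map_sub, Polynomial.map_mul, Polynomial.map_mul,
        Polynomial.derivative_map, Polynomial.derivative_map]) (by
      intro i
      rw [← aeval_mapA, e3, Polynomial.map_zero]) (by
      rw [← aeval_mapA]
      exact fun h0 => e4 (hinjp (by rw [h0, Polynomial.map_zero])))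
    (fun a => algebraMap L K (β a)) (hinj.comp e5) (by
      intro a
      obtain ⟨l, hl⟩ := e6 a
      refine ⟨l, ?_⟩
      rw [Polynomial.eval_map_algebraMap, Polynomial.aeval_algebraMap_apply,
        Polynomial.coe_aeval_eq_eval]
      exact (map_ne_zero_iff _ hinj).2 hl) m e7 (by
      intro a i j
      have h3 := Polynomial.map_dvd (algebraMap L K) (e8 a i j)
      rw [Polynomial.map_pow, Polynomial.map_sub, Polynomial.map_X, Polynomial.map_C,
        aeval_mapA] at h3
      exact h3)
  exact ⟨h1, GC_descend G φ Γ h2⟩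

end Pool.Agent.H432.RC
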