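import Mathlib
import Pool.Agent.H432.RC.Red

/-!
Greatest common divisors, and the distinct roots.
-/

set_option autoImplicit false
set_option linter.unusedSectionVars false

namespace Pool.Agent.H432.RC

open Polynomial

/-- the greatest common divisor of a family -/
theorem exists_gcd {F : Type} [Field F] {w : ℕ} (P : Fin w → F[X]) (h : ∃ j, P j ≠ 0) :
    ∃ (p : F[X]) (Q a : Fin w → F[X]), p.Monic ∧ (∀ j, P j = p * Q j) ∧
      ∑ j, a j * P j = p ∧ Ideal.span (Set.range Q) = ⊤ := by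
  obtain ⟨p0, hp0⟩ := (IsPrincipalIdealRing.principal (Ideal.span (Set.range P))).principal
  have hdvd0 : ∀ j, p0 ∣ P j := by
    intro j
    have h2 : P j ∈ Ideal.span (Set.range P) := Ideal.subset_span ⟨j, rfl⟩
    rw [hp0] at h2
    exact Ideal.mem_span_singleton.1 h2
  have hp00 : p0 ≠ 0 := by
    rintro rfl
    obtain ⟨j, hj⟩ := h
    exact hj (zero_dvd_iff.1 (hdvd0 j))
  have hmem : p0 ∈ Ideal.span (Set.range P) := by
    rw [hp0]
    exact Submodule.mem_span_singleton_self p0
  obtain ⟨a0, ha0⟩ := (Submodule.mem_span_range_iff_exists_fun F[X]).1 hmem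
  set u : F := (p0.leadingCoeff)⁻¹ with hu
  have hu0 : u ≠ 0 := inv_ne_zero (leadingCoeff_ne_zero.2 hp00)
  have hmon : (p0 * C u).Monic := monic_mul_leadingCoeff_inv hp00
  have hdvd : ∀ j, p0 * C u ∣ P j := by
    intro j
    obtain ⟨r, hr⟩ := hdvd0 j
    refine ⟨C u⁻¹ * r, ?_⟩
    rw [hr]
    have h1 : C u * C u⁻¹ = (1 : F[X]) := by
      rw [← C_mul, mul_inv_cancel₀ hu0, C_1]
    calc p0 * r = p0 * 1 * r := by ring
      _ = p0 * (C u * C u⁻¹) * r := by rw [h1]
      _ = _ := by ring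
  choose Q hQ using hdvd
  have ha : ∑ j, (C u * a0 j) * P j = p0 * C u := by
    rw [← ha0, Finset.sum_mul]
    refine Finset.sum_congr rfl fun j _ => ?_
    rw [smul_eq_mul]
    ring
  refine ⟨p0 * C u, Q, fun j => C u * a0 j, hmon, hQ, ha, ?_⟩
  refine span_top_of_dvd Q fun p hp => ?_
  have h1 : (p0 * C u) * p ∣ p0 * C u * 1 := by
    rw [mul_one]
    conv_rhs => rw [← ha]
    refine Finset.dvd_sum fun j _ => Dvd.dvd.mul_left ?_ _
    rw [hQ j]
    exact mul_dvd_mul_left _ (hp j)
  exact isUnit_of_dvd_one ((mul_dvd_mul_iff_left hmon.ne_zero).1 h1)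

/-- the distinct roots of a finite family of split polynomials -/
theorem distinct {F : Type} [Field F] {q : ℕ} (r : Fin q → ℕ) (β : ∀ i, Fin (r i) → F) :
    ∃ (ν : ℕ) (b : Fin ν → F) (m : Fin ν → Fin q → ℕ), Function.Injective b ∧
      ν ≤ ∑ i, r i ∧ (∀ a i, m a i ≤ r i) ∧ (∀ a, 1 ≤ ∑ i, m a i) ∧
      ∀ i, ∏ a, (X - C (β i a)) = ∏ a, (X - C (b a)) ^ m a i := by
  classical
  set f : (Σ i, Fin (r i)) → F := fun x => β x.1 x.2 with hf
  set Bs : Finset F := Finset.univ.image f with hBs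
  let e := Bs.equivFin
  refine ⟨Bs.card, fun a => (e.symm a).1,
    fun a i => (Finset.univ.filter fun x : Fin (r i) => β i x = (e.symm a).1).card,
    fun a a' h => e.symm.injective (Subtype.ext h), ?_, ?_, ?_, ?_⟩
  · refine (Finset.card_image_le).trans ?_
    rw [Finset.card_univ, Fintype.card_sigma]
    simp
  · intro a i
    refine (Finset.card_filter_le _ _).trans ?_
    rw [Finset.card_univ, Fintype.card_fin]
  · intro a
    obtain ⟨x, -, hx⟩ := Finset.mem_image.1 (e.symm a).2
    have h1 : 1 ≤ (Finset.univ.filter fun y : Fin (r x.1) => β x.1 y = (e.symm a).1).card :=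
      Finset.card_pos.2 ⟨x.2, Finset.mem_filter.2 ⟨Finset.mem_univ _, hx⟩⟩
    exact h1.trans (Finset.single_le_sum (f := fun i => (Finset.univ.filter fun y : Fin (r i) =>
      β i y = (e.symm a).1).card) (fun _ _ => Nat.zero_le _) (Finset.mem_univ x.1))
  · intro i
    have h1 : ∏ a, (X - C ((e.symm a).1)) ^ (Finset.univ.filter fun x : Fin (r i) =>
        β i x = (e.symm a).1).card = ∏ y ∈ Bs, (X - C y) ^ (Finset.univ.filter fun x : Fin (r i) =>
        β i x = y).card := by
      rw [← Finset.prod_coe_sort Bs]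
      exact Equiv.prod_comp e.symm (fun y : Bs => (X - C y.1) ^ (Finset.univ.filter
        fun x : Fin (r i) => β i x = y.1).card)
    rw [h1, ← Finset.prod_fiberwise_of_maps_to (s := Finset.univ) (t := Bs) (g := β i) (by
      intro x _
      exact Finset.mem_image.2 ⟨⟨i, x⟩, Finset.mem_univ _, rfl⟩)]
    refine Finset.prod_congr rfl fun y _ => ?_
    rw [← Finset.prod_const]
    refine Finset.prod_congr rfl fun x hx => ?_
    rw [(Finset.mem_filter.1 hx).2]

end Pool.Agent.H432.RC
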