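import Mathlib
import Pool.Agent.H432.RC.Gcd
import Pool.Graph.R_pool_sql_team_seeded_63374d34.N750.Gmk

/-!
The estimate for sequences of rational curves.
-/

set_option autoImplicit false
set_option linter.unusedSectionVars false

open Filter Topology

namespace Pool.Agent.H432.RC

open NumberField IsDedekindDomain Height Module MvPolynomial Pool.Agent.N750
open Pool.Agent.W180.OP (Pl av wt nrm le_nrm nrm_pos wt_nonneg exists_nrm nrm_nonneg)

variable {M g q w n' d : ℕ}

/-- the curves in question -/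
structure CurveOK {k L : Type} [Field k] [Field L] [Algebra k L]
    (G : Fin g → MvPolynomial (Fin M) k) (F : Fin q → Fin w → MvPolynomial (Fin M) k)
    (c : Fin M → Fin (d + 1) → L) : Prop where
  nz : ∀ (Ω : Type) [Field Ω] [Algebra L Ω] (z : Fin 2 → Ω), z ≠ 0 →
    pc (fun l m => algebraMap L Ω (c l m)) z ≠ 0
  onX : ∀ (z : Fin 2 → L) (i : Fin g), aeval (pc c z) (G i) = 0
  rat : ∀ (Ω : Type) [Field Ω] [Algebra L Ω] [Algebra k Ω] [IsScalarTower k L Ω]
    (z : Fin 2 → Ω), z ≠ 0 → ∀ i, (∀ j, aeval (pc (fun l m => algebraMap L Ω (c l m)) z)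
    (F i j) = 0) → ∃ (y : Fin 2 → L) (a : Ω), z = fun i => a * algebraMap L Ω (y i)

section affine

variable {k L : Type} [Field k] [Field L] [CharZero L] [Algebra k L]
  {G : Fin g → MvPolynomial (Fin M) k} {F : Fin q → Fin w → MvPolynomial (Fin M) k}
  {c : Fin M → Fin (d + 1) → L}

theorem cpol_aeval (r : L) (c : Fin M → Fin (d + 1) → L) {Ω : Type} [Field Ω] [Algebra L Ω]
    (z : Ω) (l : Fin M) : Polynomial.aeval z (cpol r c l) =
      pc (fun l m => algebraMap L Ω (c l m)) ![algebraMap L Ω r * z + 1, z] l := by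
  rw [← Polynomial.eval_map_algebraMap, cpol_map, cpol_eval]

theorem vec_ne {Ω : Type} [Field Ω] (r z : Ω) : (![r * z + 1, z] : Fin 2 → Ω) ≠ 0 := by
  intro h
  have h0 := congrFun h 0
  have h1 := congrFun h 1
  simp only [Matrix.cons_val_zero, Matrix.cons_val_one, Pi.zero_apply] at h0 h1
  rw [h1, mul_zero, zero_add] at h0
  exact one_ne_zero h0

theorem CurveOK.top (h : CurveOK G F c) (r : L) :
    Ideal.span (Set.range (cpol r c)) = ⊤ := by
  refine span_top_of_nozero _ fun Ω _ _ z => ?_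
  have h1 := h.nz Ω ![algebraMap L Ω r * z + 1, z] (vec_ne _ _)
  obtain ⟨l, hl⟩ := Function.ne_iff.1 h1
  exact ⟨l, by rw [cpol_aeval]; exact hl⟩

theorem CurveOK.lead (h : CurveOK G F c) (r : L) : ∃ l, (cpol r c l).coeff d ≠ 0 := by
  have h1 := h.nz L ![r, 1] (fun h => one_ne_zero (congrFun h 1))
  obtain ⟨l, hl⟩ := Function.ne_iff.1 h1
  exact ⟨l, by rw [cpol_coeff]; exact hl⟩

theorem CurveOK.poly (h : CurveOK G F c) (r : L) (i : Fin g) : aeval (cpol r c) (G i) = 0 := by
  refine Polynomial.funext fun z => ?_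
  rw [aeval_eval, Polynomial.eval_zero]
  have h1 : (fun l => (cpol r c l).eval z) = pc c ![r * z + 1, z] := by
    funext l
    exact cpol_eval r c z l
  rw [h1]
  exact h.onX _ i

theorem CurveOK.roots (h : CurveOK G F c) (r : L) (Ω : Type) [Field Ω] [Algebra L Ω] (z : Ω)
    (i : Fin q) (hz : ∀ j, Polynomial.aeval z (aeval (cpol r c) (F i j)) = 0) :
    ∃ y : L, algebraMap L Ω y = z := by
  let _ : Algebra k Ω := ((algebraMap L Ω).comp (algebraMap k L)).toAlgebra
  have htow : IsScalarTower k L Ω := IsScalarTower.of_algebraMap_eq fun x => rfl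
  obtain ⟨y, a, hy⟩ := h.rat Ω ![algebraMap L Ω r * z + 1, z] (vec_ne _ _) i (by
    intro j
    have h1 := hz j
    have h2 := MvPolynomial.comp_aeval_apply (cpol r c)
      ((Polynomial.aeval z : Polynomial L →ₐ[L] Ω).restrictScalars k) (F i j)
    have h3 : (fun l => ((Polynomial.aeval z : Polynomial L →ₐ[L] Ω).restrictScalars k)
        (cpol r c l)) = pc (fun l m => algebraMap L Ω (c l m)) ![algebraMap L Ω r * z + 1, z] := by
      funext l
      exact cpol_aeval r c z l
    rw [h3] at h2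
    rw [← h2]
    exact h1)
  have h0 := congrFun hy 0
  have h1 := congrFun hy 1
  simp only [Matrix.cons_val_zero, Matrix.cons_val_one] at h0 h1
  -- 1 = a (y0 - r y1)
  have h2 : a * algebraMap L Ω (y 0 - r * y 1) = 1 := by
    rw [map_sub, map_mul]
    linear_combination -h0 + (algebraMap L Ω r) * h1
  have h3 : y 0 - r * y 1 ≠ 0 := by
    intro h
    rw [h, map_zero, mul_zero] at h2
    exact zero_ne_one h2
  refine ⟨(y 0 - r * y 1)⁻¹ * y 1, ?_⟩
  have h4 : a = (algebraMap L Ω (y 0 - r * y 1))⁻¹ := eq_inv_of_mul_eq_one_left h2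
  rw [h1, h4, map_mul, map_inv₀]

end affine

/-- **the estimate for a family of curves with slow coefficients** -/
theorem germ_curve {k K α : Type} [Field k] [NumberField k] [Field K] [NumberField K]
    [Algebra k K] {𝓕 : Ultrafilter α} (G : Fin g → MvPolynomial (Fin M) k) (hsm : Sm (n' + 1) G)
    (F : Fin q → Fin w → MvPolynomial (Fin M) k) (δ : Fin q → ℕ)
    (hF : ∀ i j, (F i j).IsHomogeneous (δ i)) (hd0 : 1 ≤ d) {V : ℕ} (hV : V = ∑ i, δ i * d)
    {Φ : MvPolynomial (Fin M) k} (hgeo : GeoP K n' G F d V Φ)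
    (τ : α → K) (hH : Tendsto (fun t => logHeight ![1, τ t]) 𝓕 atTop)
    (c : α → Fin M → Fin (d + 1) → K)
    (hslow : ∀ l m, Slow 𝓕 (fun t => logHeight ![1, τ t]) (fun t => c t l m))
    (hc : ∀ t, CurveOK G F (c t)) (r : K)
    (hr : ∀ t i, ∃ j, aeval (pc (c t) ![r, 1]) (F i j) ≠ 0)
    (hΦ : ∀ t, aeval (cpol r (c t)) Φ ≠ 0) (A : α → Fin M → Fin (n' + 2) → K)
    (hA : ∀ t, IsTB G (pc (c t) ![r * τ t + 1, τ t]) (A t)) (S : Finset (Pl K)) (ε : ℝ)
    (hε : 0 < ε) :
    ∀ᶠ t in (𝓕 : Filter α), (∑ p ∈ S, wt p * ∑ i, ((δ i : ℝ) *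
      Real.log (nrm (av p) (pc (c t) ![r * τ t + 1, τ t])) -
      Real.log (nrm (av p) (fun j => aeval (pc (c t) ![r * τ t + 1, τ t]) (F i j)))) +
      logHeight (mv (A t)) ≤
      (n' + 2) * logHeight (pc (c t) ![r * τ t + 1, τ t]) + ε * logHeight ![1, τ t]) ∧
      d * logHeight ![1, τ t] ≤ logHeight (pc (c t) ![r * τ t + 1, τ t]) +
        ε * logHeight ![1, τ t] := by
  classical
  set H : α → ℝ := fun t => logHeight ![1, τ t] with hHdef
  let 𝕂 := Gm 𝓕 K
  let 𝕊 := slowF 𝓕 K H hH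
  let _ : Algebra k 𝕂 := ((algebraMap K 𝕂).comp (algebraMap k K)).toAlgebra
  let _ : Algebra k 𝕊 := ((algebraMap K 𝕊).comp (algebraMap k K)).toAlgebra
  have t1 : IsScalarTower k K 𝕂 := IsScalarTower.of_algebraMap_eq fun x => rfl
  have t2 : IsScalarTower k K 𝕊 := IsScalarTower.of_algebraMap_eq fun x => rfl
  have t3 : IsScalarTower k 𝕊 𝕂 := IsScalarTower.of_algebraMap_eq fun x => rfl
  have c1 : CharZero 𝕂 := charZero_of_injective_algebraMap (algebraMap K 𝕂).injective
  have c2 : CharZero 𝕊 := charZero_of_injective_algebraMap (algebraMap K 𝕊).injective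
  obtain ⟨rp, hr1, hr2⟩ := exists_rp (𝓕 := 𝓕) (K := K) (H := H) (hH := hH)
  have hr3 : ∀ a, Slow 𝓕 H a → ∃ s : 𝕊, algebraMap 𝕊 𝕂 s = mk 𝓕 a := fun a ha => slow_mem a ha
  choose cS hcS using fun l m => hr3 _ (hslow l m)
  set ι : 𝕊 →+* 𝕂 := algebraMap 𝕊 𝕂 with hι
  have hιi : Function.Injective ι := ι.injective
  set rS : 𝕊 := algebraMap K 𝕊 r with hrS
  have hrSι : ι rS = mk 𝓕 (fun _ => r) := by
    rw [hι, hrS, ← IsScalarTower.algebraMap_apply K 𝕊 𝕂]
    rfl
  let mkA : (α → K) →ₐ[k] 𝕂 := { mk 𝓕 with commutes' := fun c => rfl }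
  let evA : ∀ s : α, (α → K) →ₐ[k] K := fun s =>
    { Pi.evalRingHom (fun _ : α => K) s with commutes' := fun c => rfl }
  set φS : Fin M → Polynomial 𝕊 := cpol rS cS with hφS
  set φu : Fin M → Polynomial (α → K) := cpol (fun _ => r) (fun l m t => c t l m) with hφu
  have hφmk : ∀ l, (φu l).map (mk 𝓕) = (φS l).map ι := by
    intro l
    rw [hφu, hφS, cpol_map, cpol_map, hrSι]
    congr 1
    funext l m
    exact (hcS l m).symm
  have hφev : ∀ t l, (φu l).map (Pi.evalRingHom (fun _ : α => K) t) = cpol r (c t) l := by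
    intro t l
    rw [hφu, cpol_map]
    rfl
  have hPmk : ∀ P : MvPolynomial (Fin M) k, (aeval φu P).map (mk 𝓕) = (aeval φS P).map ι := by
    intro P
    have e1 := aeval_mapP mkA φu P
    have e2 := aeval_mapA (R' := 𝕂) φS P
    have e3 : (fun l => (φu l).map ((mkA : (α → K) →ₐ[k] 𝕂) : (α → K) →+* 𝕂)) =
        fun l => (φS l).map (algebraMap 𝕊 𝕂) := by
      funext l
      exact hφmk l
    rw [e3] at e1
    exact e1.trans e2.symm
  have hPev : ∀ (P : MvPolynomial (Fin M) k) (t : α),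
      (aeval φu P).map (Pi.evalRingHom (fun _ : α => K) t) = aeval (cpol r (c t)) P := by
    intro P t
    have e1 := aeval_mapP (evA t) φu P
    have e2 : (fun l => (φu l).map ((evA t : (α → K) →ₐ[k] K) : (α → K) →+* K)) =
        cpol r (c t) := by
      funext l
      exact hφev t l
    rw [e2] at e1
    exact e1
  have hPpr : ∀ P : MvPolynomial (Fin M) k, ∀ᶠ t in (𝓕 : Filter α),
      pr rp (aeval φS P) t = aeval (cpol r (c t)) P := by
    intro P
    have e1 := pr_eq rp hr2 (aeval φS P) (aeval φu P) (hPmk P)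
    filter_upwards [e1] with t ht
    rw [ht, hPev]
  have hφpr : ∀ᶠ t in (𝓕 : Filter α), ∀ l, pr rp (φS l) t = cpol r (c t) l := by
    rw [Filter.eventually_all]
    intro l
    have e1 := pr_eq rp hr2 (φS l) (φu l) (hφmk l)
    filter_upwards [e1] with t ht
    rw [ht, hφev]
  -- the curve
  have hdS : ∀ l, (φS l).natDegree ≤ d := fun l => cpol_deg rS cS l
  have hXS : ∀ i, aeval φS (G i) = 0 := by
    intro i
    apply Polynomial.map_injective ι hιi
    rw [← hPmk, Polynomial.map_zero]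
    have e1 : (aeval φu (G i)).map (mk 𝓕) = (0 : Polynomial (α → K)).map (mk 𝓕) := by
      refine map_mk_of_ev (Eventually.of_forall fun t => ?_)
      rw [hPev, (hc t).poly, Polynomial.map_zero]
    rw [e1, Polynomial.map_zero]
  have htopS : Ideal.span (Set.range φS) = ⊤ := by
    refine span_top_slow rp hr2 φS ?_
    filter_upwards [hφpr] with t ht
    have e1 : (fun j => pr rp (φS j) t) = cpol r (c t) := funext ht
    rw [e1]
    exact (hc t).top r
  have hcoef : ∀ (P : MvPolynomial (Fin M) k) (m : ℕ), ι ((aeval φS P).coeff m) =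
      mk 𝓕 (fun t => (aeval (cpol r (c t)) P).coeff m) := by
    intro P m
    rw [← Polynomial.coeff_map, ← hPmk, Polynomial.coeff_map]
    congr 1
    funext t
    rw [← hPev, Polynomial.coeff_map]
    rfl
  have hleadS : ∃ l, (φS l).coeff d ≠ 0 := by
    choose l hl using fun t => (hc t).lead r
    obtain ⟨l0, hl0⟩ := exists_val (𝓕 := 𝓕) l
    refine ⟨l0, fun h => ?_⟩
    have e1 : ι ((φS l0).coeff d) = mk 𝓕 (fun t => (cpol r (c t) l0).coeff d) := by
      rw [← Polynomial.coeff_map, ← hφmk, Polynomial.coeff_map]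
      congr 1
      funext t
      rw [← hφev, Polynomial.coeff_map]
      rfl
    rw [h, map_zero] at e1
    obtain ⟨t, e2, e3⟩ := ((mk_eq_zero.1 e1.symm).and hl0).exists
    apply hl t
    rw [e3]
    exact e2
  have hFleadS : ∀ i, ∃ j, (aeval φS (F i j)).coeff (δ i * d) ≠ 0 := by
    intro i
    choose j hj using fun t => hr t i
    obtain ⟨j0, hj0⟩ := exists_val (𝓕 := 𝓕) j
    refine ⟨j0, fun h => ?_⟩
    have e1 := hcoef (F i j0) (δ i * d)
    rw [h, map_zero] at e1
    obtain ⟨t, e2, e3⟩ := ((mk_eq_zero.1 e1.symm).and hj0).exists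
    apply hj t
    rw [e3]
    rw [aeval_top (hF i j0) _ (fun l => cpol_deg r (c t) l)] at e2
    rw [← e2]
    congr 2
    funext l
    exact (cpol_coeff r (c t) l).symm
  -- the greatest common divisors
  have hgcd : ∀ i, ∃ (p : Polynomial 𝕊) (Q a : Fin w → Polynomial 𝕊), p.Monic ∧
      (∀ j, aeval φS (F i j) = p * Q j) ∧ ∑ j, a j * aeval φS (F i j) = p ∧
      Ideal.span (Set.range Q) = ⊤ := by
    intro i
    refine exists_gcd (fun j => aeval φS (F i j)) ?_
    obtain ⟨j, hj⟩ := hFleadS i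
    exact ⟨j, fun h => hj (by rw [h, Polynomial.coeff_zero])⟩
  choose P Q a hPm hPQ hPa hQtop using hgcd
  have hsplit : ∀ i, ∃ β : Fin (P i).natDegree → 𝕊,
      P i = ∏ a, (Polynomial.X - Polynomial.C (β a)) := by
    intro i
    refine split_slow hH rp hr1 hr2 hr3 (P i) (hPm i) ?_
    have e1 : ∀ᶠ t in (𝓕 : Filter α), ∀ j, aeval (cpol r (c t)) (F i j) =
        pr rp (P i) t * pr rp (Q i j) t := by
      rw [Filter.eventually_all]
      intro j
      have e2 := pr_mul rp hr2 (P i) (Q i j)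
      rw [← hPQ] at e2
      filter_upwards [e2, hPpr (F i j)] with t f1 f2
      rw [← f2, f1]
    filter_upwards [e1] with t ht Ω _ _ z hz
    refine (hc t).roots r Ω z i fun j => ?_
    rw [ht j, map_mul, hz, zero_mul]
  choose β hβ using hsplit
  obtain ⟨ν, b, m, hb, hν, hmr, hm1, hprod⟩ := distinct (fun i => (P i).natDegree) β
  have hPdeg : ∀ i, (P i).natDegree ≤ δ i * d := by
    intro i
    obtain ⟨j, hj⟩ := hFleadS i
    have h0 : aeval φS (F i j) ≠ 0 := fun h => hj (by rw [h, Polynomial.coeff_zero])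
    exact (Polynomial.natDegree_le_of_dvd (Dvd.intro _ (hPQ i j).symm) h0).trans
      (aeval_deg (hF i j) φS hdS)
  have hνV : ν ≤ V := by
    rw [hV]
    exact hν.trans (Finset.sum_le_sum fun i _ => hPdeg i)
  have hmV : ∀ a i, m a i ≤ V := by
    intro a i
    rw [hV]
    exact ((hmr a i).trans (hPdeg i)).trans (Finset.single_le_sum (f := fun i => δ i * d)
      (fun _ _ => Nat.zero_le _) (Finset.mem_univ i))
  have hFQ : ∀ i j, aeval φS (F i j) =
      (∏ a, (Polynomial.X - Polynomial.C (b a)) ^ m a i) * Q i j := by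
    intro i j
    rw [hPQ i j, ← hprod i, ← hβ i]
  -- the geometry
  have hdvd : ∀ᶠ t in (𝓕 : Filter α), ∀ x : Fin ν × Fin q × Fin w,
      (Polynomial.X - Polynomial.C (rp (b x.1) t)) ^ (m x.1 x.2.1) ∣
        aeval (cpol r (c t)) (F x.2.1 x.2.2) := by
    rw [Filter.eventually_all]
    rintro ⟨a, i, j⟩
    have e1 : (Polynomial.X - Polynomial.C (b a)) ^ m a i ∣ aeval φS (F i j) := by
      rw [hFQ i j]
      exact Dvd.dvd.mul_right (Finset.dvd_prod_of_mem _ (Finset.mem_univ a)) _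
    obtain ⟨R, hR⟩ := e1
    have e2 := pr_mul rp hr2 ((Polynomial.X - Polynomial.C (b a)) ^ m a i) R
    rw [← hR] at e2
    filter_upwards [e2, hPpr (F i j), pr_pow rp hr2 (Polynomial.X - Polynomial.C (b a)) (m a i),
      pr_XC rp hr2 (b a)] with t f1 f2 f3 f4
    rw [← f2, f1, f3, f4]
    exact dvd_mul_right _ _
  have hbinj : ∀ᶠ t in (𝓕 : Filter α), Function.Injective fun a => rp (b a) t := by
    have e1 : ∀ᶠ t in (𝓕 : Filter α), ∀ x : Fin ν × Fin ν, x.1 ≠ x.2 →
        rp (b x.1) t ≠ rp (b x.2) t := by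
      rw [Filter.eventually_all]
      rintro ⟨a, a'⟩
      by_cases haa : a = a'
      · exact Eventually.of_forall fun t h => absurd haa h
      · have h2 : mk 𝓕 (rp (b a)) ≠ mk 𝓕 (rp (b a')) := by
          rw [hr2, hr2]
          exact fun h => haa (hb (hιi h))
        have h3 : ∀ᶠ t in (𝓕 : Filter α), rp (b a) t ≠ rp (b a') t := by
          rw [Ne, mk_eq, ← Ultrafilter.eventually_not] at h2
          exact h2
        filter_upwards [h3] with t ht _
        exact ht
    filter_upwards [e1] with t ht a a' haa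
    by_contra hne
    exact ht (a, a') hne haa
  have hgeo1 : ∀ᶠ t in (𝓕 : Filter α), 2 + ∑ a, (∑ i, m a i - 1) ≤ (n' + 2) * d ∧
      ∃ Γ : (Fin (n' + 2) → Fin M) → Polynomial K,
        GC G (cpol r (c t)) ((n' + 2) * d - 2 - ∑ a, (∑ i, m a i - 1)) Γ := by
    filter_upwards [hdvd, hbinj] with t e1 e2
    refine hgeo ν hνV (cpol r (c t)) (fun l => cpol_deg r (c t) l)
      (wronskian_ne _ hd0 (fun l => cpol_deg r (c t) l) ((hc t).top r) ((hc t).lead r))
      (fun i => (hc t).poly r i) (hΦ t) (fun a => rp (b a) t) e2 (fun a => ?_) m hmV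
      (fun a i j => e1 (a, i, j))
    have e3 := (hc t).nz K ![r * rp (b a) t + 1, rp (b a) t] (vec_ne _ _)
    obtain ⟨l, hl⟩ := Function.ne_iff.1 e3
    exact ⟨l, by rw [cpol_eval]; exact hl⟩
  have hle : 2 + ∑ a, (∑ i, m a i - 1) ≤ (n' + 2) * d := by
    obtain ⟨t, ht⟩ := hgeo1.exists
    exact ht.1
  set D1 : ℕ := (n' + 2) * d - 2 - ∑ a, (∑ i, m a i - 1) with hD1
  -- the germ of the solution
  have hch : ∀ t, ∃ Γ : (Fin (n' + 2) → Fin M) → Polynomial K,
      (∃ Γ : (Fin (n' + 2) → Fin M) → Polynomial K, GC G (cpol r (c t)) D1 Γ) →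
      GC G (cpol r (c t)) D1 Γ := by
    intro t
    by_cases h : ∃ Γ : (Fin (n' + 2) → Fin M) → Polynomial K, GC G (cpol r (c t)) D1 Γ
    · obtain ⟨Γ, hΓ⟩ := h
      exact ⟨Γ, fun _ => hΓ⟩
    · exact ⟨fun _ => 0, fun h' => absurd h' h⟩
  choose Γt hΓt using hch
  have hΓt' : ∀ᶠ t in (𝓕 : Filter α), GC G (cpol r (c t)) D1 (Γt t) := by
    filter_upwards [hgeo1] with t ht
    exact hΓt t ht.2
  set Γu : (Fin (n' + 2) → Fin M) → Polynomial (α → K) := fun J => up D1 (fun t => Γt t J)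
    with hΓu
  have hΓuev : ∀ᶠ t in (𝓕 : Filter α), ∀ J,
      (Γu J).map (Pi.evalRingHom (fun _ : α => K) t) = Γt t J := by
    filter_upwards [hΓt'] with t ht J
    exact up_ev (ht.2.1 J)
  have hΓG : GC G (fun l => (φS l).map (algebraMap 𝕊 𝕂)) D1 (fun J => (Γu J).map (mk 𝓕)) := by
    refine ⟨?_, ?_, ?_, ?_⟩
    · have e1 : ∀ t, ∃ J, (∃ J, Γt t J ≠ 0) → Γt t J ≠ 0 := by
        intro t
        by_cases h : ∃ J, Γt t J ≠ 0
        · obtain ⟨J, hJ⟩ := h
          exact ⟨J, fun _ => hJ⟩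
        · obtain ⟨t', ht'⟩ := hΓt'.exists
          obtain ⟨J, -⟩ := ht'.1
          exact ⟨J, fun h' => absurd h' h⟩
      choose J hJ using e1
      obtain ⟨J0, hJ0⟩ := exists_val (𝓕 := 𝓕) J
      refine ⟨J0, fun h => ?_⟩
      have e2 := ev_of_map_mk (𝓕 := 𝓕) (P := Γu J0) (Q := 0) (by
        rw [Polynomial.map_zero]
        exact h)
      obtain ⟨t, f1, f2, f3, f4⟩ := (e2.and (hJ0.and (hΓt'.and hΓuev))).exists
      have f5 := hJ t f3.1
      rw [f2, ← f4, f1, Polynomial.map_zero] at f5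
      exact f5 rfl
    · intro J
      exact (Polynomial.natDegree_map_le).trans (up_deg D1 _)
    · intro J i j hij
      have e1 : (Γu (J ∘ Equiv.swap i j)).map (mk 𝓕) = (-Γu J).map (mk 𝓕) := by
        refine map_mk_of_ev ?_
        filter_upwards [hΓt', hΓuev] with t f1 f2
        rw [Polynomial.map_neg, f2, f2]
        exact f1.2.2.1 J i j hij
      rw [Polynomial.map_neg] at e1
      exact e1
    · intro i J
      have e1 : (∑ l, aeval φu (pderiv l (G i)) * Γu (Function.update J 0 l)).map (mk 𝓕) =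
          (0 : Polynomial (α → K)).map (mk 𝓕) := by
        refine map_mk_of_ev ?_
        filter_upwards [hΓt', hΓuev] with t f1 f2
        rw [Polynomial.map_zero, Polynomial.map_sum, ← f1.2.2.2 i J]
        refine Finset.sum_congr rfl fun l _ => ?_
        rw [Polynomial.map_mul, hPev, f2]
      rw [Polynomial.map_zero, Polynomial.map_sum] at e1
      rw [← e1]
      refine Finset.sum_congr rfl fun l _ => ?_
      rw [Polynomial.map_mul, hPmk, ← aeval_mapA]
  obtain ⟨Γ, hΓ⟩ := GC_descend (R' := 𝕂) G φS _ hΓG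
  -- the points
  have hx : ∀ᶠ t in (𝓕 : Filter α), ∀ l, pc (c t) ![r * τ t + 1, τ t] l =
      ep rp τ (φS l) t := by
    rw [Filter.eventually_all]
    intro l
    have e1 : ∀ᶠ t in (𝓕 : Filter α), ep rp τ (φS l) t =
        (fun t => pc (c t) ![r * τ t + 1, τ t] l) t := by
      refine ep_congr rp hr2 τ ?_
      rw [← Polynomial.eval_map_algebraMap]
      have e2 : (φS l).map (algebraMap 𝕊 (Gm 𝓕 K)) = (φu l).map (mk 𝓕) := (hφmk l).symm
      rw [e2, Polynomial.eval_map, Polynomial.eval₂_at_apply]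
      congr 1
      funext t
      have e3 : (φu l).eval τ t =
          Pi.evalRingHom (fun _ : α => K) t ((φu l).eval τ) := rfl
      rw [e3, ← Polynomial.eval₂_at_apply, ← Polynomial.eval_map, hφev]
      exact cpol_eval r (c t) (τ t) l
    filter_upwards [e1] with t ht
    exact ht.symm
  exact curve_ineq rp τ hH hr1 hr2 G hsm F δ hF φS hdS hXS htopS hleadS b hb m hm1 Q hFQ hQtop
    hFleadS hle Γ hΓ (fun t => pc (c t) ![r * τ t + 1, τ t]) hx A
    (Eventually.of_forall fun t => hA t) S ε hε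

end Pool.Agent.H432.RC
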