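import Mathlib
import Pool.Agent.H432.RC.Seq

/-!
The inequality for rational curves of a given degree.
-/

set_option autoImplicit false
set_option linter.unusedSectionVars false

open Filter Topology

namespace Pool.Agent.H432.RC

open NumberField IsDedekindDomain Height Module MvPolynomial Pool.Agent.N750
open Pool.Agent.W180.OP (Pl av wt nrm le_nrm nrm_pos wt_nonneg exists_nrm nrm_nonneg)

variable {M g q w n' d : ℕ}

/-- the vector of the coefficients -/
def cv {L : Type} (c : Fin M → Fin (d + 1) → L) : Fin (M * (d + 1)) → L :=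
  fun i => c (finProdFinEquiv.symm i).1 (finProdFinEquiv.symm i).2

theorem cv_apply {L : Type} (c : Fin M → Fin (d + 1) → L) (l : Fin M) (m : Fin (d + 1)) :
    cv c (finProdFinEquiv (l, m)) = c l m := by
  unfold cv
  rw [Equiv.symm_apply_apply]

section hts

variable {K : Type} [Field K] [NumberField K]

/-- the height of a point of the curve -/
theorem pc_ht (M d r : ℕ) : ∃ C : ℝ, 0 ≤ C ∧ ∀ (c : Fin M → Fin (d + 1) → K) (τ : K),
    pc c ![(r : K) * τ + 1, τ] ≠ 0 →
    logHeight (pc c ![(r : K) * τ + 1, τ]) ≤ logHeight (cv c) + d * logHeight ![1, τ] + C := by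
  set B : ℝ := (d + 1) * ((r + 1) ^ d) with hB
  have hB1 : 1 ≤ B := by
    have h1 : (1 : ℝ) ≤ d + 1 := by
      have : (0 : ℝ) ≤ d := Nat.cast_nonneg _
      linarith
    have h2 : (1 : ℝ) ≤ (r + 1) ^ d := one_le_pow₀ (by
      have : (0 : ℝ) ≤ r := Nat.cast_nonneg _
      linarith)
    rw [hB]
    nlinarith
  refine ⟨finrank ℚ K * Real.log B, mul_nonneg (Nat.cast_nonneg _) (Real.log_nonneg hB1), ?_⟩
  intro c τ hne
  have hc0 : cv c ≠ 0 := by
    intro h
    apply hne
    funext l
    unfold pc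
    refine Finset.sum_eq_zero fun m _ => ?_
    rw [← cv_apply c, h, Pi.zero_apply, zero_mul]
  have hτ0 : (![1, τ] : Fin 2 → K) ≠ 0 := fun h => one_ne_zero (congrFun h 0)
  have hloc : ∀ p : Pl K, nrm (av p) (pc c ![(r : K) * τ + 1, τ]) ≤
      cst B p * (nrm (av p) (cv c) * nrm (av p) ![1, τ] ^ d) := by
    intro p
    set R := nrm (av p) ![1, τ] with hR
    have hR1 : 1 ≤ R := nrm2_pos p τ
    have h1 : av p ((r : K) * τ + 1) ≤ cst ((r : ℝ) + 1) p * R := by
      have h2 : (r : K) * τ + 1 = ∑ i ∈ Finset.range (r + 1), (if i < r then τ else 1) := by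
        rw [Finset.sum_range_succ, if_neg (lt_irrefl r)]
        congr 1
        rw [Finset.sum_congr rfl (fun i hi => if_pos (Finset.mem_range.1 hi)),
          Finset.sum_const, Finset.card_range, nsmul_eq_mul]
      rw [h2]
      refine av_sum p _ _ R (by linarith) (fun i _ => ?_) _ (by
        rw [Finset.card_range]
        push_cast
        exact le_rfl)
      split_ifs
      · exact nrm2_ge p τ
      · rw [map_one]
        exact hR1
    have hcr1 : 1 ≤ cst ((r : ℝ) + 1) p := one_le_cst (by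
      have : (0 : ℝ) ≤ r := Nat.cast_nonneg _
      linarith) p
    refine nrm_vec_le p _ (by
      have := cst_pos (by linarith : (0 : ℝ) < B) p
      have := nrm_nonneg (av p) (cv c)
      positivity) fun l => ?_
    have h3 : ∀ m ∈ (Finset.univ : Finset (Fin (d + 1))),
        av p (c l m * (((r : K) * τ + 1) ^ m.1 * τ ^ (d - m.1))) ≤
        nrm (av p) (cv c) * (cst ((r : ℝ) + 1) p ^ d * R ^ d) := by
      intro m _
      rw [map_mul, map_mul, map_pow, map_pow]
      have e1 : av p (c l m) ≤ nrm (av p) (cv c) := by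
        have := le_nrm (av p) (cv c) (finProdFinEquiv (l, m))
        rwa [cv_apply] at this
      have e2 : av p ((r : K) * τ + 1) ^ m.1 ≤ (cst ((r : ℝ) + 1) p * R) ^ m.1 :=
        pow_le_pow_left₀ ((av p).nonneg _) h1 _
      have e3 : av p τ ^ (d - m.1) ≤ (cst ((r : ℝ) + 1) p * R) ^ (d - m.1) :=
        pow_le_pow_left₀ ((av p).nonneg _) ((nrm2_ge p τ).trans (by nlinarith)) _
      have e4 : (cst ((r : ℝ) + 1) p * R) ^ m.1 * (cst ((r : ℝ) + 1) p * R) ^ (d - m.1) =
          cst ((r : ℝ) + 1) p ^ d * R ^ d := by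
        rw [← pow_add, ← mul_pow]
        congr 1
        have := m.2
        omega
      rw [← e4]
      exact mul_le_mul e1 (mul_le_mul e2 e3 (by positivity) (by positivity)) (by positivity)
        (nrm_nonneg _ _)
    have h4 := av_sum p Finset.univ
      (fun m : Fin (d + 1) => c l m * (((r : K) * τ + 1) ^ m.1 * τ ^ (d - m.1))) _
      (mul_nonneg (nrm_nonneg _ _) (by positivity)) h3 ((d : ℝ) + 1) (by
        rw [Finset.card_univ, Fintype.card_fin]
        push_cast
        exact le_rfl)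
    have h5 : pc c ![(r : K) * τ + 1, τ] l =
        ∑ m : Fin (d + 1), c l m * (((r : K) * τ + 1) ^ m.1 * τ ^ (d - m.1)) := rfl
    rw [h5]
    refine h4.trans (le_of_eq ?_)
    rw [cst_pow, hB, ← cst_mul]
    ring
  have h6 := ht_gen (K := K) (ι := Fin 3) Finset.univ
    (fun i => ![M, M * (d + 1), 2] i)
    (fun i => match i with
      | 0 => pc c ![(r : K) * τ + 1, τ]
      | 1 => cv c
      | 2 => ![1, τ]) (fun i => match i with
      | 0 => -1
      | 1 => 1
      | 2 => (d : ℝ)) (by
        intro i _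
        match i with
        | 0 => exact hne
        | 1 => exact hc0
        | 2 => exact hτ0) B (by
        intro p
        rw [Fin.sum_univ_three]
        show 0 ≤ -1 * Real.log (nrm (av p) (pc c ![(r : K) * τ + 1, τ])) +
          1 * Real.log (nrm (av p) (cv c)) + (d : ℝ) * Real.log (nrm (av p) ![1, τ]) +
          Real.log (cst B p)
        have e1 := nrm_pos (av p) hne
        have e2 := nrm_pos (av p) hc0
        have e3 := nrm_pos (av p) hτ0
        have e4 := cst_pos (by linarith : (0 : ℝ) < B) p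
        have e5 := Real.log_le_log e1 (hloc p)
        rw [Real.log_mul e4.ne' (by positivity), Real.log_mul e2.ne' (by positivity),
          Real.log_pow] at e5
        linarith)
  rw [Fin.sum_univ_three] at h6
  have h7 : 0 ≤ -1 * logHeight (pc c ![(r : K) * τ + 1, τ]) + 1 * logHeight (cv c) +
      (d : ℝ) * logHeight ![1, τ] + finrank ℚ K * Real.log B := h6
  linarith

/-- the height of a coordinate of a vector with a coordinate 1 -/
theorem ht_coord {n : ℕ} (x : Fin n → K) (i0 i : Fin n) (h : x i0 = 1) :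
    logHeight₁ (x i) ≤ logHeight x := by
  rw [← logHeight_swap]
  have hx0 : x ≠ 0 := fun h0 => one_ne_zero (h.symm.trans (congrFun h0 i0))
  have h1 := ht_le ![1, x i] x (fun h => one_ne_zero (congrFun h 0)) hx0 1 le_rfl (by
    intro p
    have e1 := one_le_cst (le_refl (1 : ℝ)) p
    have e2 := nrm_ge_one p x i0 h
    have e3 : nrm (av p) ![1, x i] ≤ nrm (av p) x := nrm2_le p _ e2 (le_nrm (av p) x i)
    nlinarith)
  rw [Real.log_one, mul_zero, add_zero] at h1
  exact h1

end hts

section main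

variable {k : Type} [Field k] [NumberField k]

/-- the sum of the local terms -/
noncomputable def prx {K : Type} [Field K] [NumberField K] [Algebra k K] (S : Finset (Pl K))
    (F : Fin q → Fin w → MvPolynomial (Fin M) k) (δ : Fin q → ℕ) (x : Fin M → K) : ℝ :=
  ∑ p ∈ S, wt p * ∑ i, ((δ i : ℝ) * Real.log (nrm (av p) x) -
    Real.log (nrm (av p) (fun j => aeval x (F i j))))

/-- the trivial bound -/
theorem prx_triv (F : Fin q → Fin w → MvPolynomial (Fin M) k) (δ : Fin q → ℕ)
    (hF : ∀ i j, (F i j).IsHomogeneous (δ i)) :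
    ∃ C : ℝ, 0 ≤ C ∧ ∀ (K : Type) [Field K] [NumberField K] [Algebra k K] (S : Finset (Pl K))
      (x : Fin M → K), x ≠ 0 → (∀ i, ∃ j, aeval x (F i j) ≠ 0) →
      prx S F δ x ≤ (∑ i, (δ i : ℝ)) * logHeight x + finrank k K * C := by
  choose C hC hb using fun i j => triv_bound (F i j) (hF i j)
  have hC0 : 0 ≤ ∑ i, ∑ j, C i j :=
    Finset.sum_nonneg fun i _ => Finset.sum_nonneg fun j _ => hC i j
  refine ⟨∑ i, ∑ j, C i j, hC0, ?_⟩
  intro K _ _ _ S x hx hxF
  choose j hj using hxF
  have h1 : prx S F δ x ≤ ∑ i, ∑ p ∈ S, wt p * ((δ i : ℝ) * Real.log (nrm (av p) x) -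
      Real.log (av p (aeval x (F i (j i))))) := by
    unfold prx
    rw [Finset.sum_comm]
    refine Finset.sum_le_sum fun p _ => ?_
    rw [← Finset.mul_sum]
    refine mul_le_mul_of_nonneg_left (Finset.sum_le_sum fun i _ => ?_) (wt_nonneg p)
    have e1 := Real.log_le_log ((av p).pos_iff.2 (hj i))
      (le_nrm (av p) (fun j => aeval x (F i j)) (j i))
    linarith
  refine h1.trans ?_
  have h2 : ∑ i, ∑ p ∈ S, wt p * ((δ i : ℝ) * Real.log (nrm (av p) x) -
      Real.log (av p (aeval x (F i (j i))))) ≤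
      ∑ i, ((δ i : ℝ) * logHeight x + finrank k K * C i (j i)) :=
    Finset.sum_le_sum fun i _ => hb i (j i) K x hx (hj i) S
  refine h2.trans ?_
  rw [Finset.sum_add_distrib, ← Finset.sum_mul, ← Finset.mul_sum]
  have h3 : ∑ i, C i (j i) ≤ ∑ i, ∑ j, C i j := Finset.sum_le_sum fun i _ =>
    Finset.single_le_sum (f := fun j => C i j) (fun j _ => hC i j) (Finset.mem_univ (j i))
  have h4 : (0 : ℝ) ≤ finrank k K := Nat.cast_nonneg _
  nlinarith [mul_le_mul_of_nonneg_left h3 h4]

/-- scaling -/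
theorem prx_smul {K : Type} [Field K] [NumberField K] [Algebra k K] (S : Finset (Pl K))
    (F : Fin q → Fin w → MvPolynomial (Fin M) k) (δ : Fin q → ℕ)
    (hF : ∀ i j, (F i j).IsHomogeneous (δ i)) (a : K) (ha : a ≠ 0) (x : Fin M → K) (hx : x ≠ 0)
    (hxF : ∀ i, ∃ j, aeval x (F i j) ≠ 0) :
    prx S F δ (fun l => a * x l) = prx S F δ x := by
  unfold prx
  refine Finset.sum_congr rfl fun p _ => ?_
  congr 1
  refine Finset.sum_congr rfl fun i _ => ?_
  have ha' : av p a ≠ 0 := ((av p).pos_iff.2 ha).ne'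
  have hFne : (fun j => aeval x (F i j)) ≠ 0 := by
    obtain ⟨j, hj⟩ := hxF i
    exact fun h => hj (congrFun h j)
  have e1 : (fun j => aeval (fun l => a * x l) (F i j)) =
      fun j => a ^ δ i * aeval x (F i j) := by
    funext j
    exact aeval_hom (hF i j) a x
  rw [e1, nrm_smul, nrm_smul, Real.log_mul ha' (nrm_pos (av p) hx).ne',
    Real.log_mul (by rw [map_pow]; exact pow_ne_zero _ ha') (nrm_pos (av p) hFne).ne', map_pow,
    Real.log_pow]
  ring

/-- **the case of a given point at infinity** -/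
theorem main_r (G : Fin g → MvPolynomial (Fin M) k) (e : Fin g → ℕ)
    (hG : ∀ i, (G i).IsHomogeneous (e i)) (hsm : Sm (n' + 1) G)
    (F : Fin q → Fin w → MvPolynomial (Fin M) k) (δ : Fin q → ℕ)
    (hF : ∀ i j, (F i j).IsHomogeneous (δ i)) (hd0 : 1 ≤ d) {V : ℕ} (hV : V = ∑ i, δ i * d)
    {Φ : MvPolynomial (Fin M) k} {mΦ : ℕ} (hΦh : Φ.IsHomogeneous mΦ)
    {K : Type} [Field K] [NumberField K] [Algebra k K] (hgeo : GeoP K n' G F d V Φ)
    (S : Finset (Pl K)) (ε : ℝ) (hε : 0 < ε) (r : ℕ) :
    ∃ C : ℝ, ∀ (c : Fin M → Fin (d + 1) → K) (s : Fin 2 → K), CurveOK G F c →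
      (∃ z, aeval (pc c z) Φ ≠ 0) → (∀ i, ∃ j, aeval (pc c s) (F i j) ≠ 0) →
      (∃ l m, c l m = 1) → s 0 - (r : K) * s 1 ≠ 0 →
      (∀ i, ∃ j, aeval (pc c ![(r : K), 1]) (F i j) ≠ 0) →
      ∀ A, IsTB (p := n' + 2) G (pc c s) A →
      prx S F δ (pc c s) + logHeight (mv A) ≤ (n' + 2 + ε) * logHeight (pc c s) +
        C * (1 + logHeight (cv c)) := by
  classical
  obtain ⟨C3, hC3, htriv⟩ := prx_triv F δ hF
  obtain ⟨C4, hC4, hcrude⟩ := crude G e hG hsm
  obtain ⟨C0, hC0, hpcht⟩ := pc_ht (K := K) M d r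
  by_contra hcon
  push Not at hcon
  choose c s hc hz hxF h1 hsr hrF A hA hbig using fun t : ℕ => hcon t
  -- the affine parameters
  set a : ℕ → K := fun t => s t 0 - (r : K) * s t 1 with ha
  set τ : ℕ → K := fun t => s t 1 / a t with hτ
  set y : ℕ → Fin M → K := fun t => pc (c t) ![(r : K) * τ t + 1, τ t] with hy
  have hsy : ∀ t, pc (c t) (s t) = fun l => a t ^ d * y t l := by
    intro t
    rw [hy]
    simp only
    rw [← pc_smul]
    congr 1
    funext x
    have hat : a t ≠ 0 := hsr t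
    fin_cases x
    · show s t 0 = a t * ((r : K) * τ t + 1)
      rw [hτ]
      field_simp
      rw [ha]
      ring
    · show s t 1 = a t * τ t
      rw [hτ]
      field_simp
  have had : ∀ t, a t ^ d ≠ 0 := fun t => pow_ne_zero _ (hsr t)
  have hy0 : ∀ t, y t ≠ 0 := by
    intro t
    have e1 := (hc t).nz K ![(r : K) * τ t + 1, τ t] (vec_ne _ _)
    exact e1
  have hyF : ∀ t i, ∃ j, aeval (y t) (F i j) ≠ 0 := by
    intro t i
    obtain ⟨j, hj⟩ := hxF t i
    refine ⟨j, fun h => hj ?_⟩
    rw [hsy, aeval_hom (hF i j), h, mul_zero]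
  have hyX : ∀ t i, aeval (y t) (G i) = 0 := fun t i => (hc t).onX _ i
  set h : ℕ → ℝ := fun t => logHeight (y t) with hh
  have hxh : ∀ t, logHeight (pc (c t) (s t)) = h t := by
    intro t
    rw [hsy]
    exact logHeight_smul_eq_logHeight (y t) (had t)
  have hh0 : ∀ t, 0 ≤ h t := fun t => logHeight_nonneg _
  have hAy : ∀ t, IsTB G (y t) (A t) := by
    intro t
    refine ⟨(hA t).1, fun cc => ?_⟩
    have e1 := (hA t).2 cc
    rw [hsy, TS_smul hG _ (had t)] at e1
    exact e1
  have hpy : ∀ t, prx S F δ (pc (c t) (s t)) = prx S F δ (y t) := by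
    intro t
    rw [hsy]
    exact prx_smul S F δ hF _ (had t) _ (hy0 t) (hyF t)
  -- the trivial bound
  set C1 : ℝ := (∑ i, (δ i : ℝ)) + C4 + 1 with hC1
  have hC1p : 0 < C1 := by
    have : (0 : ℝ) ≤ ∑ i, (δ i : ℝ) := Finset.sum_nonneg fun _ _ => Nat.cast_nonneg _
    linarith
  set C2 : ℝ := finrank k K * C3 + finrank k K * C4 with hC2
  have hC20 : 0 ≤ C2 := by positivity
  have hup : ∀ t, prx S F δ (y t) + logHeight (mv (A t)) ≤ C1 * h t + C2 := by
    intro t
    have e1 := htriv K S (y t) (hy0 t) (hyF t)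
    have e2 := hcrude K (y t) (hy0 t) (hyX t) (A t) (hAy t)
    have e3 : logHeight (y t) = h t := rfl
    rw [e3] at e1 e2
    have e4 := hh0 t
    rw [hC1, hC2]
    nlinarith
  have hbig' : ∀ t : ℕ, (n' + 2 + ε) * h t + t * (1 + logHeight (cv (c t))) <
      prx S F δ (y t) + logHeight (mv (A t)) := by
    intro t
    have e1 := hbig t
    rw [hpy, hxh] at e1
    exact e1
  have hb0 : (0 : ℝ) ≤ n' + 2 + ε := by positivity
  have hcv0 : ∀ t, 0 ≤ logHeight (cv (c t)) := fun t => logHeight_nonneg _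
  have hkey : ∀ t : ℕ, (t : ℝ) * (1 + logHeight (cv (c t))) ≤ C1 * h t + C2 := by
    intro t
    have e1 := hbig' t
    have e2 := hup t
    have e3 := mul_nonneg hb0 (hh0 t)
    linarith
  set H : ℕ → ℝ := fun t => logHeight ![1, τ t] with hHdef
  have hH0 : ∀ t, 0 ≤ H t := fun t => logHeight_nonneg _
  have hhH : ∀ t, h t ≤ logHeight (cv (c t)) + d * H t + C0 := fun t => hpcht (c t) (τ t) (hy0 t)
  -- the heights of the curves
  set C5 : ℝ := 2 * (C0 + C2) with hC5
  have hhH2 : ∀ t : ℕ, max 1 (2 * C1) ≤ t → h t ≤ 2 * d * H t + C5 := by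
    intro t ht
    have e1 := hkey t
    have e2 := hcv0 t
    have ht1 : (1 : ℝ) ≤ t := (le_max_left _ _).trans ht
    have ht2 : 2 * C1 ≤ t := (le_max_right _ _).trans ht
    have e3 : (t : ℝ) * logHeight (cv (c t)) ≤ C1 * h t + C2 := by nlinarith
    have e4 : logHeight (cv (c t)) ≤ h t / 2 + C2 := by
      have e5 : (t : ℝ) * logHeight (cv (c t)) ≤ t * (h t / 2 + C2) := by
        have := hh0 t
        nlinarith
      exact le_of_mul_le_mul_left e5 (by linarith)
    have e6 := hhH t
    rw [hC5]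
    linarith
  have hHtop : Tendsto H atTop atTop := by
    have hd' : (0 : ℝ) < 2 * d := by
      have : (0 : ℝ) < d := by exact_mod_cast hd0
      linarith
    have e1 : ∀ᶠ t : ℕ in atTop, (((t : ℝ) - C2) / C1 - C5) / (2 * d) ≤ H t := by
      filter_upwards [tendsto_natCast_atTop_atTop.eventually_ge_atTop (max 1 (2 * C1))] with t ht
      rw [div_le_iff₀ hd']
      have e2 := hhH2 t ht
      have e3 := hkey t
      have e4 := hcv0 t
      have e5 : (t : ℝ) ≤ C1 * h t + C2 := by
        have : (0 : ℝ) ≤ t := Nat.cast_nonneg _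
        nlinarith
      have e6 : ((t : ℝ) - C2) / C1 ≤ h t := by
        rw [div_le_iff₀ hC1p]
        linarith
      linarith
    refine tendsto_atTop_mono' _ e1 ?_
    refine Tendsto.atTop_div_const hd' ?_
    refine tendsto_atTop_add_const_right _ _ ?_
    refine Tendsto.atTop_div_const hC1p ?_
    exact tendsto_atTop_add_const_right _ _ tendsto_natCast_atTop_atTop
  have hle : ((hyperfilter ℕ : Ultrafilter ℕ) : Filter ℕ) ≤ atTop := Nat.hyperfilter_le_atTop
  set 𝓕 : Ultrafilter ℕ := hyperfilter ℕ with h𝓕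
  have hHF : Tendsto H 𝓕 atTop := hHtop.mono_left hle
  have hslow : ∀ l m, Slow 𝓕 H (fun t => c t l m) := by
    intro l m η hη
    set C6 : ℝ := C1 * (2 * d + C5) + C2 with hC6
    have hC60 : 0 ≤ C6 := by
      have : (0 : ℝ) ≤ d := Nat.cast_nonneg _
      have : 0 ≤ C5 := by positivity
      positivity
    have e0 : ∀ᶠ t : ℕ in atTop, logHeight₁ (c t l m) ≤ η * H t := by
      filter_upwards [tendsto_natCast_atTop_atTop.eventually_ge_atTop (max 1 (2 * C1)),
        tendsto_natCast_atTop_atTop.eventually_ge_atTop (C6 / η),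
        hHtop.eventually_ge_atTop 1] with t e1 e2 e3
      have ht1 : (1 : ℝ) ≤ t := (le_max_left _ _).trans e1
      have e4 := hkey t
      have e5 := hcv0 t
      have e6 := hhH2 t e1
      have e7 : logHeight₁ (c t l m) ≤ logHeight (cv (c t)) := by
        obtain ⟨l', m', h'⟩ := h1 t
        have e8 := ht_coord (cv (c t)) (finProdFinEquiv (l', m')) (finProdFinEquiv (l, m)) (by
          rw [cv_apply, h'])
        rwa [cv_apply] at e8
      have e9 : (t : ℝ) * logHeight (cv (c t)) ≤ C6 * H t := by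
        have e10 : (t : ℝ) * logHeight (cv (c t)) ≤ C1 * h t + C2 := by nlinarith
        have e11 : C1 * h t ≤ C1 * (2 * d * H t + C5) := mul_le_mul_of_nonneg_left e6 hC1p.le
        have e12 : C5 ≤ C5 * H t := by
          have : 0 ≤ C5 := by positivity
          nlinarith
        have e13 : C2 ≤ C2 * H t := by nlinarith
        have e14 : C1 * C5 ≤ C1 * (C5 * H t) := mul_le_mul_of_nonneg_left e12 hC1p.le
        calc (t : ℝ) * logHeight (cv (c t)) ≤ C1 * (2 * d * H t + C5) + C2 := by linarith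
          _ ≤ C1 * (2 * d) * H t + C1 * (C5 * H t) + C2 * H t := by linarith
          _ = C6 * H t := by rw [hC6]; ring
      rw [div_le_iff₀ hη] at e2
      have e15 : (t : ℝ) * logHeight (cv (c t)) ≤ t * (η * H t) := by
        have e16 : C6 * H t ≤ (t * η) * H t := mul_le_mul_of_nonneg_right e2 (by linarith)
        linarith
      exact e7.trans (le_of_mul_le_mul_left e15 (by linarith))
    exact hle e0
  have hΦ : ∀ t, aeval (cpol (r : K) (c t)) Φ ≠ 0 := by
    intro t h0
    obtain ⟨z, hz⟩ := hz t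
    apply hz
    by_cases hzr : z 0 - (r : K) * z 1 = 0
    · have e1 : z = fun i => z 1 * ![(r : K), 1] i := by
        funext i
        fin_cases i
        · show z 0 = z 1 * (r : K)
          linear_combination hzr
        · simp
      have e2 := aeval_top hΦh (cpol (r : K) (c t)) (fun l => cpol_deg _ _ l)
      rw [h0, Polynomial.coeff_zero] at e2
      have e3 : (fun l => (cpol (r : K) (c t) l).coeff d) = pc (c t) ![(r : K), 1] := by
        funext l
        exact cpol_coeff _ _ _
      rw [e3] at e2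
      rw [e1, pc_smul, aeval_hom hΦh, ← e2, mul_zero]
    · set a' := z 0 - (r : K) * z 1 with ha'
      have e1 : z = fun i => a' * ![(r : K) * (z 1 / a') + 1, z 1 / a'] i := by
        funext i
        fin_cases i
        · show z 0 = a' * ((r : K) * (z 1 / a') + 1)
          field_simp
          rw [ha']
          ring
        · show z 1 = a' * (z 1 / a')
          field_simp
      have e2 := congrArg (Polynomial.eval (z 1 / a')) h0
      rw [aeval_eval, Polynomial.eval_zero] at e2
      have e3 : (fun l => (cpol (r : K) (c t) l).eval (z 1 / a')) =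
          pc (c t) ![(r : K) * (z 1 / a') + 1, z 1 / a'] := by
        funext l
        exact cpol_eval _ _ _ _
      rw [e3] at e2
      conv_lhs => rw [e1]
      rw [pc_smul, aeval_hom hΦh, e2, mul_zero]
  set ε1 : ℝ := min (1 / 2) (ε / 2) with hε1
  have hε1p : 0 < ε1 := lt_min (by norm_num) (by linarith)
  have hfin := germ_curve G hsm F δ hF hd0 hV hgeo τ hHF c hslow hc (r : K) hrF hΦ A hAy S ε1
    hε1p
  obtain ⟨t, ⟨f1, f2⟩⟩ := hfin.exists
  have e1 := hbig' t
  have e2 : prx S F δ (y t) + logHeight (mv (A t)) ≤ (n' + 2) * h t + ε1 * H t := f1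
  have e3 : (d : ℝ) * H t ≤ h t + ε1 * H t := f2
  have e4 : ε1 ≤ 1 / 2 := min_le_left _ _
  have e5 : ε1 ≤ ε / 2 := min_le_right _ _
  have e6 : (1 : ℝ) ≤ d := by exact_mod_cast hd0
  have e7 := hH0 t
  have e8 : H t ≤ 2 * h t := by nlinarith
  have e9 : ε1 * H t ≤ ε * h t := by
    have := hh0 t
    calc ε1 * H t ≤ ε1 * (2 * h t) := mul_le_mul_of_nonneg_left e8 hε1p.le
      _ ≤ ε / 2 * (2 * h t) := mul_le_mul_of_nonneg_right e5 (by linarith)
      _ = ε * h t := by ring
  have e10 : 0 ≤ (t : ℝ) * (1 + logHeight (cv (c t))) := by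
    have := hcv0 t
    positivity
  nlinarith

end main

end Pool.Agent.H432.RC
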