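import Mathlib
import Pool.Agent.H432.RC.MainR

/-!
The inequality for rational curves of bounded degree.
-/

set_option autoImplicit false
set_option linter.unusedSectionVars false

open Filter Topology

namespace Pool.Agent.H432.RC

open NumberField IsDedekindDomain Height Module MvPolynomial Pool.Agent.N750
open Pool.Agent.W180.OP (Pl av wt nrm le_nrm nrm_pos wt_nonneg exists_nrm nrm_nonneg)

variable {M g q w n' d : ℕ} {k : Type} [Field k] [NumberField k]

/-- multiples of curves -/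
theorem CurveOK.smul {L : Type} [Field L] [Algebra k L]
    {G : Fin g → MvPolynomial (Fin M) k} {e : Fin g → ℕ} (hG : ∀ i, (G i).IsHomogeneous (e i))
    {F : Fin q → Fin w → MvPolynomial (Fin M) k} {δ : Fin q → ℕ}
    (hF : ∀ i j, (F i j).IsHomogeneous (δ i)) {c : Fin M → Fin (d + 1) → L}
    (h : CurveOK G F c) (u : L) (hu : u ≠ 0) : CurveOK G F (fun l m => u * c l m) := by
  have hΩ : ∀ (Ω : Type) [Field Ω] [Algebra L Ω] (z : Fin 2 → Ω),
      pc (fun l m => algebraMap L Ω (u * c l m)) z =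
        fun l => algebraMap L Ω u * pc (fun l m => algebraMap L Ω (c l m)) z l := by
    intro Ω _ _ z
    rw [← pc_csmul]
    congr 1
    funext l m
    rw [map_mul]
  have huΩ : ∀ (Ω : Type) [Field Ω] [Algebra L Ω], algebraMap L Ω u ≠ 0 := fun Ω _ _ =>
    (map_ne_zero _).2 hu
  refine ⟨?_, ?_, ?_⟩
  · intro Ω _ _ z hz h0
    apply h.nz Ω z hz
    rw [hΩ] at h0
    funext l
    exact (mul_eq_zero.1 (congrFun h0 l)).resolve_left (huΩ Ω)
  · intro z i
    rw [pc_csmul, aeval_hom (hG i), h.onX, mul_zero]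
  · intro Ω _ _ _ _ z hz i hzF
    refine h.rat Ω z hz i fun j => ?_
    have h1 := hzF j
    rw [hΩ, aeval_hom (hF i j)] at h1
    exact (mul_eq_zero.1 h1).resolve_left (pow_ne_zero _ (huΩ Ω))

/-- **the case of a given degree** -/
theorem main_d (G : Fin g → MvPolynomial (Fin M) k) (e : Fin g → ℕ)
    (hG : ∀ i, (G i).IsHomogeneous (e i)) (hsm : Sm (n' + 1) G)
    (F : Fin q → Fin w → MvPolynomial (Fin M) k) (δ : Fin q → ℕ)
    (hF : ∀ i j, (F i j).IsHomogeneous (δ i)) (hd0 : 1 ≤ d) {V : ℕ} (hV : V = ∑ i, δ i * d)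
    {Φ : MvPolynomial (Fin M) k} {mΦ : ℕ} (hΦh : Φ.IsHomogeneous mΦ)
    {K : Type} [Field K] [NumberField K] [Algebra k K] (hgeo : GeoP K n' G F d V Φ)
    (S : Finset (Pl K)) (ε : ℝ) (hε : 0 < ε) :
    ∃ C : ℝ, ∀ (c : Fin M → Fin (d + 1) → K) (s : Fin 2 → K), s ≠ 0 → CurveOK G F c →
      (∃ z, aeval (pc c z) Φ ≠ 0) → (∀ i, ∃ j, aeval (pc c s) (F i j) ≠ 0) →
      ∀ A, IsTB (p := n' + 2) G (pc c s) A →
      prx S F δ (pc c s) + logHeight (mv A) ≤ (n' + 2 + ε) * logHeight (pc c s) +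
        C * (1 + logHeight (cv c)) := by
  classical
  choose C hC using fun r : ℕ => main_r G e hG hsm F δ hF hd0 hV hΦh hgeo S ε hε r
  refine ⟨∑ r ∈ Finset.range (∑ i, δ i * d + 2), |C r|, ?_⟩
  intro c s hs hc hz hxF A hA
  obtain ⟨r, hr1, hr2⟩ := exists_r c s hs F δ hF hxF
  -- scaling
  have hxne := hc.nz K s hs
  have hxne' : pc c s ≠ 0 := hxne
  obtain ⟨l0, m0, hlm⟩ : ∃ l m, c l m ≠ 0 := by
    by_contra hcon
    push Not at hcon
    apply hxne'
    funext l
    unfold pc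
    refine Finset.sum_eq_zero fun m _ => ?_
    rw [hcon, zero_mul]
  set u : K := (c l0 m0)⁻¹ with hu
  have hu0 : u ≠ 0 := inv_ne_zero hlm
  have h1 := hC r.1 (fun l m => u * c l m) s (hc.smul hG hF u hu0) (by
    obtain ⟨z, hz⟩ := hz
    refine ⟨z, ?_⟩
    rw [pc_csmul, aeval_hom hΦh]
    exact mul_ne_zero (pow_ne_zero _ hu0) hz) (by
    intro i
    obtain ⟨j, hj⟩ := hxF i
    refine ⟨j, ?_⟩
    rw [pc_csmul, aeval_hom (hF i j)]
    exact mul_ne_zero (pow_ne_zero _ hu0) hj) ⟨l0, m0, by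
      rw [hu, inv_mul_cancel₀ hlm]⟩ hr1 (by
    intro i
    obtain ⟨j, hj⟩ := hr2 i
    refine ⟨j, ?_⟩
    rw [pc_csmul, aeval_hom (hF i j)]
    exact mul_ne_zero (pow_ne_zero _ hu0) hj) A (by
    refine ⟨hA.1, fun cc => ?_⟩
    rw [pc_csmul, TS_smul hG _ hu0]
    exact hA.2 cc)
  rw [pc_csmul, prx_smul S F δ hF u hu0 _ hxne' hxF] at h1
  have h2 : logHeight (fun l => u * pc c s l) = logHeight (pc c s) :=
    logHeight_smul_eq_logHeight (pc c s) hu0
  have h3 : logHeight (cv fun l m => u * c l m) = logHeight (cv c) :=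
    logHeight_smul_eq_logHeight (cv c) hu0
  rw [h2, h3] at h1
  refine h1.trans ?_
  have h4 : C r.1 ≤ ∑ r ∈ Finset.range (∑ i, δ i * d + 2), |C r| :=
    (le_abs_self _).trans (Finset.single_le_sum (f := fun r => |C r|)
      (fun _ _ => abs_nonneg _) (Finset.mem_range.2 r.2))
  have h5 : 0 ≤ 1 + logHeight (cv c) := by
    have := logHeight_nonneg (cv c)
    linarith
  have h6 := mul_le_mul_of_nonneg_right h4 h5
  linarith

/-- **rational curves of bounded degree** -/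
theorem main_all (G : Fin g → MvPolynomial (Fin M) k) (e : Fin g → ℕ)
    (hG : ∀ i, (G i).IsHomogeneous (e i)) (hI : (Ideal.span (Set.range G)).IsPrime)
    (hsm : Sm (n' + 1) G) (F : Fin q → Fin w → MvPolynomial (Fin M) k) (δ : Fin q → ℕ)
    (hF : ∀ i j, (F i j).IsHomogeneous (δ i)) (hnc : NCD G F) (D : ℕ) :
    ∃ (mΦ : ℕ) (Φ : MvPolynomial (Fin M) k), Φ.IsHomogeneous mΦ ∧
      Φ ∉ Ideal.span (Set.range G) ∧
    ∀ (K : Type) [Field K] [NumberField K] [Algebra k K] (S : Finset (Pl K)) (ε : ℝ), 0 < ε →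
    ∃ C : ℝ, 0 ≤ C ∧ ∀ d ≤ D, ∀ (c : Fin M → Fin (d + 1) → K) (s : Fin 2 → K), s ≠ 0 →
      CurveOK G F c →
      (∃ z, aeval (pc c z) Φ ≠ 0) → (∀ i, ∃ j, aeval (pc c s) (F i j) ≠ 0) →
      ∀ A, IsTB (p := n' + 2) G (pc c s) A →
      prx S F δ (pc c s) + logHeight (mv A) ≤ (n' + 2 + ε) * logHeight (pc c s) +
        C * (1 + logHeight (cv c)) := by
  classical
  have hgeo : ∀ d : ℕ, ∃ (mΦ : ℕ) (Φ : MvPolynomial (Fin M) k), Φ.IsHomogeneous mΦ ∧
      Φ ∉ Ideal.span (Set.range G) ∧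
      (1 ≤ d → GeoP (AlgebraicClosure k) n' G F d (∑ i, δ i * d) Φ) := by
    intro d
    by_cases hd : 1 ≤ d
    · obtain ⟨m, Φ, h1, h2, h3⟩ := exists_geoP (K := AlgebraicClosure k) G e hG hI hsm F δ hF hnc
        d (∑ i, δ i * d) hd
      exact ⟨m, Φ, h1, h2, fun _ => h3⟩
    · refine ⟨0, 1, MvPolynomial.isHomogeneous_one _ _, ?_, fun h => absurd h hd⟩
      intro h
      exact hI.ne_top ((Ideal.eq_top_iff_one _).2 h)
  choose m Φ h1 h2 h3 using hgeo
  refine ⟨∑ d ∈ Finset.range (D + 1), m d, ∏ d ∈ Finset.range (D + 1), Φ d,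
    MvPolynomial.IsHomogeneous.prod _ _ _ fun d _ => h1 d, ?_, ?_⟩
  · intro h
    rw [hI.prod_mem_iff] at h
    obtain ⟨d, -, hd⟩ := h
    exact h2 d hd
  intro K _ _ _ S ε hε
  -- the case of degree 0
  obtain ⟨C3, hC3, htriv⟩ := prx_triv F δ hF
  obtain ⟨C4, hC4, hcrude⟩ := crude G e hG hsm
  obtain ⟨C0, hC0, hpcht⟩ := pc_ht (K := K) M 0 0
  have hex : ∀ d : ℕ, ∃ C : ℝ, ∀ (c : Fin M → Fin (d + 1) → K) (s : Fin 2 → K), s ≠ 0 →
      CurveOK G F c → (∃ z, aeval (pc c z) (Φ d) ≠ 0) →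
      (∀ i, ∃ j, aeval (pc c s) (F i j) ≠ 0) → ∀ A, IsTB (p := n' + 2) G (pc c s) A →
      prx S F δ (pc c s) + logHeight (mv A) ≤ (n' + 2 + ε) * logHeight (pc c s) +
        C * (1 + logHeight (cv c)) := by
    intro d
    rcases Nat.eq_zero_or_pos d with rfl | hd
    · set C1 : ℝ := (∑ i, (δ i : ℝ)) + C4 with hC1
      have hC10 : 0 ≤ C1 := by
        have : (0 : ℝ) ≤ ∑ i, (δ i : ℝ) := Finset.sum_nonneg fun _ _ => Nat.cast_nonneg _
        linarith
      set C2 : ℝ := finrank k K * C3 + finrank k K * C4 with hC2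
      have hC20 : 0 ≤ C2 := by positivity
      refine ⟨C1 + C1 * C0 + C2, ?_⟩
      intro c s hs hc _ hxF A hA
      have hx0 : pc c s ≠ 0 := hc.nz K s hs
      have e1 := htriv K S (pc c s) hx0 hxF
      have e2 := hcrude K (pc c s) hx0 (fun i => hc.onX s i) A hA
      have e3 : pc c s = pc c ![((0 : ℕ) : K) * 0 + 1, 0] := by
        funext l
        unfold pc
        refine Finset.sum_congr rfl fun m _ => ?_
        have hm0 : m.1 = 0 := by
          have := m.2
          omega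
        rw [hm0]
        simp
      have e4 := hpcht c 0 (by rw [← e3]; exact hx0)
      rw [← e3] at e4
      have e5 := logHeight_nonneg (cv c)
      have e6 := logHeight_nonneg (pc c s)
      have e7 : (0 : ℝ) ≤ (n' + 2 + ε) * logHeight (pc c s) := by positivity
      push_cast at e4
      have e8 : prx S F δ (pc c s) + logHeight (mv A) ≤ C1 * logHeight (pc c s) + C2 := by
        rw [hC1, hC2]
        nlinarith
      have e9 : C1 * logHeight (pc c s) ≤ C1 * (logHeight (cv c) + C0) :=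
        mul_le_mul_of_nonneg_left (by linarith) hC10
      have e10 : 0 ≤ (C1 * C0 + C2) * logHeight (cv c) := by positivity
      nlinarith
    · let _ : Algebra.IsAlgebraic k K := Algebra.IsAlgebraic.of_finite k K
      have hemb : Nonempty (K →ₐ[k] AlgebraicClosure k) := ⟨IsAlgClosed.lift⟩
      exact main_d G e hG hsm F δ hF hd rfl (h1 d) ((h3 d hd).descend hemb.some) S ε hε
  choose C hC using hex
  refine ⟨∑ d ∈ Finset.range (D + 1), |C d|, Finset.sum_nonneg fun _ _ => abs_nonneg _, ?_⟩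
  intro d hd c s hs hc hz hxF A hA
  have e1 := hC d c s hs hc (by
    obtain ⟨z, hz⟩ := hz
    refine ⟨z, fun h => hz ?_⟩
    rw [map_prod]
    exact Finset.prod_eq_zero (Finset.mem_range.2 (Nat.lt_succ_of_le hd)) h) hxF A hA
  refine e1.trans ?_
  have h4 : C d ≤ ∑ d ∈ Finset.range (D + 1), |C d| :=
    (le_abs_self _).trans (Finset.single_le_sum (f := fun r => |C r|)
      (fun _ _ => abs_nonneg _) (Finset.mem_range.2 (Nat.lt_succ_of_le hd)))
  have h5 : 0 ≤ 1 + logHeight (cv c) := by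
    have := logHeight_nonneg (cv c)
    linarith
  have h6 := mul_le_mul_of_nonneg_right h4 h5
  linarith

end Pool.Agent.H432.RC
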