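import Mathlib
import Pool.Agent.H432.RC.MainD

/-!
Curves whose crossings are rational over an extension.
-/

set_option autoImplicit false
set_option linter.unusedSectionVars false

namespace Pool.Agent.H432.RC

open NumberField IsDedekindDomain Height Module MvPolynomial Pool.Agent.N750
open Pool.Agent.W180.OP (Pl av wt nrm le_nrm nrm_pos wt_nonneg exists_nrm)

variable {k : Type} [Field k] [NumberField k] {M g q w n' d : ℕ}

theorem aeval_am {K K' : Type} [Field K] [Algebra k K] [Field K'] [Algebra k K'] [Algebra K K']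
    [IsScalarTower k K K'] (x : Fin M → K) (P : MvPolynomial (Fin M) k) :
    aeval (fun l => algebraMap K K' (x l)) P = algebraMap K K' (aeval x P) :=
  aeval_algebraMap_apply K' x P

theorem sum_ext (K K' : Type) [Field K] [NumberField K] [Field K'] [NumberField K'] [Algebra K K']
    (S : Finset (Pl K)) (f : Pl K' → ℝ) [DecidableEq (Pl K')] :
    ∑ p ∈ S.biUnion (ab K'), f p = ∑ v ∈ S, ∑ p ∈ ab K' v, f p := by
  classical
  refine Finset.sum_biUnion ?_
  intro v _ v' _ hne
  rw [Function.onFun, Finset.disjoint_left]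
  intro p hp hp'
  exact hne (ab_unique hp hp')

theorem prx_ext {K K' : Type} [Field K] [NumberField K] [Algebra k K] [Field K'] [NumberField K']
    [Algebra k K'] [Algebra K K'] [IsScalarTower k K K'] [DecidableEq (Pl K')] (S : Finset (Pl K))
    (F : Fin q → Fin w → MvPolynomial (Fin M) k) (δ : Fin q → ℕ) (x : Fin M → K) (hx : x ≠ 0)
    (hF : ∀ i, ∃ j, aeval x (F i j) ≠ 0) :
    prx (S.biUnion (ab K')) F δ (fun l => algebraMap K K' (x l)) = finrank K K' * prx S F δ x := by
  unfold prx
  rw [sum_ext, Finset.mul_sum]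
  refine Finset.sum_congr rfl fun v _ => ?_
  have h1 : ∀ i j, aeval (fun l => algebraMap K K' (x l)) (F i j) =
      algebraMap K K' (aeval x (F i j)) := fun i j => aeval_am x (F i j)
  simp only [h1]
  have h2 := efn (L := K') v x hx
  have h3 : ∀ i, ∑ p ∈ ab K' v, wt p * Real.log (nrm (av p) (fun j => algebraMap K K'
      (aeval x (F i j)))) = finrank K K' * (wt v * Real.log (nrm (av v)
      (fun j => aeval x (F i j)))) := by
    intro i
    refine efn (L := K') v _ ?_
    obtain ⟨j, hj⟩ := hF i
    exact fun h => hj (congrFun h j)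
  simp only [Finset.mul_sum]
  rw [Finset.sum_comm]
  refine Finset.sum_congr rfl fun i _ => ?_
  have h4 : ∀ p : Pl K', wt p * ((δ i : ℝ) * Real.log (nrm (av p) fun l => algebraMap K K' (x l)) -
      Real.log (nrm (av p) fun j => algebraMap K K' (aeval x (F i j)))) =
      (δ i : ℝ) * (wt p * Real.log (nrm (av p) fun l => algebraMap K K' (x l))) -
      wt p * Real.log (nrm (av p) fun j => algebraMap K K' (aeval x (F i j))) := by
    intro p
    ring
  simp only [h4]
  rw [Finset.sum_sub_distrib, ← Finset.mul_sum, h2, h3]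
  ring

theorem mv_map {K K' : Type} [Field K] [Field K'] [Algebra K K'] {p : ℕ}
    (A : Fin M → Fin p → K) (J : Fin p → Fin M) :
    mv (fun l c => algebraMap K K' (A l c)) J = algebraMap K K' (mv A J) := by
  unfold mv
  rw [RingHom.map_det]
  rfl

theorem IsTB_map {K K' : Type} [Field K] [Algebra k K] [Field K'] [Algebra k K'] [Algebra K K']
    [IsScalarTower k K K'] {p : ℕ} (G : Fin g → MvPolynomial (Fin M) k) (x : Fin M → K)
    (A : Fin M → Fin p → K) (hA : IsTB G x A) :
    IsTB G (fun l => algebraMap K K' (x l)) (fun l c => algebraMap K K' (A l c)) := by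
  refine ⟨?_, fun c => ?_⟩
  · obtain ⟨I, hI⟩ := exists_minor A hA.1
    have h1 : (Matrix.of fun i c => algebraMap K K' (A (I i) c)).det ≠ 0 := by
      have e1 : (Matrix.of fun i c => algebraMap K K' (A (I i) c)) =
          (algebraMap K K').mapMatrix (Matrix.of fun i c => A (I i) c) := rfl
      rw [e1, ← RingHom.map_det]
      exact (map_ne_zero _).2 hI
    have h2 := Matrix.linearIndependent_cols_iff_isUnit.2
      ((Matrix.isUnit_iff_isUnit_det _).2 h1.isUnit)
    exact LinearIndependent.of_comp (LinearMap.funLeft K' K' I) h2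
  · rw [mem_TS]
    intro i
    have h1 := mem_TS.1 (hA.2 c) i
    have h2 := congrArg (algebraMap K K') h1
    rw [map_zero, map_sum] at h2
    rw [← h2]
    refine Finset.sum_congr rfl fun j _ => ?_
    rw [map_mul, aeval_am]

/-- **rational curves of bounded degree, crossings over an extension** -/
theorem main_ext (G : Fin g → MvPolynomial (Fin M) k) (e : Fin g → ℕ)
    (hG : ∀ i, (G i).IsHomogeneous (e i)) (hI : (Ideal.span (Set.range G)).IsPrime)
    (hsm : Sm (n' + 1) G) (F : Fin q → Fin w → MvPolynomial (Fin M) k) (δ : Fin q → ℕ)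
    (hF : ∀ i j, (F i j).IsHomogeneous (δ i)) (hnc : NCD G F) (D : ℕ) :
    ∃ (mΦ : ℕ) (Φ : MvPolynomial (Fin M) k), Φ.IsHomogeneous mΦ ∧
      Φ ∉ Ideal.span (Set.range G) ∧
    ∀ (K K' : Type) [Field K] [NumberField K] [Algebra k K] [Field K'] [NumberField K']
      [Algebra k K'] [Algebra K K'] [IsScalarTower k K K'] (S : Finset (Pl K)) (ε : ℝ), 0 < ε →
    ∃ C : ℝ, 0 ≤ C ∧ ∀ d ≤ D, ∀ (c : Fin M → Fin (d + 1) → K) (s : Fin 2 → K), s ≠ 0 →
      CurveOK G F (fun l m => algebraMap K K' (c l m)) →
      (∃ z, aeval (pc c z) Φ ≠ 0) → (∀ i, ∃ j, aeval (pc c s) (F i j) ≠ 0) →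
      ∀ A, IsTB (p := n' + 2) G (pc c s) A →
      prx S F δ (pc c s) + logHeight (mv A) ≤ (n' + 2 + ε) * logHeight (pc c s) +
        C * (1 + logHeight (cv c)) := by
  classical
  obtain ⟨mΦ, Φ, h1, h2, h3⟩ := main_all G e hG hI hsm F δ hF hnc D
  refine ⟨mΦ, Φ, h1, h2, ?_⟩
  intro K K' _ _ _ _ _ _ _ _ S ε hε
  obtain ⟨C, hC0, hC⟩ := h3 K' (S.biUnion (ab K')) ε hε
  refine ⟨C, hC0, ?_⟩
  intro d hd c s hs hc hz hxF A hA
  have hinj := (algebraMap K K').injective
  have hpc : ∀ z : Fin 2 → K, pc (fun l m => algebraMap K K' (c l m))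
      (fun i => algebraMap K K' (z i)) = fun l => algebraMap K K' (pc c z l) :=
    fun z => pc_map (algebraMap K K') c z
  have hs' : (fun i => algebraMap K K' (s i)) ≠ 0 := by
    intro h
    apply hs
    funext i
    have := congrFun h i
    exact hinj (by rw [Pi.zero_apply, map_zero]; exact this)
  have hx' : pc (fun l m => algebraMap K K' (c l m)) (fun i => algebraMap K K' (s i)) ≠ 0 := by
    have h4 := hc.nz K' (fun i => algebraMap K K' (s i)) hs'
    exact h4
  have hx : pc c s ≠ 0 := by
    intro h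
    apply hx'
    rw [hpc, h]
    funext l
    simp
  have h4 := hC d hd (fun l m => algebraMap K K' (c l m)) (fun i => algebraMap K K' (s i)) hs' hc
    (by
      obtain ⟨z, hz⟩ := hz
      refine ⟨fun i => algebraMap K K' (z i), ?_⟩
      rw [hpc, aeval_am]
      exact (map_ne_zero _).2 hz)
    (by
      intro i
      obtain ⟨j, hj⟩ := hxF i
      refine ⟨j, ?_⟩
      rw [hpc, aeval_am]
      exact (map_ne_zero _).2 hj)
    (fun l c => algebraMap K K' (A l c)) (by
      rw [hpc]
      exact IsTB_map G _ A hA)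
  rw [hpc, prx_ext S F δ _ hx hxF] at h4
  have e1 : logHeight (mv (fun l c => algebraMap K K' (A l c))) =
      finrank K K' * logHeight (mv A) := by
    have : mv (fun l c => algebraMap K K' (A l c)) = fun J => algebraMap K K' (mv A J) := by
      funext J
      exact mv_map A J
    rw [this]
    exact Pool.Agent.Helper259.HtExt.logHeight_ext (K := K) (L := K') (mv A)
  have e2 : logHeight (fun l => algebraMap K K' (pc c s l)) =
      finrank K K' * logHeight (pc c s) :=
    Pool.Agent.Helper259.HtExt.logHeight_ext (K := K) (L := K') (pc c s)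
  have e3 : logHeight (cv fun l m => algebraMap K K' (c l m)) =
      finrank K K' * logHeight (cv c) :=
    Pool.Agent.Helper259.HtExt.logHeight_ext (K := K) (L := K') (cv c)
  rw [e1, e2, e3] at h4
  have hf : (1 : ℝ) ≤ finrank K K' := by
    have : 0 < finrank K K' := finrank_pos
    exact_mod_cast this
  have hcv := logHeight_nonneg (cv c)
  have h5 : C * (1 + finrank K K' * logHeight (cv c)) ≤
      finrank K K' * (C * (1 + logHeight (cv c))) := by
    have h6 : C * 1 ≤ C * finrank K K' := mul_le_mul_of_nonneg_left hf hC0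
    nlinarith
  have h7 : (finrank K K' : ℝ) * (prx S F δ (pc c s) + logHeight (mv A)) ≤
      finrank K K' * ((n' + 2 + ε) * logHeight (pc c s) + C * (1 + logHeight (cv c))) := by
    linarith
  exact le_of_mul_le_mul_left h7 (by linarith)

end Pool.Agent.H432.RC
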